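import Pool.Agent.Q20.SI.Min

/-!
# Stark's rational conjecture: reduction to the unramified case and the minimal case
-/

set_option autoImplicit false
set_option linter.unusedSectionVars false

namespace Pool.Agent.Q20.SI

open NumberField IsDedekindDomain Pool.Agent.Q20.RS
open Pool.Agent.Q20.RS.RL (StarkEq TotReal)
open Pool.Agent.Q20.TR (bt)

section
variable {F : Type} [Field F] [NumberField F]

theorem isCyclic_of_inj {E M : Type} [Field E] [Field M] [Algebra E M] [FiniteDimensional E M]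
    {χ : (M ≃ₐ[E] M) →* ℂˣ} (h : Function.Injective χ) : IsCyclic (M ≃ₐ[E] M) := by
  refine isCyclic_of_injective_ringHom ((Units.coeHom ℂ).comp χ) ?_
  intro a b hab
  exact h (Units.ext hab)

theorem base_mem {M : Type} [Field M] [NumberField M] [Algebra F M]
    (j : M →ₐ[F] AlgebraicClosure F) (z : AlgebraicClosure F) :
    z ∈ base F ↔ ∃ x : F, j (algebraMap F M x) = z := by
  unfold base
  rw [IntermediateField.mem_bot]
  constructor
  · rintro ⟨x, hx⟩
    exact ⟨x, (j.commutes x).trans hx⟩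
  · rintro ⟨x, hx⟩
    exact ⟨x, (j.commutes x).symm.trans hx⟩

/-- the characters which are `-1` at the complex conjugations -/
theorem min_starkEq (hCMP : S_CMP) (hREG : S_REG) (hORB : S_ORB) (hEXI : S_EXI)
    (hRAM : S_RAM) (hAUX : S_AUX) (hKER : S_KER) (hM : MinimalCase F)
    (hLFN : S_LFN) (hCN0 : S_CN0) (hRGA : S_RGA) (hRGB : S_RGB) (hNSP : S_NSP)
    {ψ : RL.Lin (base F)} (hψ : ψ.smooth) (ho : ψ.parity (-1)) (σ : ℂ ≃+* ℂ) :
    StarkEq ψ.fn σ := by
  classical
  by_cases htr : ∀ g, ψ.fn g = 1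
  · exact triv_starkEq hORB hEXI hLFN hCN0 hRGA hRGB fin_base htr σ
  obtain ⟨M, _, _, _, _, j, χ, hinf, hinj⟩ := kerf_base hKER ψ hψ
  have hm := base_mem (F := F) j
  have hfin : {v : HeightOneSpectrum (𝓞 F) | ¬ Unrm M v}.Finite :=
    Pool.Agent.Q92.AR.ramified_finite
  have hnt : ∃ y, χ y ≠ 1 := by
    by_contra hn
    push Not at hn
    refine htr fun g => ?_
    obtain ⟨y, hy⟩ := exists_restr (K := F) (E := F) (E' := base F) j hm g
    rw [← hinf y g hy]
    unfold cf
    rw [hn, Units.val_one]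
  obtain ⟨y, hy⟩ := hnt
  obtain ⟨P, -, hP⟩ := hNSP F M y ∅
  let S : Finset (HeightOneSpectrum (𝓞 F)) := insert (P.under (𝓞 F)) hfin.toFinset
  obtain ⟨D, hDS, hex⟩ := exists_data hAUX S
    (fun p hp => Finset.mem_insert_of_mem (hfin.mem_toFinset.2 hp)) hinj
    ⟨.inl P, mem_abv.2 (Finset.mem_insert_self _ _), y, congrArg Sum.inl hP, fun h => hy (by
      rw [h, map_one])⟩
  have hr : D.r = InfinitePlace.nrComplexPlaces F := by
    refine r_eq hORB D hinj fun v hv ht => ?_
    rcases v with Q | v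
    · exfalso
      have h1 : Q.under (𝓞 F) ∈ S := by
        rw [← hDS]
        exact mem_abv.1 hv
      rcases Finset.mem_insert.1 h1 with h2 | h2
      · obtain ⟨g, hg⟩ := conj_primes hORB (P := P) (Q := Q) h2.symm
        have h3 : Triv χ (pact g (.inl P : Pl M)) := by
          have h4 : pact g (.inl P : Pl M) = .inl Q := congrArg Sum.inl hg
          rw [h4]
          exact ht
        exact hy (triv_pact g h3 y (congrArg Sum.inl hP))
      · obtain ⟨g, hgP, hg1⟩ := ram_place hORB Q (hfin.mem_toFinset.1 h2)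
        refine hg1 (hinj ?_)
        rw [map_one]
        exact ht g (congrArg Sum.inl hgP)
    · refine ⟨v, rfl, ?_⟩
      rw [← InfinitePlace.not_isReal_iff_isComplex]
      exact fun hre => odd_real (K := F) (E := F) (E' := base F) j hm hinf ho v hre ht
  have hQ := hM M D (isCyclic_of_inj hinj) hr
  exact starkEq_of_level (stark_of_q1 (K := F) (E' := base F) D hCMP hREG hORB hEXI hRAM hQ hex
    ⟨y, hy⟩ j hm ψ.fn hinf σ)

/-- Stark's equality for all linear characters of `Gal(F̄/F)` -/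
theorem all_starkEq (hCMP : S_CMP) (hREG : S_REG) (hORB : S_ORB) (hEXI : S_EXI)
    (hRAM : S_RAM) (hAUX : S_AUX) (hKER : S_KER) (hUNK : S_UNK) (hU : UnramifiedCase F)
    (hM : MinimalCase F) (hLFN : S_LFN) (hCN0 : S_CN0) (hRGA : S_RGA) (hRGB : S_RGB)
    (hNSP : S_NSP) {ψ : RL.Lin (base F)} (hψ : ψ.smooth) (σ : ℂ ≃+* ℂ) : StarkEq ψ.fn σ := by
  have hF : FinExt (base F) := fin_base
  obtain ⟨η, hη, ho⟩ := RL.exists_odd hF hψ (s := -1) (Or.inr rfl)
  have h1 := RL.stark_exact (K := F) σ fun E ψ hE hψ hu => unram_starkEq hCMP hREG hORB hEXI hRAM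
    hLFN hCN0 hRGA hRGB hNSP hAUX hKER hUNK hU hE hψ hu σ
  exact (h1.1 (base F) _ η hF hψ hη).1 (min_starkEq hCMP hREG hORB hEXI hRAM hAUX hKER hM hLFN
    hCN0 hRGA hRGB hNSP (RL.smooth_mul hψ hη.smooth) ho σ)

/-- **The theorem.** -/
theorem order_main (hCMP : S_CMP) (hREG : S_REG) (hORB : S_ORB) (hEXI : S_EXI)
    (hRAM : S_RAM) (hLFN : S_LFN) (hCN0 : S_CN0) (hRGA : S_RGA) (hRGB : S_RGB) (hRGT : S_RGT)
    (hNSP : S_NSP) (hAUX : S_AUX) (hKER : S_KER) (hUNK : S_UNK) (hU : UnramifiedCase F)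
    (hM : MinimalCase F) {K : Type} [Field K]
    [NumberField K] [Algebra F K] [IsGalois F K] (D : OrderData F K) : D.Q1 := by
  refine q1_of_good D fun χ hex => ?_
  by_cases hχ : ∀ g, χ g = 1
  · exact good_triv hORB hEXI hLFN hCN0 hRGA hRGB hRGT D hex hχ
  push Not at hχ
  let j : K →ₐ[F] AlgebraicClosure F := IsAlgClosed.lift
  obtain ⟨ψ, hinf, hψ⟩ := exists_infl (E := F) (E' := base F) j (base_mem j) χ
  exact good_of_stark (E' := base F) D hCMP hORB hEXI hRAM hex hχ j (base_mem j) ψ.fn hinf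
    fun σ => level_of_starkEq (all_starkEq hCMP hREG hORB hEXI hRAM hAUX hKER hUNK hU hM hLFN
      hCN0 hRGA hRGB hNSP hψ σ)

end

end Pool.Agent.Q20.SI
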