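import Pool.Agent.Q20.SI.Row3
import Pool.Agent.Q20.SI.Main3

/-!
# Rationality of the `χ`-parts of Rubin–Stark elements: proofs
-/

set_option autoImplicit false
set_option linter.unusedSectionVars false

namespace Pool.Agent.Q20.SI

open NumberField IsDedekindDomain Pool.Agent.Q20.RS
open Pool.Agent.Q20.RS.RL (Twister Dihedral StarkEq)
open Pool.Agent.Q20.TR (bt)

section
variable {G : Type} [Group G] [Fintype G]

/-- the automorphisms over `E` -/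
def Fix (E : Subfield ℂ) (σ : ℂ ≃+* ℂ) : Prop := ∀ z ∈ E, σ z = z

theorem Fix.symm {E : Subfield ℂ} {σ : ℂ ≃+* ℂ} (h : Fix E σ) : Fix E σ.symm := by
  intro z hz
  rw [RingEquiv.symm_apply_eq, h z hz]

theorem Fix.trans {E : Subfield ℂ} {σ τ : ℂ ≃+* ℂ} (h : Fix E σ) (h' : Fix E τ) :
    Fix E (σ.trans τ) := by
  intro z hz
  rw [RingEquiv.trans_apply, h z hz, h' z hz]

/-- **Equivariant functions** of the characters over a field -/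
theorem fourierE (E : Subfield ℂ) (c : (G →* ℂˣ) → ℂ)
    (hc : ∀ σ : ℂ ≃+* ℂ, Fix E σ → ∀ χ, c (cj σ χ) = σ (c χ)) :
    ∃ a : G → ℂ, (∀ g, a g ∈ E) ∧ ∀ χ, c χ = ∑ g, a g * ((χ g : ℂˣ) : ℂ) := by
  classical
  refine ⟨fun g => (Fintype.card G : ℂ)⁻¹ * ∑ χ, c χ * (((χ g : ℂˣ) : ℂ))⁻¹, fun g => ?_,
    fun χ => ?_⟩
  · by_contra hn
    obtain ⟨σ, h1, hz⟩ := Pool.Agent.TH119.MX.exists_move hn
    refine hz ?_
    rw [map_mul, map_inv₀, map_natCast, map_sum]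
    congr 1
    refine Finset.sum_equiv (cjE σ) (fun _ => by simp) fun χ _ => ?_
    change _ = c (cj σ χ) * (((cj σ χ g : ℂˣ) : ℂ))⁻¹
    rw [hc σ h1, cj_val, map_mul, map_inv₀]
  · have hG : (Fintype.card G : ℂ) ≠ 0 := by exact_mod_cast Fintype.card_ne_zero
    have h2 : ∀ g, (Fintype.card G : ℂ)⁻¹ * (∑ χ, c χ * (((χ g : ℂˣ) : ℂ))⁻¹) * ((χ g : ℂˣ) : ℂ) =
        (Fintype.card G : ℂ)⁻¹ * ∑ χ', c χ' * (((χ g : ℂˣ) : ℂ) * (((χ' g : ℂˣ) : ℂ))⁻¹) := by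
      intro g
      rw [mul_assoc, Finset.sum_mul]
      congr 1
      refine Finset.sum_congr rfl fun χ' _ => ?_
      ring
    rw [Finset.sum_congr rfl fun g _ => h2 g, ← Finset.mul_sum, Finset.sum_comm]
    have h3 : ∀ χ', ∑ g, c χ' * (((χ g : ℂˣ) : ℂ) * (((χ' g : ℂˣ) : ℂ))⁻¹) =
        if χ = χ' then c χ' * Fintype.card G else 0 := by
      intro χ'
      rw [← Finset.mul_sum, orth]
      split_ifs
      · rfl
      · rw [mul_zero]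
    rw [Finset.sum_congr rfl fun χ' _ => h3 χ', Finset.sum_ite_eq, if_pos (Finset.mem_univ _)]
    field_simp

end

section
variable {F K : Type} [Field F] [NumberField F] [Field K] [NumberField K] [Algebra F K]
  (D : PartData F K)

theorem part_ne {ψ : (K ≃ₐ[F] K) →* ℂˣ} (h : D.Exact ψ) : ∃ g, ψ g ≠ 1 := by
  obtain ⟨g, hg, h1⟩ := D.ne
  exact ⟨g, by rwa [h.1 g hg]⟩

theorem part_reps {ψ : (K ≃ₐ[F] K) →* ℂˣ} (h : D.Exact ψ) : Reps ψ (abv K D.S) D.w :=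
  ⟨D.mem, fun i g hg => by rw [h.1 g (D.dec i g hg).1, (D.dec i g hg).2], h.2, D.dist⟩

theorem part_exact {σ : ℂ ≃+* ℂ} (hσ : Fix D.E σ) {ψ ψ' : (K ≃ₐ[F] K) →* ℂˣ}
    (h : ∀ g, cf ψ' g = σ (cf ψ g)) (hψ : D.Exact ψ) : D.Exact ψ' := by
  have hk : ∀ g, ψ' g = 1 ↔ ψ g = 1 := ker_conj (σ := σ) h
  refine ⟨fun g hg => ?_, fun v hv ht => hψ.2 v hv fun g hg => (hk g).1 (ht g hg)⟩
  apply Units.ext
  have h1 : cf ψ g = cf D.χ g := congrArg (fun z : ℂˣ => (z : ℂ)) (hψ.1 g hg)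
  change cf ψ' g = cf D.χ g
  rw [h, h1, hσ _ (D.val g hg)]

theorem part_lead [IsGalois F K] (ψ : (K ≃ₐ[F] K) →* ℂˣ) : lead D.S ψ ≠ 0 :=
  leading_ne (lin_mem _ _)

/-- Stark's equalities over `E` for `ψ` in terms of units -/
def PartGood (ψ : (K ≃ₐ[F] K) →* ℂˣ) : Prop :=
  ∃ α : Fin D.r → K, (∀ i, IsUnt (abv K D.S) (α i)) ∧
    (∀ σ : ℂ ≃+* ℂ, (ellM (cj σ ψ) α D.w).det ≠ 0) ∧ ∀ σ : ℂ ≃+* ℂ, Fix D.E σ →
      σ ((ellM ψ α D.w).det / lead D.S ψ) = (ellM (cj σ ψ) α D.w).det / lead D.S (cj σ ψ)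

theorem part_of_good [IsGalois F K] (h : ∀ ψ : (K ≃ₐ[F] K) →* ℂˣ, D.Exact ψ → PartGood D ψ) :
    D.Q1 := by
  classical
  let X : Type := {ψ : (K ≃ₐ[F] K) →* ℂˣ // D.Exact ψ}
  have hX : ∀ ψ₀ : X, PartGood D ψ₀.1 := fun ψ₀ => h _ ψ₀.2
  choose α hα hdet hst using hX
  -- orbits
  let orb : ((K ≃ₐ[F] K) →* ℂˣ) → Finset ((K ≃ₐ[F] K) →* ℂˣ) := fun ψ =>
    Finset.univ.filter fun ψ' => ∃ σ : ℂ ≃+* ℂ, Fix D.E σ ∧ ψ = cj σ ψ'
  have horb : ∀ ψ ψ', ψ' ∈ orb ψ ↔ ∃ σ : ℂ ≃+* ℂ, Fix D.E σ ∧ ψ = cj σ ψ' := fun ψ ψ' => by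
    rw [Finset.mem_filter]
    exact ⟨fun h => h.2, fun h => ⟨Finset.mem_univ _, h⟩⟩
  have horbc : ∀ (τ : ℂ ≃+* ℂ), Fix D.E τ → ∀ ψ, orb (cj τ ψ) = orb ψ := by
    intro τ hτ ψ
    ext ψ'
    rw [horb, horb]
    constructor
    · rintro ⟨σ, h1, hσ⟩
      exact ⟨σ.trans τ.symm, h1.trans hτ.symm, by rw [← cj_cj, ← hσ, cj_symm]⟩
    · rintro ⟨σ, h1, hσ⟩
      exact ⟨σ.trans τ, h1.trans hτ, by rw [← cj_cj, ← hσ]⟩
  have horb0 : ∀ ψ, ((orb ψ).card : ℂ) ≠ 0 := by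
    intro ψ
    have h1 : ψ ∈ orb ψ := (horb ψ ψ).2 ⟨RingEquiv.refl ℂ, fun _ _ => rfl, (cj_refl ψ).symm⟩
    exact_mod_cast (Finset.card_pos.2 ⟨ψ, h1⟩).ne'
  have hexo : ∀ ψ ψ', ψ' ∈ orb ψ → (D.Exact ψ ↔ D.Exact ψ') := by
    intro ψ ψ' h1
    obtain ⟨σ, hσ, rfl⟩ := (horb _ _).1 h1
    exact ⟨fun h2 => part_exact D hσ.symm (fun g => by
      rw [cf, cf, cj_val, RingEquiv.symm_apply_apply]) h2, fun h2 => part_exact D hσ (fun _ => rfl) h2⟩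
  -- the coefficient functions
  let c : X → ((K ≃ₐ[F] K) →* ℂˣ) → ℂ := fun ψ₀ ψ =>
    if ψ₀.1 ∈ orb ψ then lead D.S ψ / (ellM ψ (α ψ₀) D.w).det / (orb ψ).card else 0
  have hratio : ∀ (ψ₀ : X) (σ : ℂ ≃+* ℂ), Fix D.E σ →
      lead D.S (cj σ ψ₀.1) / (ellM (cj σ ψ₀.1) (α ψ₀) D.w).det =
        σ (((ellM ψ₀.1 (α ψ₀) D.w).det / lead D.S ψ₀.1)⁻¹) := by
    intro ψ₀ σ hσ
    rw [map_inv₀, hst _ σ hσ]
    rw [inv_div]
  have hc : ∀ (ψ₀ : X) (τ : ℂ ≃+* ℂ), Fix D.E τ → ∀ ψ, c ψ₀ (cj τ ψ) = τ (c ψ₀ ψ) := by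
    intro ψ₀ τ hτ ψ
    change (if ψ₀.1 ∈ orb (cj τ ψ) then lead D.S (cj τ ψ) / (ellM (cj τ ψ) (α ψ₀) D.w).det /
      (orb (cj τ ψ)).card else 0) = τ (if ψ₀.1 ∈ orb ψ then lead D.S ψ /
        (ellM ψ (α ψ₀) D.w).det / (orb ψ).card else 0)
    rw [horbc τ hτ]
    by_cases h1 : ψ₀.1 ∈ orb ψ
    · rw [if_pos h1, if_pos h1, map_div₀, map_natCast]
      congr 1
      obtain ⟨σ, hσ, rfl⟩ := (horb _ _).1 h1
      rw [cj_cj, hratio ψ₀ (σ.trans τ) (hσ.trans hτ), hratio ψ₀ σ hσ]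
      rfl
    · rw [if_neg h1, if_neg h1, map_zero]
  have hsum : ∀ ψ, D.Exact ψ → lead D.S ψ = ∑ ψ₀ : X, c ψ₀ ψ * (ellM ψ (α ψ₀) D.w).det := by
    intro ψ hψ
    have h1 : ∀ ψ₀ : X, c ψ₀ ψ * (ellM ψ (α ψ₀) D.w).det =
        if ψ₀.1 ∈ orb ψ then lead D.S ψ / (orb ψ).card else 0 := by
      intro ψ₀
      change (if ψ₀.1 ∈ orb ψ then lead D.S ψ / (ellM ψ (α ψ₀) D.w).det / (orb ψ).card else 0) *
        (ellM ψ (α ψ₀) D.w).det = _
      split_ifs with h2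
      · obtain ⟨σ, hσ, rfl⟩ := (horb _ _).1 h2
        have h3 := hdet ψ₀ σ
        field_simp
      · rw [zero_mul]
    rw [Finset.sum_congr rfl fun ψ₀ _ => h1 ψ₀]
    have h2 : ∑ ψ₀ : X, (if ψ₀.1 ∈ orb ψ then lead D.S ψ / (orb ψ).card else 0) =
        ∑ ψ' ∈ orb ψ, lead D.S ψ / (orb ψ).card := by
      rw [← Finset.sum_filter]
      refine Finset.sum_bij (fun ψ₀ _ => ψ₀.1) ?_ ?_ ?_ ?_
      · intro ψ₀ h3
        exact (Finset.mem_filter.1 h3).2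
      · intro a _ b _ h3
        exact Subtype.ext h3
      · intro ψ' h3
        exact ⟨⟨ψ', (hexo _ _ h3).1 hψ⟩, Finset.mem_filter.2 ⟨Finset.mem_univ _, h3⟩, rfl⟩
      · intro _ _
        rfl
    rw [h2, Finset.sum_const, nsmul_eq_mul]
    have h3 := horb0 ψ
    field_simp
  choose a ha ha' using fun ψ₀ => fourierE D.E (c ψ₀) (hc ψ₀)
  let e := Fintype.equivFin X
  refine ⟨Fintype.card X, fun m g => a (e.symm m) g, fun m j => α (e.symm m) j,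
    fun m g => ha _ g, fun m j => hα _ j, fun ψ hψ => ?_⟩
  rw [hsum ψ hψ, ← e.symm.sum_comp]
  refine Finset.sum_congr rfl fun m _ => ?_
  rw [ha' (e.symm m) ψ]
  rfl

/-- **Q1 is Stark's equality** -/
theorem part_q1_iff (hCMP : S_CMP) (hREG : S_REG) (hORB : S_ORB) (hEXI : S_EXI) (hRAM : S_RAM)
    [IsGalois F K] : D.Q1 ↔ ∀ ψ : (K ≃ₐ[F] K) →* ℂˣ, D.Exact ψ → ∀ σ : ℂ ≃+* ℂ,
      (∀ z ∈ D.E, σ z = z) → StarkFor ψ σ := by
  classical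
  have hT := stable_abv hORB (K := K) D.S
  have hR := ram_abv hORB D.ram
  constructor
  · rintro ⟨n, a, u, ha, hu, hQ⟩ ψ hex σ hσ j Ψ hΨ
    obtain ⟨α, hα, hdet, hst⟩ := stark_crit hCMP hORB hEXI hRAM D.comm j (base_mem j)
      (abv K D.S) hT hR ψ (part_ne D hex) D.w (part_reps D hex)
    refine starkEq_of_level ((hst σ Ψ.fn hΨ).2 fun χ' h' => ?_)
    have hd0 := hdet ψ fun _ => Iff.rfl
    choose c hc using fun m i => cmp_span hREG hEXI (abv K D.S) hT ψ (part_ne D hex) D.w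
      (part_reps D hex) α hα hd0 (hu m i)
    let C : Fin n → Matrix (Fin D.r) (Fin D.r) ℂ := fun m => Matrix.of fun l i => c m i l
    have hC : ∀ (σ : ℂ ≃+* ℂ) (χ' : (K ≃ₐ[F] K) →* ℂˣ), (∀ g, cf χ' g = σ (cf ψ g)) → ∀ m,
        (ellM χ' (u m) D.w).det = (ellM χ' α D.w).det * σ (C m).det := by
      intro σ χ' h' m
      have h1 : ellM χ' (u m) D.w = ellM χ' α D.w * (C m).map σ := by
        ext i k
        rw [Matrix.mul_apply]
        refine (hc m k σ χ' h' i).trans (Finset.sum_congr rfl fun l _ => ?_)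
        change σ (c m k l) * ell χ' (α l) (D.w i) = ell χ' (α l) (D.w i) * σ (c m k l)
        ring
      have h2 : ((C m).map σ).det = σ (C m).det := ((σ : ℂ →+* ℂ).map_det (C m)).symm
      rw [h1, Matrix.det_mul, h2]
    let B : ℂ := ∑ m, (∑ g, a m g * cf ψ g) * (C m).det
    have hB : ∀ (σ : ℂ ≃+* ℂ), Fix D.E σ → ∀ (χ' : (K ≃ₐ[F] K) →* ℂˣ),
        (∀ g, cf χ' g = σ (cf ψ g)) → lead D.S χ' = (ellM χ' α D.w).det * σ B := by
      intro σ hσ χ' h'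
      rw [hQ χ' (part_exact D hσ h' hex)]
      change _ = _ * σ (∑ m, (∑ g, a m g * cf ψ g) * (C m).det)
      rw [map_sum, Finset.mul_sum]
      refine Finset.sum_congr rfl fun m _ => ?_
      rw [hC σ χ' h' m, map_mul, map_sum]
      have h2 : ∀ g, σ (a m g * cf ψ g) = a m g * cf χ' g := by
        intro g
        rw [map_mul, hσ _ (ha m g), h']
      rw [Finset.sum_congr rfl fun g _ => h2 g]
      ring
    have h1 := hB (RingEquiv.refl ℂ) (fun _ _ => rfl) ψ fun _ => rfl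
    have h2 := hB σ hσ χ' h'
    change lead D.S ψ = (ellM ψ α D.w).det * B at h1
    have n1 := part_lead D ψ
    have n2 := part_lead D χ'
    have n5 : B ≠ 0 := by
      intro h0
      rw [h0, mul_zero] at h1
      exact n1 h1
    have n6 : σ B ≠ 0 := (map_ne_zero σ).2 n5
    have e1 : (ellM ψ α D.w).det / lead D.S ψ = 1 / B := by
      rw [div_eq_div_iff n1 n5]
      linear_combination -h1
    have e2 : (ellM χ' α D.w).det / lead D.S χ' = 1 / σ B := by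
      rw [div_eq_div_iff n2 n6]
      linear_combination -h2
    change σ ((ellM ψ α D.w).det / lead D.S ψ) = (ellM χ' α D.w).det / lead D.S χ'
    rw [e1, e2, map_div₀, map_one]
  · intro h
    refine part_of_good D fun ψ hex => ?_
    let j : K →ₐ[F] AlgebraicClosure F := IsAlgClosed.lift
    obtain ⟨Ψ, hinf, -⟩ := exists_infl (E := F) (E' := base F) j (base_mem j) ψ
    obtain ⟨α, hα, hdet, hst⟩ := stark_crit hCMP hORB hEXI hRAM D.comm j (base_mem j)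
      (abv K D.S) hT hR ψ (part_ne D hex) D.w (part_reps D hex)
    exact ⟨α, hα, fun σ => hdet _ (cj_one σ ψ), fun σ hσ =>
      (hst σ Ψ.fn hinf).1 (level_of_starkEq (h ψ hex σ hσ j Ψ hinf)) (cj σ ψ) fun _ => rfl⟩

/-- smoothness of inflations -/
theorem smooth_of_infl [IsGalois F K] (j : K →ₐ[F] AlgebraicClosure F) {Ψ : RL.Lin (base F)}
    {ψ : (K ≃ₐ[F] K) →* ℂˣ} (h : Infl j Ψ.fn (cf ψ)) : Ψ.smooth := by
  obtain ⟨Φ, hΦ, hs⟩ := exists_infl (E := F) (E' := base F) j (base_mem j) ψ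
  have h1 : Ψ = Φ := by
    refine MonoidHom.ext fun g => Units.ext ?_
    obtain ⟨y, hy⟩ := exists_restr (K := F) (E := F) (E' := base F) j (base_mem j) g
    exact (h y g hy).symm.trans (hΦ y g hy)
  rw [h1]
  exact hs

/-- the reduction to the unramified case and the minimal case -/
theorem part_red (hCMP : S_CMP) (hREG : S_REG) (hORB : S_ORB) (hEXI : S_EXI)
    (hRAM : S_RAM) (hAUX : S_AUX) (hKER : S_KER) (hUNK : S_UNK) (hU : UnramifiedCase F)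
    (hM : MinimalCase F) (hLFN : S_LFN) (hCN0 : S_CN0) (hRGA : S_RGA) (hRGB : S_RGB)
    (hNSP : S_NSP) [IsGalois F K] : D.Q1 :=
  (part_q1_iff D hCMP hREG hORB hEXI hRAM).2 fun _ _ σ _ j _ hΨ => all_starkEq hCMP hREG hORB
    hEXI hRAM hAUX hKER hUNK hU hM hLFN hCN0 hRGA hRGB hNSP (smooth_of_infl j hΨ) σ

end

end Pool.Agent.Q20.SI
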