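import Pool.Agent.Q20.SI.Row1

/-!
# Stark's equality for a character of an abelian extension, and the relation with a totally odd twist
-/

set_option autoImplicit false
set_option linter.unusedSectionVars false

namespace Pool.Agent.Q20.SI

open NumberField IsDedekindDomain Pool.Agent.Q20.RS
open Pool.Agent.Q20.RS.RL (Twister Dihedral StarkEq)

/-- Stark's equality for the character `χ` of `Gal(K/F)` and the automorphism `σ`: Stark's equality for
the characters `ψ` of `Gal(F̄/F)` which are inflations of `χ` along an embedding `j` of `K` in `F̄` -/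
def StarkChar {F K : Type} [Field F] [NumberField F] [Field K] [NumberField K] [Algebra F K]
    (χ : (K ≃ₐ[F] K) →* ℂˣ) (σ : ℂ ≃+* ℂ) : Prop :=
  ∀ (j : K →ₐ[F] AlgebraicClosure F) (ψ : RL.Lin (base F)),
    (∀ (y : K ≃ₐ[F] K) (g : (base F).fixingSubgroup),
      (∀ x : K, j (y x) = (g : Gal(AlgebraicClosure F/F)) (j x)) → cf χ y = ψ.fn g) →
    StarkEq ψ.fn σ

/-- Stark's equality for `ψ` in terms of a totally odd twist `ψη` and of characters which are unramified
at all finite places -/
def OddRelation {F : Type} [Field F] [NumberField F] (ψ : RL.Lin (base F)) : Prop :=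
  ∃ η : RL.Lin (base F), Twister ψ η ∧ (ψ.mul η).parity (-1) ∧
    ((∀ g, η.fn g = 1) ∨ ∃ d : Dihedral ψ η, ∀ σ : ℂ ≃+* ℂ, StarkEq ψ.fn σ ↔ Balanced d σ)

end Pool.Agent.Q20.SI
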