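import Pool.Agent.Q20.SI.Mix
import Pool.Agent.Q20.SI.Sch
import Pool.Agent.Q20.SI.Row3p

/-!
# The rational rank one Stark conjecture for mixed signature characters: proofs
-/

set_option autoImplicit false
set_option linter.unusedSectionVars false

namespace Pool.Agent.Q20.SI

open NumberField IsDedekindDomain Pool.Agent.Q20.RS
open Pool.Agent.Q20.RS.RL (Twister Dihedral StarkEq)
open Pool.Agent.Q20.TR (bt)

section
variable {F K : Type} [Field F] [NumberField F] [Field K] [NumberField K] [Algebra F K]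
  [IsGalois F K]

/-- the representatives: the place `v` -/
theorem mix_reps (hORB : S_ORB) (D : MixData F K) :
    Reps D.χ (abv K D.S) (fun _ : Unit => (.inr D.v : Pl K)) := by
  refine ⟨fun _ => trivial, fun _ g hg => ?_, fun w hw ht => ?_, fun _ _ _ _ => rfl⟩
  · have h1 : g • D.v = D.v := Sum.inr_injective hg
    have h2 := (D.real.isUnramified (k := F)).stabilizer_eq_bot
    have h3 : g ∈ MulAction.stabilizer (K ≃ₐ[F] K) D.v := h1
    rw [h2, Subgroup.mem_bot] at h3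
    rw [h3, map_one]
  · rcases w with P | w
    · obtain ⟨g, hg, hg1⟩ := D.finite P (mem_abv.1 hw)
      exact absurd (ht g (congrArg Sum.inl hg)) hg1
    · by_cases h : w.comap (algebraMap F K) = D.v.comap (algebraMap F K)
      · obtain ⟨-, -, h3, -⟩ := hORB F F K
        obtain ⟨g, -, hg⟩ := h3 (.inr D.v) (.inr w) (congrArg Sum.inr h.symm)
        exact ⟨(), g, hg⟩
      · obtain ⟨c, hc, hc1⟩ := D.arch w h
        have h1 := ht c (congrArg Sum.inr hc)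
        rw [hc1] at h1
        exact absurd h1 (by
          intro h2
          have h3 := congrArg (fun z : ℂˣ => (z : ℂ)) h2
          norm_num at h3)

/-- the numbers `A = ell / lead` and Stark's equality -/
theorem mix_crit (hCMP : S_CMP) (hORB : S_ORB) (hEXI : S_EXI) (hRAM : S_RAM) (D : MixData F K)
    (j : K →ₐ[F] AlgebraicClosure F) : ∃ α : K, IsUnt (abv K D.S) α ∧
      (∀ χ' : (K ≃ₐ[F] K) →* ℂˣ, (∀ g, χ' g = 1 ↔ D.χ g = 1) → ell χ' α (.inr D.v) ≠ 0) ∧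
      ∀ (σ : ℂ ≃+* ℂ) (Ψ : RL.Lin (base F)), Infl (E' := base F) j Ψ.fn (cf D.χ) →
        (StarkEq Ψ.fn σ ↔ ∀ χ' : (K ≃ₐ[F] K) →* ℂˣ, (∀ g, cf χ' g = σ (cf D.χ g)) →
          σ (ell D.χ α (.inr D.v) / lead D.S D.χ) = ell χ' α (.inr D.v) / lead D.S χ') := by
  classical
  have hT := stable_abv hORB (K := K) D.S
  have hR := ram_abv hORB D.ram
  have hr := mix_reps hORB D
  obtain ⟨α', hα', hdet, hst⟩ := stark_crit (K := F) (E := F) (E' := base F) hCMP hORB hEXI hRAM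
    D.comm j (base_mem j) (abv K D.S) hT hR D.χ D.ne _ hr
  have hd : ∀ χ' : (K ≃ₐ[F] K) →* ℂˣ,
      (ellM χ' α' (fun _ : Unit => (.inr D.v : Pl K))).det = ell χ' (α' ()) (.inr D.v) := by
    intro χ'
    rw [Matrix.det_unique]
    rfl
  refine ⟨α' (), hα' (), fun χ' h' => by rw [← hd]; exact hdet χ' h', fun σ Ψ hΨ => ?_⟩
  refine Iff.trans ⟨fun h => level_of_starkEq h, fun h => starkEq_of_level h⟩
    ((hst σ _ hΨ).trans ?_)
  simp only [hd]
  rfl

/-- the span property -/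
theorem mix_span (hREG : S_REG) (hORB : S_ORB) (hEXI : S_EXI) (D : MixData F K) {α u : K}
    (hα : IsUnt (abv K D.S) α) (h0 : ell D.χ α (.inr D.v) ≠ 0) (hu : IsUnt (abv K D.S) u) :
    ∃ c : ℂ, ∀ (σ : ℂ ≃+* ℂ) (χ' : (K ≃ₐ[F] K) →* ℂˣ), (∀ g, cf χ' g = σ (cf D.χ g)) →
      ell χ' u (.inr D.v) = σ c * ell χ' α (.inr D.v) := by
  classical
  obtain ⟨c, hc⟩ := cmp_span hREG hEXI (abv K D.S) (stable_abv hORB (K := K) D.S) D.χ D.ne
    (fun _ : Unit => (.inr D.v : Pl K)) (mix_reps hORB D) (fun _ => α) (fun _ => hα) (by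
      rw [Matrix.det_unique]
      exact h0) hu
  refine ⟨c (), fun σ χ' h' => ?_⟩
  have h1 := hc σ χ' h' ()
  rwa [Fintype.sum_unique] at h1

theorem mix_isUnt (D : MixData F K) {u : K} (hu : D.IsU u) : IsUnt (abv K D.S) u := by
  refine ⟨fun h0 => ?_, fun P _ => hu.1 P⟩
  obtain ⟨I, hI⟩ := Ideal.exists_maximal (𝓞 K)
  have h1 := hu.1 ⟨I, hI.isPrime, Ring.ne_bot_of_isMaximal_of_not_isField hI
    (RingOfIntegers.not_isField K)⟩
  rw [h0, map_zero] at h1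
  exact zero_ne_one h1

theorem mix_log (D : MixData F K) (χ' : (K ≃ₐ[F] K) →* ℂˣ) (u : K) :
    ell χ' u (.inr D.v) = ∑ g : K ≃ₐ[F] K, cf χ' g * ((Real.log (D.v (g u)) : ℝ) : ℂ) := by
  unfold ell
  refine Finset.sum_congr rfl fun g _ => ?_
  change _ * (((D.v.mult : ℝ) * Real.log (D.v (g u)) : ℝ) : ℂ) = _
  rw [InfinitePlace.mult, if_pos D.real, Nat.cast_one, one_mul]
  rfl

/-- the element of `U_{v,S}` -/
theorem mix_mod (hORB : S_ORB) (D : MixData F K) {α : K} (hα : IsUnt (abv K D.S) α) :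
    ∃ (u : K) (C : ℂ), D.IsU u ∧ C ∈ valF D.χ ∧ C ≠ 0 ∧ ∀ (σ : ℂ ≃+* ℂ)
      (χ' : (K ≃ₐ[F] K) →* ℂˣ), (∀ g, cf χ' g = σ (cf D.χ g)) →
      ell χ' u (.inr D.v) = σ C * ell χ' α (.inr D.v) := by
  classical
  have hT := stable_abv hORB (K := K) D.S
  let W : Finset (Pl K) := (abv K D.S).image Sum.inl ∪
    ((Finset.univ : Finset (InfinitePlace K)).filter fun w =>
      w.comap (algebraMap F K) ≠ D.v.comap (algebraMap F K)).image Sum.inr
  have hW : ∀ w ∈ W, ∃ δ : K ≃ₐ[F] K, pact δ w = w ∧ D.χ δ ≠ 1 := by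
    intro w hw
    rcases Finset.mem_union.1 hw with hw | hw
    · obtain ⟨P, hP, rfl⟩ := Finset.mem_image.1 hw
      obtain ⟨g, hg, hg1⟩ := D.finite P (mem_abv.1 hP)
      exact ⟨g, congrArg Sum.inl hg, hg1⟩
    · obtain ⟨w, hw', rfl⟩ := Finset.mem_image.1 hw
      obtain ⟨c, hc, hc1⟩ := D.arch w (Finset.mem_filter.1 hw').2
      refine ⟨c, congrArg Sum.inr hc, ?_⟩
      rw [hc1]
      intro h2
      have h3 := congrArg (fun z : ℂˣ => (z : ℂ)) h2
      norm_num at h3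
  let δ : Pl K → (K ≃ₐ[F] K) := fun w => if hw : w ∈ W then (hW w hw).choose else 1
  have hδ : ∀ w ∈ W, pact (δ w) w = w ∧ D.χ (δ w) ≠ 1 := by
    intro w hw
    change pact (if hw : w ∈ W then (hW w hw).choose else 1) w = w ∧
      D.χ (if hw : w ∈ W then (hW w hw).choose else 1) ≠ 1
    rw [dif_pos hw]
    exact (hW w hw).choose_spec
  obtain ⟨u, hu, hu0, hul⟩ := exists_mod D.comm hT hα δ W fun w hw => (hδ w hw).1
  let C : ((K ≃ₐ[F] K) →* ℂˣ) → ℂ := fun χ' => ∏ w ∈ W, (1 - (cf χ' (δ w))⁻¹)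
  have hC0 : C D.χ ≠ 0 := by
    refine Finset.prod_ne_zero_iff.2 fun w hw h0 => (hδ w hw).2 ?_
    have h1 := sub_eq_zero.1 h0
    have h2 : cf D.χ (δ w) = 1 := by rw [← inv_inv (cf D.χ (δ w)), ← h1, inv_one]
    exact Units.ext h2
  have hCσ : ∀ (σ : ℂ ≃+* ℂ) (χ' : (K ≃ₐ[F] K) →* ℂˣ), (∀ g, cf χ' g = σ (cf D.χ g)) →
      C χ' = σ (C D.χ) := by
    intro σ χ' h'
    change ∏ w ∈ W, (1 - (cf χ' (δ w))⁻¹) = σ (∏ w ∈ W, (1 - (cf D.χ (δ w))⁻¹))
    rw [map_prod]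
    refine Finset.prod_congr rfl fun w _ => ?_
    rw [map_sub, map_one, map_inv₀, h']
  refine ⟨u, C D.χ, ⟨fun P => ?_, fun w hw => ?_⟩, mem_valF D.χ fun σ hσ => (hCσ σ D.χ hσ).symm,
    hC0, fun σ χ' h' => ?_⟩
  · by_cases hP : P ∈ abv K D.S
    · have h1 := hu0 (.inl P) (Finset.mem_union_left _ (Finset.mem_image_of_mem _ hP)) 1
      rw [pact_one] at h1
      refine Real.eq_one_of_pos_of_log_eq_zero ?_ h1
      rw [AbsoluteValue.pos_iff]
      exact hu.1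
    · exact hu.2 P hP
  · have h1 := hu0 (.inr w) (Finset.mem_union_right _ (Finset.mem_image_of_mem _
      (Finset.mem_filter.2 ⟨Finset.mem_univ _, hw⟩))) 1
    rw [pact_one] at h1
    change (w.mult : ℝ) * Real.log (w u) = 0 at h1
    have h2 : (w.mult : ℝ) ≠ 0 := by exact_mod_cast InfinitePlace.mult_ne_zero
    refine Real.eq_one_of_pos_of_log_eq_zero ?_ ((mul_eq_zero.1 h1).resolve_left h2)
    exact (InfinitePlace.pos_iff).2 hu.1
  · rw [hul χ' (.inr D.v), ← hCσ σ χ' h']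

theorem mix_lead_ne (D : MixData F K) (χ' : (K ≃ₐ[F] K) →* ℂˣ) : lead D.S χ' ≠ 0 :=
  leading_ne (lin_mem _ _)

/-- **Q1 is Stark's equality for the automorphisms fixing the values of `χ`** -/
theorem mix_q1_iff (hCMP : S_CMP) (hREG : S_REG) (hORB : S_ORB) (hEXI : S_EXI) (hRAM : S_RAM)
    (D : MixData F K) :
    D.Q1 ↔ ∀ σ : ℂ ≃+* ℂ, (∀ g, σ (cf D.χ g) = cf D.χ g) → StarkChar D.χ σ := by
  have n2 := mix_lead_ne D D.χ
  constructor
  · rintro ⟨c, u, hc, hu, hQ⟩ σ hσ j Ψ hΨ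
    obtain ⟨α, hα, h0, hst⟩ := mix_crit hCMP hORB hEXI hRAM D j
    have n1 := h0 D.χ fun _ => Iff.rfl
    refine (hst σ Ψ hΨ).2 fun χ' h' => ?_
    have hχ' : χ' = D.χ := by
      ext g
      exact (h' g).trans (hσ g)
    obtain ⟨b, hb⟩ := mix_span hREG hORB hEXI D hα n1 (mix_isUnt D hu)
    have h1 := hb (RingEquiv.refl ℂ) D.χ fun _ => rfl
    have h2 := hb σ D.χ fun g => (hσ g).symm
    change _ = b * _ at h1
    have h3 : σ b = b := mul_right_cancel₀ n1 (h2.symm.trans h1)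
    have h4 : σ c = c := by
      have h5 : ∀ z ∈ valF D.χ, σ z = z := by
        intro z hz
        unfold valF at hz
        induction hz using IntermediateField.adjoin_induction with
        | mem x hx => obtain ⟨g, rfl⟩ := hx; exact hσ g
        | algebraMap x => exact map_ratCast σ x
        | add x y _ _ hx hy => rw [map_add, hx, hy]
        | inv x _ hx => rw [map_inv₀, hx]
        | mul x y _ _ hx hy => rw [map_mul, hx, hy]
      exact h5 c hc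
    rw [← mix_log, h1] at hQ
    have h5 : c * b ≠ 0 := by
      intro h6
      rw [← mul_assoc, h6, zero_mul] at hQ
      exact n2 hQ
    have h6 : ell D.χ α (.inr D.v) / lead D.S D.χ = (c * b)⁻¹ := by
      rw [hQ, ← mul_assoc, div_mul_cancel_right₀ n1]
    rw [hχ', h6, map_inv₀, map_mul, h3, h4]
  · intro h
    let j : K →ₐ[F] AlgebraicClosure F := IsAlgClosed.lift
    obtain ⟨Ψ, hΨ, -⟩ := exists_infl (E := F) (E' := base F) j (base_mem j) D.χ
    obtain ⟨α, hα, h0, hst⟩ := mix_crit hCMP hORB hEXI hRAM D j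
    have n1 := h0 D.χ fun _ => Iff.rfl
    obtain ⟨u, C, hu, hCF, hC0, hC⟩ := mix_mod hORB D hα
    let A : ℂ := ell D.χ α (.inr D.v) / lead D.S D.χ
    have hA0 : A ≠ 0 := div_ne_zero n1 n2
    have hAF : A ∈ valF D.χ := mem_valF D.χ fun σ hσ =>
      (hst σ Ψ hΨ).1 (h σ (fun g => (hσ g).symm) j Ψ hΨ) D.χ hσ
    refine ⟨(C * A)⁻¹, u, inv_mem (mul_mem hCF hAF), hu, ?_⟩
    have h1 := hC (RingEquiv.refl ℂ) D.χ fun _ => rfl
    change _ = C * _ at h1
    rw [← mix_log, h1]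
    change _ = (C * (ell D.χ α (.inr D.v) / lead D.S D.χ))⁻¹ * _
    field_simp

/-- **Q1 for the conjugates of `χ` is Stark's equality for all automorphisms** -/
theorem mix_q1conj_iff (hCMP : S_CMP) (hREG : S_REG) (hORB : S_ORB) (hEXI : S_EXI)
    (hRAM : S_RAM) (D : MixData F K) :
    D.Q1Conj ↔ ∀ σ : ℂ ≃+* ℂ, StarkChar D.χ σ := by
  have n2 := mix_lead_ne D D.χ
  constructor
  · rintro ⟨c, u, hc, hu, hQ⟩ σ j Ψ hΨ
    obtain ⟨α, hα, h0, hst⟩ := mix_crit hCMP hORB hEXI hRAM D j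
    have n1 := h0 D.χ fun _ => Iff.rfl
    refine (hst σ Ψ hΨ).2 fun χ' h' => ?_
    obtain ⟨b, hb⟩ := mix_span hREG hORB hEXI D hα n1 (mix_isUnt D hu)
    have n3 : ell χ' α (.inr D.v) ≠ 0 := h0 χ' (ker_conj (σ := σ) h')
    have n4 := mix_lead_ne D χ'
    have key : ∀ (σ : ℂ ≃+* ℂ) (χ' : (K ≃ₐ[F] K) →* ℂˣ), (∀ g, cf χ' g = σ (cf D.χ g)) →
        ell χ' α (.inr D.v) ≠ 0 → ell χ' α (.inr D.v) / lead D.S χ' = (σ c * σ b)⁻¹ := by
      intro σ χ' h' h3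
      have h1 := hQ σ χ' h'
      rw [← mix_log, hb σ χ' h'] at h1
      rw [h1, ← mul_assoc, div_mul_cancel_right₀ h3]
    have h1 := key (RingEquiv.refl ℂ) D.χ (fun _ => rfl) n1
    rw [h1, key σ χ' h' n3, map_inv₀, map_mul]
    rfl
  · intro h
    let j : K →ₐ[F] AlgebraicClosure F := IsAlgClosed.lift
    obtain ⟨Ψ, hΨ, -⟩ := exists_infl (E := F) (E' := base F) j (base_mem j) D.χ
    obtain ⟨α, hα, h0, hst⟩ := mix_crit hCMP hORB hEXI hRAM D j
    have n1 := h0 D.χ fun _ => Iff.rfl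
    obtain ⟨u, C, hu, hCF, hC0, hC⟩ := mix_mod hORB D hα
    let A : ℂ := ell D.χ α (.inr D.v) / lead D.S D.χ
    have hA : ∀ (σ : ℂ ≃+* ℂ) (χ' : (K ≃ₐ[F] K) →* ℂˣ), (∀ g, cf χ' g = σ (cf D.χ g)) →
        σ A = ell χ' α (.inr D.v) / lead D.S χ' := fun σ χ' h' =>
          (hst σ Ψ hΨ).1 (h σ j Ψ hΨ) χ' h'
    have hA0 : A ≠ 0 := div_ne_zero n1 n2
    have hAF : A ∈ valF D.χ := mem_valF D.χ fun σ hσ => hA σ D.χ hσ
    refine ⟨(C * A)⁻¹, u, inv_mem (mul_mem hCF hAF), hu, fun σ χ' h' => ?_⟩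
    have h3 : ell χ' α (.inr D.v) ≠ 0 := h0 χ' (ker_conj (σ := σ) h')
    have h4 := mix_lead_ne D χ'
    have h5 : σ C ≠ 0 := (map_ne_zero σ).2 hC0
    rw [← mix_log, hC σ χ' h', map_inv₀, map_mul, hA σ χ' h']
    field_simp

/-- the reduction to the unramified case and the minimal case -/
theorem mix_red (hCMP : S_CMP) (hREG : S_REG) (hORB : S_ORB) (hEXI : S_EXI)
    (hRAM : S_RAM) (hAUX : S_AUX) (hKER : S_KER) (hUNK : S_UNK) (hU : UnramifiedCase F)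
    (hM : MinimalCase F) (hLFN : S_LFN) (hCN0 : S_CN0) (hRGA : S_RGA) (hRGB : S_RGB)
    (hNSP : S_NSP) (D : MixData F K) : D.Q1Conj :=
  (mix_q1conj_iff hCMP hREG hORB hEXI hRAM D).2 fun σ j _ hΨ => all_starkEq hCMP hREG hORB hEXI
    hRAM hAUX hKER hUNK hU hM hLFN hCN0 hRGA hRGB hNSP (smooth_of_infl j hΨ) σ

end

end Pool.Agent.Q20.SI
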