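import Pool.Agent.Q20.SI.All2
import Pool.Agent.Q20.SI.Mixp

/-!
# Stark's rational conjecture: the exact relation and the equivalences
-/

set_option autoImplicit false
set_option linter.unusedSectionVars false

namespace Pool.Agent.Q20.SI

open NumberField IsDedekindDomain Pool.Agent.Q20.RS
open Pool.Agent.Q20.RS.RL (Twister Dihedral StarkEq)

theorem odd_relation {F : Type} [Field F] [NumberField F] {ψ : RL.Lin (base F)}
    (hψ : ψ.smooth) : OddRelation ψ := by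
  have hF : FinExt (base F) := fin_base
  obtain ⟨η, hη, ho⟩ := RL.exists_odd hF hψ (s := -1) (Or.inr rfl)
  refine ⟨η, hη, ho, ?_⟩
  by_cases h : ∀ g, η.fn g = 1
  · exact Or.inl h
  · push Not at h
    obtain ⟨d⟩ := RL.exists_dihedral hF hψ hη h
    exact Or.inr ⟨d, fun σ => starkEq_iff_balanced hF hψ hη.smooth d σ⟩

section
variable {F K : Type} [Field F] [NumberField F] [Field K] [NumberField K] [Algebra F K]
  [IsGalois F K]

theorem starkChar_iff (χ : (K ≃ₐ[F] K) →* ℂˣ) (σ : ℂ ≃+* ℂ) : StarkFor χ σ ↔ StarkChar χ σ :=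
  Iff.rfl

/-- Q1 of order `r` as Stark's equality for the characters with `r(χ) = r` -/
theorem order_iff (D : OrderData F K) :
    D.Q1 ↔ ∀ χ : (K ≃ₐ[F] K) →* ℂˣ, D.Exact χ → (∃ g, χ g ≠ 1) →
      ∀ σ : ℂ ≃+* ℂ, StarkChar χ σ := by
  constructor
  · intro hQ χ hex hχ σ j Ψ hΨ
    exact starkEq_of_level (stark_of_q1 (K := F) (E' := base F) D cmpT Pool.Agent.Q176.SI.reg orb
      exi Pool.Agent.Q277.SI.ram hQ hex hχ j (base_mem j) Ψ.fn hΨ σ)
  · intro h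
    refine q1_of_good D fun χ hex => ?_
    by_cases hχ : ∀ g, χ g = 1
    · exact good_triv orb exi Pool.Agent.Q123.SI.lfn Pool.Agent.Q299.SI.CN0.cn0
        Pool.Agent.Q223.SI.rga Pool.Agent.Q223.SI.rgb Pool.Agent.Q176.SI.rgt D hex hχ
    push Not at hχ
    let j : K →ₐ[F] AlgebraicClosure F := IsAlgClosed.lift
    obtain ⟨ψ, hinf, -⟩ := exists_infl (E := F) (E' := base F) j (base_mem j) χ
    exact good_of_stark (E' := base F) D cmpT orb exi Pool.Agent.Q277.SI.ram hex hχ j (base_mem j)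
      ψ.fn hinf fun σ => level_of_starkEq (h χ hex hχ σ j ψ hinf)

/-- rank one -/
theorem one_iff (D : RankOneData F K) :
    D.Q1 ↔ ∀ χ : (K ≃ₐ[F] K) →* ℂˣ, D.Exact χ → (∃ g, χ g ≠ 1) →
      ∀ σ : ℂ ≃+* ℂ, StarkChar χ σ := one_iff_all D

/-- coefficients in `E` -/
theorem part_iff (D : PartData F K) :
    D.Q1 ↔ ∀ ψ : (K ≃ₐ[F] K) →* ℂˣ, D.Exact ψ → ∀ σ : ℂ ≃+* ℂ,
      (∀ z ∈ D.E, σ z = z) → StarkChar ψ σ := part_iff_all D

/-- mixed signature -/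
theorem mix_iff (D : MixData F K) :
    D.Q1 ↔ ∀ σ : ℂ ≃+* ℂ, (∀ g, σ (cf D.χ g) = cf D.χ g) → StarkChar D.χ σ :=
  mix_q1_iff cmpT Pool.Agent.Q176.SI.reg orb exi Pool.Agent.Q277.SI.ram D

theorem mix_iff_conj (D : MixData F K) : D.Q1Conj ↔ ∀ σ : ℂ ≃+* ℂ, StarkChar D.χ σ :=
  mix_q1conj_iff cmpT Pool.Agent.Q176.SI.reg orb exi Pool.Agent.Q277.SI.ram D

theorem mix_all (hU : UnramifiedCase F) (hM : MinimalCase F) (D : MixData F K) : D.Q1Conj :=
  mix_red cmpT Pool.Agent.Q176.SI.reg orb exi Pool.Agent.Q277.SI.ram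
    Pool.Agent.Q182.SI.auxp Pool.Agent.Q214.SI.ker Pool.Agent.Q123.SI.Unk.unk hU hM
    Pool.Agent.Q123.SI.lfn Pool.Agent.Q299.SI.CN0.cn0 Pool.Agent.Q223.SI.rga
    Pool.Agent.Q223.SI.rgb Pool.Agent.Q123.SI.Nsp.nsp D

end

end Pool.Agent.Q20.SI
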