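import Pool.Agent.Q20.SI.Row4
import Pool.Agent.Q20.SI.Row3p
import Mathlib.GroupTheory.FiniteAbelian.Duality

/-!
# The rational form of the rank one abelian Stark conjecture: proofs
-/

set_option autoImplicit false
set_option linter.unusedSectionVars false

namespace Pool.Agent.Q20.SI

open NumberField IsDedekindDomain Pool.Agent.Q20.RS
open Pool.Agent.Q20.RS.RL (Twister Dihedral StarkEq)
open Pool.Agent.Q20.TR (bt)

/-- the second orthogonality relation -/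
theorem orth2 {G : Type} [CommGroup G] [Fintype G] [DecidableEq G] (g h : G) :
    ∑ χ : G →* ℂˣ, (((χ g : ℂˣ) : ℂ))⁻¹ * ((χ h : ℂˣ) : ℂ) =
      if g = h then (Fintype.card G : ℂ) else 0 := by
  classical
  have : NeZero (Monoid.exponent G) := ⟨Monoid.exponent_ne_zero_of_finite⟩
  by_cases hgh : g = h
  · subst hgh
    rw [if_pos rfl]
    have h1 : ∀ χ : G →* ℂˣ, (((χ g : ℂˣ) : ℂ))⁻¹ * ((χ g : ℂˣ) : ℂ) = 1 := fun χ =>
      inv_mul_cancel₀ (Units.ne_zero _)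
    rw [Finset.sum_congr rfl fun χ _ => h1 χ, Finset.sum_const, nsmul_eq_mul, mul_one,
      Finset.card_univ, ← Nat.card_eq_fintype_card,
      CommGroup.card_monoidHom_of_hasEnoughRootsOfUnity G ℂ, Nat.card_eq_fintype_card]
  · rw [if_neg hgh]
    obtain ⟨φ, hφ⟩ := CommGroup.exists_apply_ne_one_of_hasEnoughRootsOfUnity G ℂ
      (a := g⁻¹ * h) (fun h1 => hgh (inv_mul_eq_one.1 h1))
    let s : ℂ := ∑ χ : G →* ℂˣ, (((χ g : ℂˣ) : ℂ))⁻¹ * ((χ h : ℂˣ) : ℂ)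
    have h2 : ((φ (g⁻¹ * h) : ℂˣ) : ℂ) * s = s := by
      change _ * ∑ χ : G →* ℂˣ, _ = _
      rw [Finset.mul_sum]
      refine Finset.sum_equiv (Equiv.mulLeft φ) (fun _ => by simp) fun χ _ => ?_
      rw [Equiv.coe_mulLeft, MonoidHom.mul_apply, MonoidHom.mul_apply, map_mul, map_inv,
        Units.val_mul, Units.val_mul, Units.val_mul, Units.val_inv_eq_inv_val, mul_inv]
      ring
    have h3 : (((φ (g⁻¹ * h) : ℂˣ) : ℂ) - 1) * s = 0 := by rw [sub_mul, one_mul, h2, sub_self]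
    refine (mul_eq_zero.1 h3).resolve_left fun h4 => hφ (Units.ext ?_)
    rw [Units.val_one]
    exact sub_eq_zero.1 h4

section
variable {F K : Type} [Field F] [NumberField F] [Field K] [NumberField K] [Algebra F K]

/-- the group of units -/
def untG (T : Finset (HeightOneSpectrum (𝓞 K))) : AddSubgroup (Additive Kˣ) where
  carrier := {x | IsUnt T ((x.toMul : Kˣ) : K)}
  zero_mem' := ⟨one_ne_zero, fun _ _ => map_one _⟩
  add_mem' := fun {a b} ha hb => ⟨Units.ne_zero _, fun P hP => by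
    rw [toMul_add, Units.val_mul, map_mul, ha.2 P hP, hb.2 P hP, one_mul]⟩
  neg_mem' := fun {a} ha => ⟨Units.ne_zero _, fun P hP => by
    rw [toMul_neg, Units.val_inv_eq_inv_val, map_inv₀, ha.2 P hP, inv_one]⟩

/-- Fourier inversion -/
theorem inv_four (hc : ∀ a b : K ≃ₐ[F] K, a * b = b * a) (f : (K ≃ₐ[F] K) → ℂ)
    (g : K ≃ₐ[F] K) : f g = (Fintype.card (K ≃ₐ[F] K) : ℂ)⁻¹ *
      ∑ χ : (K ≃ₐ[F] K) →* ℂˣ, (cf χ g)⁻¹ * ∑ h, cf χ h * f h := by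
  classical
  let _ : CommGroup (K ≃ₐ[F] K) := { mul_comm := hc }
  have h1 : ∑ χ : (K ≃ₐ[F] K) →* ℂˣ, (cf χ g)⁻¹ * ∑ h, cf χ h * f h =
      ∑ h, (∑ χ : (K ≃ₐ[F] K) →* ℂˣ, (cf χ g)⁻¹ * cf χ h) * f h := by
    simp only [Finset.mul_sum, Finset.sum_mul]
    rw [Finset.sum_comm]
    refine Finset.sum_congr rfl fun h _ => Finset.sum_congr rfl fun χ _ => ?_
    ring
  have h2 : ∀ h, (∑ χ : (K ≃ₐ[F] K) →* ℂˣ, (cf χ g)⁻¹ * cf χ h) =
      if g = h then (Fintype.card (K ≃ₐ[F] K) : ℂ) else 0 := fun h => orth2 g h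
  rw [h1]
  simp only [h2, ite_mul, zero_mul]
  rw [Finset.sum_ite_eq, if_pos (Finset.mem_univ _)]
  have hG : (Fintype.card (K ≃ₐ[F] K) : ℂ) ≠ 0 := by exact_mod_cast Fintype.card_ne_zero
  field_simp

/-- the trivial character -/
theorem triv_units [IsGalois F K] (hORB : S_ORB) (hEXI : S_EXI) (hLFN : S_LFN) (hCN0 : S_CN0)
    (hRGA : S_RGA) (hRGB : S_RGB) (hRGT : S_RGT) {S : Finset (HeightOneSpectrum (𝓞 F))}
    (hram : ∀ p : HeightOneSpectrum (𝓞 F), ¬ Unrm K p → p ∈ S) {ι : Type} [Fintype ι]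
    [DecidableEq ι] (w : ι → Pl K) (v₀ : Pl K) (h0 : InPl (abv K S) v₀)
    (hw : ∀ i, InPl (abv K S) (w i)) (hn : ∀ i, ∀ g : K ≃ₐ[F] K, pact g (w i) ≠ v₀)
    (hd : ∀ (i j : ι) (g : K ≃ₐ[F] K), pact g (w i) = w j → i = j)
    (hc : ∀ v, InPl (abv K S) v → (∃ g : K ≃ₐ[F] K, pact g v₀ = v) ∨
      ∃ i, ∃ g : K ≃ₐ[F] K, pact g (w i) = v) :
    ∃ (α : ι → K) (q : ℚ), (∀ i, IsUnt (abv K S) (α i)) ∧
      (ellM (1 : (K ≃ₐ[F] K) →* ℂˣ) α w).det ≠ 0 ∧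
      (ellM (1 : (K ≃ₐ[F] K) →* ℂˣ) α w).det / lead S (1 : (K ≃ₐ[F] K) →* ℂˣ) = (q : ℂ) := by
  classical
  have hT := stable_abv hORB (K := K) S
  have hR := ram_abv hORB hram
  obtain ⟨θ⟩ := hEXI F K (abv K S) hT
  obtain ⟨q, α, hq, hα, hreg⟩ := hRGT F K (abv K S) hT θ ι w v₀ h0 hw hn hd hc
  obtain ⟨q₁, hq₁, h1⟩ := triv_lead (M := K) hORB hLFN hCN0 hT hR
    (χ := cf (1 : (K ≃ₐ[F] K) →* ℂˣ)) (fun _ => rfl)
  obtain ⟨q₂, hq₂, h2⟩ := triv_reg hORB hEXI hRGA hRGB θ 1 (linRep 1) (linRep_char _)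
  have h3 := hreg 1 (linRep 1) (linRep_char _)
  rw [h2] at h3
  have hn := reg_log_ne (E := F) (S := (abv K S).image fun P => P.under (𝓞 F))
  have hqc : (q : ℂ) ≠ 0 := by exact_mod_cast hq
  have hq1c : (q₁ : ℂ) ≠ 0 := by exact_mod_cast hq₁
  have hq2c : (q₂ : ℂ) ≠ 0 := by exact_mod_cast hq₂
  refine ⟨α, q₂ / q / q₁, hα, fun h0 => ?_, ?_⟩
  · rw [h0, mul_zero, mul_assoc] at h3
    exact mul_ne_zero hq2c hn h3
  · unfold lead
    rw [h1]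
    rw [mul_assoc] at h3 ⊢
    rw [div_eq_iff (mul_ne_zero hq1c hn)]
    have h4 : (ellM (1 : (K ≃ₐ[F] K) →* ℂˣ) α w).det = (q₂ : ℂ) / q *
        (((Units.regulator F : ℝ) : ℂ) * ∏ v ∈ (abv K S).image fun P => P.under (𝓞 F),
          ((Real.log (Ideal.absNorm v.asIdeal) : ℝ) : ℂ)) := by
      field_simp
      linear_combination -h3
    rw [h4]
    push_cast
    field_simp

variable (D : RankOneData F K)

/-- Stark's equalities for `χ` in terms of one unit -/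
def OneGood (χ : (K ≃ₐ[F] K) →* ℂˣ) : Prop :=
  ∃ α : K, IsUnt (abv K D.S) α ∧ (∀ σ : ℂ ≃+* ℂ, ell (cj σ χ) α D.v ≠ 0) ∧
    ∀ σ : ℂ ≃+* ℂ, σ (ell χ α D.v / lead D.S χ) = ell (cj σ χ) α D.v / lead D.S (cj σ χ)

theorem one_lead [IsGalois F K] (χ : (K ≃ₐ[F] K) →* ℂˣ) : lead D.S χ ≠ 0 :=
  leading_ne (lin_mem _ _)

theorem one_exact {χ χ' : (K ≃ₐ[F] K) →* ℂˣ} (h : ∀ g, χ' g = 1 ↔ χ g = 1) :
    D.Exact χ' ↔ D.Exact χ := by
  have h1 : ∀ v : Pl K, Triv χ' v ↔ Triv χ v := fun v =>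
    ⟨fun h2 g hg => (h g).1 (h2 g hg), fun h2 g hg => (h g).2 (h2 g hg)⟩
  unfold RankOneData.Exact
  simp only [h1, h, ne_eq]

theorem one_reps {χ : (K ≃ₐ[F] K) →* ℂˣ} (h : D.Exact χ) (hχ : ∃ g, χ g ≠ 1) :
    Reps χ (abv K D.S) (fun _ : Unit => D.v) := by
  obtain ⟨-, h⟩ | ⟨h, -⟩ := h
  · refine ⟨fun _ => D.mem, fun _ g hg => by rw [D.split g hg, map_one], fun v hv ht => ?_,
      fun _ _ _ _ => rfl⟩
    obtain ⟨g, hg⟩ := h v hv ht
    exact ⟨(), g, hg⟩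
  · obtain ⟨g, hg⟩ := hχ
    exact absurd (h g) hg

theorem one_triv [IsGalois F K] (hORB : S_ORB) (hEXI : S_EXI) (hLFN : S_LFN) (hCN0 : S_CN0)
    (hRGA : S_RGA) (hRGB : S_RGB) (hRGT : S_RGT) {χ : (K ≃ₐ[F] K) →* ℂˣ} (hex : D.Exact χ)
    (hχ : ∀ g, χ g = 1) : OneGood D χ := by
  have hT := stable_abv hORB (K := K) D.S
  have hχ1 : χ = 1 := MonoidHom.ext hχ
  subst hχ1
  obtain ⟨⟨g, hg⟩, -⟩ | ⟨-, v₀, hv₀⟩ := hex
  · exact absurd (hχ g) hg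
  obtain ⟨w, hw, hwn⟩ := D.more
  obtain ⟨g₀, hg₀⟩ : ∃ g : K ≃ₐ[F] K, pact g v₀ = w := by
    rcases hv₀ w hw with h | ⟨g, h⟩
    · exact h
    · exact absurd h (hwn g)
  have hv₀' : v₀ = pact g₀⁻¹ w := by
    rw [← hg₀, ← pact_mul, inv_mul_cancel, pact_one]
  have hin : InPl (abv K D.S) v₀ := by
    rw [hv₀']
    exact inPl_pact hT _ hw
  obtain ⟨α, q, hα, h0, hq⟩ := triv_units hORB hEXI hLFN hCN0 hRGA hRGB hRGT D.ram
    (fun _ : Unit => D.v) v₀ hin (fun _ => D.mem)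
    (fun _ g h => hwn (g₀ * g) (by rw [pact_mul, h, hg₀])) (fun _ _ _ _ => rfl)
    (fun v hv => (hv₀ v hv).imp_right fun h => ⟨(), h⟩)
  have hcj : ∀ σ : ℂ ≃+* ℂ, cj σ (1 : (K ≃ₐ[F] K) →* ℂˣ) = 1 := by
    intro σ
    ext g
    exact map_one σ
  rw [Matrix.det_unique] at h0 hq
  change ell 1 (α ()) D.v ≠ 0 at h0
  change ell 1 (α ()) D.v / _ = _ at hq
  refine ⟨α (), hα (), fun σ => ?_, fun σ => ?_⟩
  · rw [hcj]
    exact h0
  · rw [hcj, hq, map_ratCast]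

/-- places above `T` and characters -/
theorem one_ell {χ : (K ≃ₐ[F] K) →* ℂˣ} (hex : D.Exact χ) (hχ : ∃ g, χ g ≠ 1) {w : Pl K}
    (hw : D.InT w) (x : K) : ell χ x w = 0 := by
  refine ell_eq_zero (fun ht => ?_) x
  obtain ⟨-, h⟩ | ⟨h, -⟩ := hex
  · obtain ⟨g, hg⟩ := h w hw.1 ht
    exact hw.2 g hg
  · obtain ⟨g, hg⟩ := hχ
    exact hg (h g)

theorem one_of_good [IsGalois F K] (hORB : S_ORB)
    (h : ∀ χ : (K ≃ₐ[F] K) →* ℂˣ, D.Exact χ → OneGood D χ) : D.Q1 := by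
  classical
  have hT := stable_abv hORB (K := K) D.S
  let X : Type := {χ : (K ≃ₐ[F] K) →* ℂˣ // D.Exact χ}
  have hX : ∀ χ₀ : X, OneGood D χ₀.1 := fun χ₀ => h _ χ₀.2
  choose α hα hdet hst using hX
  have hlead := one_lead D
  -- orbits
  let orb : ((K ≃ₐ[F] K) →* ℂˣ) → Finset ((K ≃ₐ[F] K) →* ℂˣ) := fun χ =>
    Finset.univ.filter fun χ' => ∃ σ : ℂ ≃+* ℂ, χ = cj σ χ'
  have horb : ∀ χ χ', χ' ∈ orb χ ↔ ∃ σ : ℂ ≃+* ℂ, χ = cj σ χ' := fun χ χ' => by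
    rw [Finset.mem_filter]
    exact ⟨fun h => h.2, fun h => ⟨Finset.mem_univ _, h⟩⟩
  have horbc : ∀ (τ : ℂ ≃+* ℂ) χ, orb (cj τ χ) = orb χ := by
    intro τ χ
    ext χ'
    rw [horb, horb]
    constructor
    · rintro ⟨σ, hσ⟩
      exact ⟨σ.trans τ.symm, by rw [← cj_cj, ← hσ, cj_symm]⟩
    · rintro ⟨σ, hσ⟩
      exact ⟨σ.trans τ, by rw [← cj_cj, ← hσ]⟩
  have horb0 : ∀ χ, ((orb χ).card : ℂ) ≠ 0 := by
    intro χ
    have h1 : χ ∈ orb χ := (horb χ χ).2 ⟨RingEquiv.refl ℂ, (cj_refl χ).symm⟩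
    exact_mod_cast (Finset.card_pos.2 ⟨χ, h1⟩).ne'
  have hexo : ∀ χ χ', χ' ∈ orb χ → (D.Exact χ ↔ D.Exact χ') := by
    intro χ χ' h1
    obtain ⟨σ, rfl⟩ := (horb _ _).1 h1
    exact one_exact D (fun g => ker_conj (σ := σ) (fun _ => rfl) g)
  have hder : ∀ χ, D.Exact χ → D.deriv χ = lead D.S χ := fun χ h1 => if_pos h1
  -- the coefficient functions
  let c : X → ((K ≃ₐ[F] K) →* ℂˣ) → ℂ := fun χ₀ χ =>
    if χ₀.1 ∈ orb χ then lead D.S χ / ell χ (α χ₀) D.v / (orb χ).card else 0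
  have hratio : ∀ (χ₀ : X) (σ : ℂ ≃+* ℂ),
      lead D.S (cj σ χ₀.1) / ell (cj σ χ₀.1) (α χ₀) D.v =
        σ ((ell χ₀.1 (α χ₀) D.v / lead D.S χ₀.1)⁻¹) := by
    intro χ₀ σ
    rw [map_inv₀, hst, inv_div]
  have hc : ∀ (χ₀ : X) (τ : ℂ ≃+* ℂ) χ, c χ₀ (cj τ χ) = τ (c χ₀ χ) := by
    intro χ₀ τ χ
    change (if χ₀.1 ∈ orb (cj τ χ) then lead D.S (cj τ χ) / ell (cj τ χ) (α χ₀) D.v /
      (orb (cj τ χ)).card else 0) = τ (if χ₀.1 ∈ orb χ then lead D.S χ /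
        ell χ (α χ₀) D.v / (orb χ).card else 0)
    rw [horbc]
    by_cases h1 : χ₀.1 ∈ orb χ
    · rw [if_pos h1, if_pos h1, map_div₀, map_natCast]
      congr 1
      obtain ⟨σ, rfl⟩ := (horb _ _).1 h1
      rw [cj_cj, hratio χ₀ (σ.trans τ), hratio χ₀ σ]
      rfl
    · rw [if_neg h1, if_neg h1, map_zero]
  choose a ha using fun χ₀ => fourier (c χ₀) (hc χ₀)
  -- the common denominator
  let N : ℕ := ∏ χ₀ : X, ∏ g, (a χ₀ g).den
  have hN : 0 < N := Finset.prod_pos fun χ₀ _ => Finset.prod_pos fun g _ => (a χ₀ g).den_pos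
  have hb : ∀ χ₀ g, ∃ b : ℤ, (b : ℂ) = (N : ℂ) * (a χ₀ g : ℂ) := by
    intro χ₀ g
    obtain ⟨k, hk⟩ : (a χ₀ g).den ∣ N := (Finset.dvd_prod_of_mem (fun g => (a χ₀ g).den)
      (Finset.mem_univ g)).trans (Finset.dvd_prod_of_mem (fun χ₀ : X => ∏ g, (a χ₀ g).den)
        (Finset.mem_univ χ₀))
    refine ⟨(a χ₀ g).num * k, ?_⟩
    have h1 : ((a χ₀ g : ℚ) : ℂ) = ((a χ₀ g).num : ℂ) / ((a χ₀ g).den : ℂ) := by
      exact_mod_cast congrArg (fun z : ℚ => (z : ℂ)) (Rat.num_div_den (a χ₀ g)).symm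
    have h2 : ((a χ₀ g).den : ℂ) ≠ 0 := by exact_mod_cast (a χ₀ g).den_nz
    rw [hk, h1]
    push_cast
    field_simp
  choose b hb using hb
  -- the unit
  let A : X → (K ≃ₐ[F] K) → Kˣ := fun χ₀ g => Units.mk0 (g⁻¹ (α χ₀)) (by simpa using (hα χ₀).1)
  let x : Additive Kˣ := ∑ χ₀ : X, ∑ g, b χ₀ g • Additive.ofMul (A χ₀ g)
  let ε : K := ((x.toMul : Kˣ) : K)
  have hA : ∀ χ₀ g χ w, ell χ ((A χ₀ g : Kˣ) : K) w = cf χ g * ell χ (α χ₀) w := by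
    intro χ₀ g χ w
    have h1 := ell_act χ g⁻¹ (α χ₀) w
    have h2 : cf χ g * cf χ g⁻¹ = 1 := by
      unfold cf
      rw [← Units.val_mul, ← map_mul, mul_inv_cancel, map_one, Units.val_one]
    rw [← h1, ← mul_assoc, h2, one_mul]
    rfl
  have hell : ∀ χ w, ell χ ε w = (N : ℂ) * ∑ χ₀ : X, c χ₀ χ * ell χ (α χ₀) w := by
    intro χ w
    have h1 : ell χ ε w = ellH χ w x := rfl
    rw [h1, map_sum, Finset.mul_sum]
    refine Finset.sum_congr rfl fun χ₀ _ => ?_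
    rw [map_sum, ha χ₀ χ, Finset.sum_mul, Finset.mul_sum]
    refine Finset.sum_congr rfl fun g _ => ?_
    rw [map_zsmul, ellH_apply, hA, zsmul_eq_mul, hb]
    change _ = (N : ℂ) * ((a χ₀ g : ℂ) * cf χ g * ell χ (α χ₀) w)
    ring
  have hnot : ∀ χ, ¬ D.Exact χ → ∀ w, ell χ ε w = 0 := by
    intro χ hχ w
    rw [hell]
    have h1 : ∀ χ₀ : X, c χ₀ χ * ell χ (α χ₀) w = 0 := by
      intro χ₀
      change (if χ₀.1 ∈ orb χ then lead D.S χ / ell χ (α χ₀) D.v / (orb χ).card else 0) * _ = 0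
      rw [if_neg fun h2 => hχ ((hexo _ _ h2).2 χ₀.2), zero_mul]
    rw [Finset.sum_congr rfl fun χ₀ _ => h1 χ₀, Finset.sum_const_zero, mul_zero]
  have hval : ∀ χ, ell χ ε D.v = (N : ℂ) * D.deriv χ := by
    intro χ
    by_cases hχ : D.Exact χ
    · rw [hell, hder χ hχ]
      congr 1
      have h1 : ∀ χ₀ : X, c χ₀ χ * ell χ (α χ₀) D.v =
          if χ₀.1 ∈ orb χ then lead D.S χ / (orb χ).card else 0 := by
        intro χ₀
        change (if χ₀.1 ∈ orb χ then lead D.S χ / ell χ (α χ₀) D.v / (orb χ).card else 0) *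
          ell χ (α χ₀) D.v = _
        split_ifs with h2
        · obtain ⟨σ, rfl⟩ := (horb _ _).1 h2
          have h3 := hdet χ₀ σ
          field_simp
        · rw [zero_mul]
      rw [Finset.sum_congr rfl fun χ₀ _ => h1 χ₀]
      have h2 : ∑ χ₀ : X, (if χ₀.1 ∈ orb χ then lead D.S χ / (orb χ).card else 0) =
          ∑ χ' ∈ orb χ, lead D.S χ / (orb χ).card := by
        rw [← Finset.sum_filter]
        refine Finset.sum_bij (fun χ₀ _ => χ₀.1) ?_ ?_ ?_ ?_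
        · intro χ₀ h3
          exact (Finset.mem_filter.1 h3).2
        · intro a _ b _ h3
          exact Subtype.ext h3
        · intro χ' h3
          exact ⟨⟨χ', (hexo _ _ h3).1 hχ⟩, Finset.mem_filter.2 ⟨Finset.mem_univ _, h3⟩, rfl⟩
        · intro _ _
          rfl
      rw [h2, Finset.sum_const, nsmul_eq_mul]
      have h3 := horb0 χ
      field_simp
    · have h1 : D.deriv χ = 0 := if_neg hχ
      rw [h1, mul_zero]
      exact hnot χ hχ D.v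
  have hx : x ∈ untG (abv K D.S) := by
    refine AddSubgroup.sum_mem _ fun χ₀ _ => AddSubgroup.sum_mem _ fun g _ =>
      AddSubgroup.zsmul_mem _ ?_ _
    exact adicAbv_act hT g⁻¹ (hα χ₀)
  have hfour : ∀ (w : Pl K) (g : K ≃ₐ[F] K), ((logv (g ε) w : ℝ) : ℂ) =
      (Fintype.card (K ≃ₐ[F] K) : ℂ)⁻¹ *
        ∑ χ : (K ≃ₐ[F] K) →* ℂˣ, (cf χ g)⁻¹ * ell χ ε w := fun w g =>
    inv_four D.comm (fun g => ((logv (g ε) w : ℝ) : ℂ)) g
  have hone : ∀ w, D.InT w → ((logv ε w : ℝ) : ℂ) =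
      (Fintype.card (K ≃ₐ[F] K) : ℂ)⁻¹ * ell (1 : (K ≃ₐ[F] K) →* ℂˣ) ε w := by
    intro w hw
    have h1 := hfour w 1
    rw [AlgEquiv.one_apply] at h1
    rw [h1]
    congr 1
    rw [Finset.sum_eq_single (1 : (K ≃ₐ[F] K) →* ℂˣ)]
    · have h2 : (cf (1 : (K ≃ₐ[F] K) →* ℂˣ) 1)⁻¹ = 1 := by
        unfold cf
        rw [MonoidHom.one_apply, Units.val_one, inv_one]
      rw [h2, one_mul]
    · intro χ _ hχ
      have h2 : ∃ g, χ g ≠ 1 := by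
        by_contra hn
        push Not at hn
        exact hχ (MonoidHom.ext hn)
      have h3 : ell χ ε w = 0 := by
        by_cases h4 : D.Exact χ
        · exact one_ell D h4 h2 hw ε
        · exact hnot χ h4 w
      rw [h3, mul_zero]
    · intro h2
      exact absurd (Finset.mem_univ _) h2
  refine ⟨N, ε⁻¹, hN, ⟨⟨inv_ne_zero (Units.ne_zero _), fun P hP => ?_⟩, ?_, ?_⟩, fun g => ?_⟩
  · have h1 : IsUnt (abv K D.S) ε := hx
    rw [map_inv₀, h1.2 P hP, inv_one]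
  · rintro ⟨w₁, w₂, hw₁, hw₂, hne⟩ w hw
    rw [logv_inv, neg_eq_zero]
    have h1 := hone w hw
    have h2 : ¬ D.Exact 1 := by
      rintro (⟨⟨g, hg⟩, -⟩ | ⟨-, w₀, h0⟩)
      · exact hg rfl
      · obtain ⟨g₁, h1⟩ := (h0 w₁ hw₁.1).resolve_right fun ⟨g, h⟩ => hw₁.2 g h
        obtain ⟨g₂, h2⟩ := (h0 w₂ hw₂.1).resolve_right fun ⟨g, h⟩ => hw₂.2 g h
        refine hne (g₂ * g₁⁻¹) ?_
        rw [← h1, ← pact_mul, inv_mul_cancel_right, h2]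
    rw [hnot 1 h2 w, mul_zero] at h1
    exact_mod_cast h1
  · intro w₁ w₂ hw₁ hw₂
    rw [logv_inv, logv_inv, neg_inj]
    have h1 := hone w₁ hw₁
    have h2 := hone w₂ hw₂
    have h3 : ell (1 : (K ≃ₐ[F] K) →* ℂˣ) ε w₁ = ell (1 : (K ≃ₐ[F] K) →* ℂˣ) ε w₂ := by
      by_cases h4 : D.Exact 1
      · rcases h4 with ⟨⟨g, hg⟩, -⟩ | ⟨-, w₀, h0⟩
        · exact absurd rfl hg
        · obtain ⟨g₁, h5⟩ := (h0 w₁ hw₁.1).resolve_right fun ⟨g, h⟩ => hw₁.2 g h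
          obtain ⟨g₂, h6⟩ := (h0 w₂ hw₂.1).resolve_right fun ⟨g, h⟩ => hw₂.2 g h
          rw [← h5, ← h6, ell_pact, ell_pact]
          rfl
      · rw [hnot 1 h4, hnot 1 h4]
    rw [h3, ← h2] at h1
    exact_mod_cast h1
  · have h1 : logv (g ε⁻¹) D.v = - logv (g ε) D.v := by rw [map_inv₀, logv_inv]
    rw [h1]
    push_cast
    rw [hfour D.v g]
    unfold RankOneData.zeta
    simp only [hval]
    rw [Finset.mul_sum, Finset.mul_sum, Finset.mul_sum, ← Finset.sum_neg_distrib]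
    refine Finset.sum_congr rfl fun χ _ => ?_
    ring

/-- **Q1 up to powers is Stark's equality** -/
theorem one_q1_iff (hCMP : S_CMP) (hREG : S_REG) (hORB : S_ORB) (hEXI : S_EXI) (hRAM : S_RAM)
    (hLFN : S_LFN) (hCN0 : S_CN0) (hRGA : S_RGA) (hRGB : S_RGB) (hRGT : S_RGT)
    [IsGalois F K] : D.Q1 ↔ ∀ χ : (K ≃ₐ[F] K) →* ℂˣ, D.Exact χ → (∃ g, χ g ≠ 1) →
      ∀ σ : ℂ ≃+* ℂ, StarkFor χ σ := by
  classical
  have hT := stable_abv hORB (K := K) D.S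
  have hR := ram_abv hORB D.ram
  have hd : ∀ (α : Unit → K) (χ' : (K ≃ₐ[F] K) →* ℂˣ),
      (ellM χ' α (fun _ : Unit => D.v)).det = ell χ' (α ()) D.v := by
    intro α χ'
    rw [Matrix.det_unique]
    rfl
  constructor
  · rintro ⟨m, ε, hm, hε, hQ⟩ χ hex hχ σ j Ψ hΨ
    obtain ⟨α, hα, hdet, hst⟩ := stark_crit hCMP hORB hEXI hRAM D.comm j (base_mem j)
      (abv K D.S) hT hR χ hχ (fun _ : Unit => D.v) (one_reps D hex hχ)
    simp only [hd] at hdet hst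
    refine starkEq_of_level ((hst σ Ψ.fn hΨ).2 fun χ' h' => ?_)
    have n1 := hdet χ fun _ => Iff.rfl
    have n2 := hdet χ' (ker_conj (σ := σ) h')
    obtain ⟨b, hb⟩ := cmp_span hREG hEXI (abv K D.S) hT χ hχ (fun _ : Unit => D.v)
      (one_reps D hex hχ) α hα (by rw [hd]; exact n1) hε.1
    have hb' : ∀ (σ : ℂ ≃+* ℂ) (χ' : (K ≃ₐ[F] K) →* ℂˣ), (∀ g, cf χ' g = σ (cf χ g)) →
        ell χ' ε D.v = σ (b ()) * ell χ' (α ()) D.v := by
      intro σ χ' h'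
      have h1 := hb σ χ' h' ()
      rwa [Fintype.sum_unique] at h1
    have hz : ∀ χ' : (K ≃ₐ[F] K) →* ℂˣ, D.Exact χ' → ell χ' ε D.v = -(m : ℂ) * lead D.S χ' := by
      intro χ' hex'
      have h1 : ell χ' ε D.v = ∑ g, cf χ' g * (-(m : ℂ) * D.zeta g) := by
        unfold ell
        refine Finset.sum_congr rfl fun g _ => ?_
        rw [hQ g]
        rfl
      have hG : (Fintype.card (K ≃ₐ[F] K) : ℂ) ≠ 0 := by exact_mod_cast Fintype.card_ne_zero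
      have h2 : ∀ g, cf χ' g * (-(m : ℂ) * D.zeta g) = -(m : ℂ) *
          ((Fintype.card (K ≃ₐ[F] K) : ℂ)⁻¹ *
            ∑ χ₁ : (K ≃ₐ[F] K) →* ℂˣ, D.deriv χ₁ * (cf χ' g * (cf χ₁ g)⁻¹)) := by
        intro g
        unfold RankOneData.zeta
        have h3 : ∑ χ₁ : (K ≃ₐ[F] K) →* ℂˣ, D.deriv χ₁ * (cf χ' g * (cf χ₁ g)⁻¹) =
            cf χ' g * ∑ χ₁ : (K ≃ₐ[F] K) →* ℂˣ, (cf χ₁ g)⁻¹ * D.deriv χ₁ := by
          rw [Finset.mul_sum]
          refine Finset.sum_congr rfl fun χ₁ _ => ?_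
          ring
        rw [h3]
        ring
      rw [h1, Finset.sum_congr rfl fun g _ => h2 g, ← Finset.mul_sum, ← Finset.mul_sum,
        Finset.sum_comm]
      have h3 : ∀ χ₁ : (K ≃ₐ[F] K) →* ℂˣ, ∑ g, D.deriv χ₁ * (cf χ' g * (cf χ₁ g)⁻¹) =
          if χ' = χ₁ then D.deriv χ₁ * Fintype.card (K ≃ₐ[F] K) else 0 := by
        intro χ₁
        rw [← Finset.mul_sum]
        have h4 : ∑ g, cf χ' g * (cf χ₁ g)⁻¹ =
            if χ' = χ₁ then (Fintype.card (K ≃ₐ[F] K) : ℂ) else 0 := orth χ' χ₁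
        rw [h4]
        split_ifs
        · rfl
        · rw [mul_zero]
      rw [Finset.sum_congr rfl fun χ₁ _ => h3 χ₁, Finset.sum_ite_eq, if_pos (Finset.mem_univ _)]
      have h5 : D.deriv χ' = lead D.S χ' := if_pos hex'
      rw [h5]
      field_simp
    have key : ∀ (σ : ℂ ≃+* ℂ) (χ' : (K ≃ₐ[F] K) →* ℂˣ), (∀ g, cf χ' g = σ (cf χ g)) →
        ell χ' (α ()) D.v ≠ 0 → ell χ' (α ()) D.v / lead D.S χ' = -(m : ℂ) / σ (b ()) := by
      intro σ χ' h' h3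
      have h1 := hz χ' ((one_exact D (ker_conj (σ := σ) h')).2 hex)
      rw [hb' σ χ' h'] at h1
      have h4 := one_lead D χ'
      have h5 : (m : ℂ) ≠ 0 := by exact_mod_cast hm.ne'
      have h6 : σ (b ()) ≠ 0 := by
        intro h7
        rw [h7, zero_mul] at h1
        exact mul_ne_zero (neg_ne_zero.2 h5) h4 h1.symm
      rw [div_eq_div_iff h4 h6, mul_comm]
      exact h1
    have h1 := key (RingEquiv.refl ℂ) χ (fun _ => rfl) n1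
    have h2 := key σ χ' h' n2
    change σ (ell χ (α ()) D.v / lead D.S χ) = ell χ' (α ()) D.v / lead D.S χ'
    rw [h1, h2, map_div₀, map_neg, map_natCast]
    rfl
  · intro h
    refine one_of_good D hORB fun χ hex => ?_
    by_cases hχ : ∀ g, χ g = 1
    · exact one_triv D hORB hEXI hLFN hCN0 hRGA hRGB hRGT hex hχ
    push Not at hχ
    let j : K →ₐ[F] AlgebraicClosure F := IsAlgClosed.lift
    obtain ⟨Ψ, hinf, -⟩ := exists_infl (E := F) (E' := base F) j (base_mem j) χ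
    obtain ⟨α, hα, hdet, hst⟩ := stark_crit hCMP hORB hEXI hRAM D.comm j (base_mem j)
      (abv K D.S) hT hR χ hχ (fun _ : Unit => D.v) (one_reps D hex hχ)
    simp only [hd] at hdet hst
    exact ⟨α (), hα (), fun σ => hdet _ (fun g => ker_conj (σ := σ) (fun _ => rfl) g), fun σ =>
      (hst σ Ψ.fn hinf).1 (level_of_starkEq (h χ hex hχ σ j Ψ hinf)) (cj σ χ) fun _ => rfl⟩

/-- the reduction to the unramified case and the minimal case -/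
theorem one_red (hCMP : S_CMP) (hREG : S_REG) (hORB : S_ORB) (hEXI : S_EXI)
    (hRAM : S_RAM) (hAUX : S_AUX) (hKER : S_KER) (hUNK : S_UNK) (hU : UnramifiedCase F)
    (hM : MinimalCase F) (hLFN : S_LFN) (hCN0 : S_CN0) (hRGA : S_RGA) (hRGB : S_RGB)
    (hRGT : S_RGT) (hNSP : S_NSP) [IsGalois F K] : D.Q1 :=
  (one_q1_iff D hCMP hREG hORB hEXI hRAM hLFN hCN0 hRGA hRGB hRGT).2 fun _ _ _ σ j _ hΨ =>
    all_starkEq hCMP hREG hORB hEXI hRAM hAUX hKER hUNK hU hM hLFN hCN0 hRGA hRGB hNSP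
      (smooth_of_infl j hΨ) σ

end

end Pool.Agent.Q20.SI
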