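import Pool.Agent.Q20.SI.All
import Pool.Agent.Q20.SI.Row1q
import Pool.Agent.Q20.SI.Row4p
import Pool.Agent.Q277.SI.Ram
import Pool.Agent.Q182.SI.Aux182
import Pool.Agent.Q123.SI.Nsp
import Pool.Agent.Q123.SI.Unk
import Pool.Agent.Q299.SI.CN0
import Pool.Agent.Q223.SI.Rgb
import Pool.Agent.Q176.SI.Rgt
import Pool.Agent.Q214.SI.Kerf

/-!
# Stark's rational conjecture: the theorems
-/

set_option autoImplicit false
set_option linter.unusedSectionVars false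

namespace Pool.Agent.Q20.SI

open NumberField IsDedekindDomain Pool.Agent.Q20.RS
open Pool.Agent.Q20.RS.RL (Twister Dihedral StarkEq)

/-- Stark's equality for all linear characters of `Gal(F̄/F)` -/
theorem stark_all {F : Type} [Field F] [NumberField F] (hU : UnramifiedCase F)
    (hM : MinimalCase F) {ψ : RL.Lin (base F)} (hψ : ψ.smooth) (σ : ℂ ≃+* ℂ) : StarkEq ψ.fn σ :=
  all_starkEq cmpT Pool.Agent.Q176.SI.reg orb exi Pool.Agent.Q277.SI.ram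
    Pool.Agent.Q182.SI.auxp Pool.Agent.Q214.SI.ker Pool.Agent.Q123.SI.Unk.unk hU hM
    Pool.Agent.Q123.SI.lfn Pool.Agent.Q299.SI.CN0.cn0 Pool.Agent.Q223.SI.rga
    Pool.Agent.Q223.SI.rgb Pool.Agent.Q123.SI.Nsp.nsp hψ σ

/-- order `r` -/
theorem order_all {F : Type} [Field F] [NumberField F] (hU : UnramifiedCase F)
    (hM : MinimalCase F) {K : Type} [Field K] [NumberField K] [Algebra F K] [IsGalois F K]
    (D : OrderData F K) : D.Q1 :=
  order_main cmpT Pool.Agent.Q176.SI.reg orb exi Pool.Agent.Q277.SI.ram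
    Pool.Agent.Q123.SI.lfn Pool.Agent.Q299.SI.CN0.cn0 Pool.Agent.Q223.SI.rga
    Pool.Agent.Q223.SI.rgb Pool.Agent.Q176.SI.rgt Pool.Agent.Q123.SI.Nsp.nsp
    Pool.Agent.Q182.SI.auxp Pool.Agent.Q214.SI.ker Pool.Agent.Q123.SI.Unk.unk hU hM D

/-- mixed signature -/
theorem mixed_all {F : Type} [Field F] [NumberField F] (D : MixedData F) :
    ∃ η : RL.Lin (base F), Twister D.psi η ∧ (D.psi.mul η).parity (-1) ∧
      ∃ d : Dihedral D.psi η,
        (D.Q1 ↔ ∀ σ : ℂ ≃+* ℂ, (∀ g, σ (cf D.χ g) = cf D.χ g) → Balanced d σ) ∧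
        (D.Q1Conj ↔ ∀ σ : ℂ ≃+* ℂ, Balanced d σ) :=
  mixed_main cmpT Pool.Agent.Q176.SI.reg orb exi Pool.Agent.Q277.SI.ram D

theorem mixed_red_all {F : Type} [Field F] [NumberField F] (hU : UnramifiedCase F)
    (hM : MinimalCase F) (D : MixedData F) : D.Q1Conj :=
  mixed_red cmpT Pool.Agent.Q176.SI.reg orb exi Pool.Agent.Q277.SI.ram
    Pool.Agent.Q182.SI.auxp Pool.Agent.Q214.SI.ker Pool.Agent.Q123.SI.Unk.unk hU hM
    Pool.Agent.Q123.SI.lfn Pool.Agent.Q299.SI.CN0.cn0 Pool.Agent.Q223.SI.rga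
    Pool.Agent.Q223.SI.rgb Pool.Agent.Q123.SI.Nsp.nsp D

/-- coefficients in `E` -/
theorem part_iff_all {F K : Type} [Field F] [NumberField F] [Field K] [NumberField K]
    [Algebra F K] [IsGalois F K] (D : PartData F K) :
    D.Q1 ↔ ∀ ψ : (K ≃ₐ[F] K) →* ℂˣ, D.Exact ψ → ∀ σ : ℂ ≃+* ℂ,
      (∀ z ∈ D.E, σ z = z) → StarkFor ψ σ :=
  part_q1_iff D cmpT Pool.Agent.Q176.SI.reg orb exi Pool.Agent.Q277.SI.ram

theorem part_red_all {F K : Type} [Field F] [NumberField F] [Field K] [NumberField K]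
    [Algebra F K] [IsGalois F K] (hU : UnramifiedCase F) (hM : MinimalCase F)
    (D : PartData F K) : D.Q1 :=
  part_red D cmpT Pool.Agent.Q176.SI.reg orb exi Pool.Agent.Q277.SI.ram
    Pool.Agent.Q182.SI.auxp Pool.Agent.Q214.SI.ker Pool.Agent.Q123.SI.Unk.unk hU hM
    Pool.Agent.Q123.SI.lfn Pool.Agent.Q299.SI.CN0.cn0 Pool.Agent.Q223.SI.rga
    Pool.Agent.Q223.SI.rgb Pool.Agent.Q123.SI.Nsp.nsp

/-- rank one -/
theorem one_iff_all {F K : Type} [Field F] [NumberField F] [Field K] [NumberField K]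
    [Algebra F K] [IsGalois F K] (D : RankOneData F K) :
    D.Q1 ↔ ∀ χ : (K ≃ₐ[F] K) →* ℂˣ, D.Exact χ → (∃ g, χ g ≠ 1) →
      ∀ σ : ℂ ≃+* ℂ, StarkFor χ σ :=
  one_q1_iff D cmpT Pool.Agent.Q176.SI.reg orb exi Pool.Agent.Q277.SI.ram
    Pool.Agent.Q123.SI.lfn Pool.Agent.Q299.SI.CN0.cn0 Pool.Agent.Q223.SI.rga
    Pool.Agent.Q223.SI.rgb Pool.Agent.Q176.SI.rgt

theorem one_red_all {F K : Type} [Field F] [NumberField F] [Field K] [NumberField K]
    [Algebra F K] [IsGalois F K] (hU : UnramifiedCase F) (hM : MinimalCase F)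
    (D : RankOneData F K) : D.Q1 :=
  one_red D cmpT Pool.Agent.Q176.SI.reg orb exi Pool.Agent.Q277.SI.ram
    Pool.Agent.Q182.SI.auxp Pool.Agent.Q214.SI.ker Pool.Agent.Q123.SI.Unk.unk hU hM
    Pool.Agent.Q123.SI.lfn Pool.Agent.Q299.SI.CN0.cn0 Pool.Agent.Q223.SI.rga
    Pool.Agent.Q223.SI.rgb Pool.Agent.Q176.SI.rgt Pool.Agent.Q123.SI.Nsp.nsp

end Pool.Agent.Q20.SI
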