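import Pool.Agent.Q20.SI.Umd

/-!
# Primes above given primes, and leading coefficients
-/

set_option autoImplicit false
set_option linter.unusedSectionVars false

namespace Pool.Agent.Q20.SI

open NumberField IsDedekindDomain Pool.Agent.Q20.RS

section
variable {F : Type} [Field F] [NumberField F]

open scoped Classical in
/-- the primes of `K` above the primes in `S` -/
noncomputable def abv (K : Type) [Field K] [NumberField K] [Algebra F K]
    (S : Finset (HeightOneSpectrum (𝓞 F))) : Finset (HeightOneSpectrum (𝓞 K)) :=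
  S.biUnion fun p => Pool.Agent.Q5.BR.above K p

/-- `L_S^*(χ, 0)`: the leading coefficient at `s = 0` of the Artin L-function without the Euler
factors at the primes in `S` -/
noncomputable def lead {K : Type} [Field K] [NumberField K] [Algebra F K]
    (S : Finset (HeightOneSpectrum (𝓞 F))) (χ : (K ≃ₐ[F] K) →* ℂˣ) : ℂ :=
  leading (abv K S) (cf χ)

theorem mem_abv {K : Type} [Field K] [NumberField K] [Algebra F K]
    {S : Finset (HeightOneSpectrum (𝓞 F))} {P : HeightOneSpectrum (𝓞 K)} :
    P ∈ abv K S ↔ P.under (𝓞 F) ∈ S := by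
  classical
  unfold abv
  rw [Finset.mem_biUnion]
  constructor
  · rintro ⟨p, hp, h⟩
    rwa [Pool.Agent.Q5.BR.mem_above.1 h]
  · intro h
    exact ⟨_, h, Pool.Agent.Q5.BR.mem_above.2 rfl⟩

theorem stable_abv (hORB : S_ORB) {K : Type} [Field K] [NumberField K] [Algebra F K] [IsGalois F K]
    (S : Finset (HeightOneSpectrum (𝓞 F))) : Stable F (abv K S) := by
  intro g P hP
  rw [mem_abv] at hP ⊢
  rwa [under_pra hORB]

theorem ram_abv (hORB : S_ORB) {K : Type} [Field K] [NumberField K] [Algebra F K] [IsGalois F K]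
    {S : Finset (HeightOneSpectrum (𝓞 F))} (h : ∀ p : HeightOneSpectrum (𝓞 F), ¬ Unrm K p → p ∈ S) :
    ContainsRamified F (abv K S) := by
  intro p hp
  obtain ⟨P, hP⟩ := (hORB F F K).1 (.inl p)
  rcases P with P | P
  · have h4 : P.under (𝓞 F) = p := Sum.inl_injective hP
    exact ⟨P, mem_abv.2 (h4 ▸ h p hp), h4⟩
  · exact absurd hP (by simp [dn])

end

end Pool.Agent.Q20.SI
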