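import Pool.Agent.Q20.SI.Cmp4

/-!
# Stark's equality for linear characters of abelian extensions of the base field
-/

set_option autoImplicit false
set_option linter.unusedSectionVars false

namespace Pool.Agent.Q20.SI

open NumberField IsDedekindDomain Pool.Agent.Q20.RS Pool.Agent.Q92.AR
open Pool.Agent.Q20.TR (bt)
open Pool.Agent.Q5.BR (above mem_above)

section
variable {K : Type} [Field K] [NumberField K]

/-- the primes of `N` which are ramified over `K` or lie above the given primes of `K` -/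
theorem exists_primes {N : Type} [Field N] [NumberField N] [Algebra K N] [IsGalois K N]
    (S : Set (HeightOneSpectrum (𝓞 K))) (hS : S.Finite) :
    ∃ T' : Finset (HeightOneSpectrum (𝓞 N)),
      ∀ P : HeightOneSpectrum (𝓞 N), P ∈ T' ↔ (¬ Unrm N (P.under (𝓞 K)) ∨ P.under (𝓞 K) ∈ S) := by
  classical
  have h1 : {v : HeightOneSpectrum (𝓞 K) | ¬ Unrm N v ∨ v ∈ S}.Finite :=
    ((ramified_finite (K := K) (M := N)).union hS).subset fun v hv => hv
  have h2 : {P : HeightOneSpectrum (𝓞 N) | ¬ Unrm N (P.under (𝓞 K)) ∨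
      P.under (𝓞 K) ∈ S}.Finite := by
    have h3 : {P : HeightOneSpectrum (𝓞 N) | ¬ Unrm N (P.under (𝓞 K)) ∨ P.under (𝓞 K) ∈ S} ⊆
        ⋃ v ∈ h1.toFinset, {P | P.under (𝓞 K) = v} := by
      intro P hP
      simp only [Set.mem_iUnion]
      exact ⟨P.under (𝓞 K), h1.mem_toFinset.2 hP, rfl⟩
    refine Set.Finite.subset (Set.Finite.biUnion (Finset.finite_toSet _) fun v _ => ?_) h3
    have h4 : {P : HeightOneSpectrum (𝓞 N) | P.under (𝓞 K) = v} ⊆ (above N v : Set _) := by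
      intro P hP
      exact Finset.mem_coe.2 (mem_above.2 hP)
    exact (Finset.finite_toSet _).subset h4
  exact ⟨h2.toFinset, fun P => h2.mem_toFinset⟩

/-- a large level containing given primes -/
theorem exists_level (hORB : S_ORB) (hEXI : S_EXI)
    (N₀ M : IntermediateField K (AlgebraicClosure K)) [FiniteDimensional K N₀]
    [FiniteDimensional K M] [Normal K M] (T : Finset (HeightOneSpectrum (𝓞 M))) :
    ∃ (ℓ : Level K) (_ : Algebra M ℓ.N) (_ : IsScalarTower K M ℓ.N), N₀ ≤ ℓ.N ∧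
      (∀ x : M, ((algebraMap M ℓ.N x : ℓ.N) : AlgebraicClosure K) = (x : AlgebraicClosure K)) ∧
      ∀ P : HeightOneSpectrum (𝓞 ℓ.N), P.under (𝓞 M) ∈ T → P ∈ ℓ.T := by
  classical
  let N₁ : IntermediateField K (AlgebraicClosure K) := N₀ ⊔ M
  have h1 : FiniteDimensional K N₁ := IntermediateField.finiteDimensional_sup N₀ M
  let N : IntermediateField K (AlgebraicClosure K) :=
    IntermediateField.normalClosure K N₁ (AlgebraicClosure K)
  have hle : N₁ ≤ N := IntermediateField.le_normalClosure N₁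
  have h2 : FiniteDimensional K N := normalClosure.is_finiteDimensional K N₁ (AlgebraicClosure K)
  have h3 : Normal K N := normalClosure.normal K N₁ (AlgebraicClosure K)
  have hMN : M ≤ N := le_sup_right.trans hle
  let A : Algebra M N := (IntermediateField.inclusion hMN).toRingHom.toAlgebra
  have hA : IsScalarTower K M N := IsScalarTower.of_algebraMap_eq fun x => rfl
  let S : Set (HeightOneSpectrum (𝓞 K)) := (T.image fun P => P.under (𝓞 K) : Finset _)
  obtain ⟨T', hT'⟩ := exists_primes (K := K) (N := N) S (Finset.finite_toSet _)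
  have hst : Stable K T' := by
    intro g P hP
    rw [hT'] at hP ⊢
    rwa [under_pra hORB]
  have hra : ContainsRamified K T' := by
    intro v hv
    obtain ⟨P, hP⟩ := (hORB K K N).1 (.inl v)
    rcases P with P | P
    · have h4 : P.under (𝓞 K) = v := Sum.inl_injective hP
      exact ⟨P, (hT' P).2 (Or.inl (h4 ▸ hv)), h4⟩
    · exact absurd hP (by simp [dn])
  obtain ⟨θ⟩ := hEXI K N T' hst
  refine ⟨⟨N, T', hst, hra, θ⟩, A, hA, le_sup_left.trans hle, fun x => rfl, fun P hP => ?_⟩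
  refine (hT' P).2 (Or.inr ?_)
  refine Finset.mem_coe.2 (Finset.mem_image.2 ⟨_, hP, ?_⟩)
  exact under_under (K := K) (F := M) P

/-- **Stark's equality** for a linear character of an abelian extension `M/K` in terms of the
extension itself -/
theorem stark_self (hCMP : S_CMP) (hORB : S_ORB) (hEXI : S_EXI)
    (M : IntermediateField K (AlgebraicClosure K)) [FiniteDimensional K M] [Normal K M]
    (hc : ∀ a b : M ≃ₐ[K] M, a * b = b * a) (T : Finset (HeightOneSpectrum (𝓞 M)))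
    (hT : Stable K T) (hR : ContainsRamified K T) (χ : (M ≃ₐ[K] M) →* ℂˣ) (hχ : ∃ g, χ g ≠ 1)
    {ι : Type} [Fintype ι] [DecidableEq ι] (w : ι → Pl M) (hw : Reps χ T w) :
    ∃ α : ι → M, (∀ i, IsUnt T (α i)) ∧
      (∀ χ' : (M ≃ₐ[K] M) →* ℂˣ, (∀ g, χ' g = 1 ↔ χ g = 1) → (ellM χ' α w).det ≠ 0) ∧
      ∀ (σ : ℂ ≃+* ℂ), (∃ N₀ : IntermediateField K (AlgebraicClosure K), FiniteDimensional K N₀ ∧
        ∀ ℓ : Level K, N₀ ≤ ℓ.N → σ (ℓ.A (F₀ := bt K) fun g => ((infl M χ g : ℂˣ) : ℂ)) =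
          ℓ.A (F₀ := bt K) fun g => σ ((infl M χ g : ℂˣ) : ℂ)) →
      ∀ χ' : (M ≃ₐ[K] M) →* ℂˣ, (∀ g, cf χ' g = σ (cf χ g)) →
        σ ((ellM χ α w).det / leading T (cf χ)) = (ellM χ' α w).det / leading T (cf χ') := by
  obtain ⟨α, hα, hdet, h⟩ := hCMP K M hc T hT hR χ hχ ι w hw
  refine ⟨α, hα, hdet, ?_⟩
  rintro σ ⟨N₀, hN₀, hσ⟩ χ' h'
  obtain ⟨ℓ, _, _, hle, hMN, hTT⟩ := exists_level hORB hEXI N₀ M T
  obtain ⟨e, he, h1⟩ := h ℓ.N ℓ.T ℓ.stable ℓ.ram hTT ℓ.θ
  have h2 := h1 (RingEquiv.refl ℂ) χ (fun _ => rfl) 1 (linRep (up ℓ.N χ)) (linRep_char _)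
  have h3 := h1 σ χ' h' 1 (linRep (up ℓ.N χ')) (linRep_char _)
  rw [← A_up ℓ hMN χ _ (linRep_char _)] at h2
  rw [← A_up ℓ hMN χ' _ (linRep_char _)] at h3
  have h4 := hσ ℓ hle
  have h5 : (fun g : (bt K).fixingSubgroup => σ ((infl M χ g : ℂˣ) : ℂ)) =
      fun g => ((infl M χ' g : ℂˣ) : ℂ) := by
    funext g
    exact (h' _).symm
  rw [h5, h2, h3] at h4
  have h6 : σ e ≠ 0 := (map_ne_zero σ).2 he
  change σ (e * (ellM χ α w).det / leading T (cf χ)) = _ at h4
  rw [mul_div_assoc, map_mul, mul_div_assoc] at h4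
  exact mul_left_cancel₀ h6 h4

end

end Pool.Agent.Q20.SI
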