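import Pool.Agent.Q20.SI.Cmp4
import Pool.Agent.Q20.SI.Red
import Pool.Agent.Q176.SI.Reg
import Pool.Agent.Q123.SI.Lfn
import Pool.Agent.Q65.SI.Rps
import Pool.Agent.Q190.SI.Nrm
import Pool.Agent.Q26.SI.Abs
import Pool.Agent.Q26.SI.Mat
import Pool.Agent.Q26.SI.Fro
import Pool.Agent.Q259.SI.Tun
import Pool.Agent.Q252.SI.Exi

namespace Pool.Agent.Q20.SI

theorem orb : S_ORB := Pool.Agent.Q65.SI.orb

theorem exi : S_EXI := Pool.Agent.Q252.SI.exi Pool.Agent.Q259.SI.tun Pool.Agent.Q252.SI.dno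

theorem cmpT : S_CMP :=
  cmp Pool.Agent.Q176.SI.reg Pool.Agent.Q123.SI.lfn orb (Pool.Agent.Q65.SI.rps orb)
    Pool.Agent.Q190.SI.nrm Pool.Agent.Q26.SI.absl Pool.Agent.Q26.SI.mat exi Pool.Agent.Q26.SI.fro

end Pool.Agent.Q20.SI

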