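import Pool.Agent.Q20.SI.Stm
import Pool.Agent.Q20.TW.Stp

/-!
# Stark's numbers of linear characters of finite extensions of the base field
-/

set_option autoImplicit false
set_option linter.unusedSectionVars false

namespace Pool.Agent.Q20.SI

open NumberField IsDedekindDomain Pool.Agent.Q20.RS Pool.Agent.Q92.AR
open Pool.Agent.Q246.BI (Smooth IsCharacter induced)
open Pool.Agent.Q20.TR (bt)

section
variable {K : Type} [Field K] [NumberField K]

theorem indj_bij {H Γ : Type} [Group H] [Fintype H] [Group Γ] [Fintype Γ] (j : H →* Γ)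
    (hj : Function.Bijective j) (f : Γ → ℂ) (hf : ∀ x y, f (x⁻¹ * y * x) = f y) :
    indj j (fun h => f (j h)) = f := by
  classical
  funext g
  unfold indj
  have h1 : ∀ x : Γ, (∑ h : H, if j h = x⁻¹ * g * x then f (j h) else 0) = f g := by
    intro x
    obtain ⟨h0, hh0⟩ := hj.2 (x⁻¹ * g * x)
    rw [Finset.sum_eq_single h0]
    · rw [if_pos hh0, hh0, hf]
    · intro b _ hb
      rw [if_neg fun h => hb (hj.1 (h.trans hh0.symm))]
    · intro h
      exact absurd (Finset.mem_univ _) h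
  rw [Finset.sum_congr rfl fun x _ => h1 x, Finset.sum_const, Finset.card_univ, nsmul_eq_mul,
    ← Nat.card_eq_fintype_card, ← Nat.card_eq_of_bijective j hj, ← mul_assoc, inv_mul_cancel₀, one_mul]
  exact_mod_cast Nat.card_pos.ne'

/-- Stark's number at the level `K` -/
theorem starkA_val_self {N : Type} [Field N] [NumberField N] [Algebra K N] [IsGalois K N]
    {T : Finset (HeightOneSpectrum (𝓞 N))} {hT : Stable K T} (hR : ContainsRamified K T)
    (θ : StarkMap hT) {U : Type} [AddCommGroup U] [Module ℂ U] [FiniteDimensional ℂ U]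
    (ρ : Representation ℂ (N ≃ₐ[K] N) U) : ∃ h : ρ.character ∈ PP θ,
      starkA θ ρ = val θ ⟨_, h⟩ := by
  obtain ⟨h, e⟩ := starkA_val (K := K) (F := K) hR θ hT ρ
  have h1 : indj (rsc K K N) ρ.character = ρ.character := by
    have h2 : (rsc K K N) = MonoidHom.id _ := by
      ext y x
      rfl
    rw [h2]
    exact indj_bij (MonoidHom.id (N ≃ₐ[K] N)) Function.bijective_id ρ.character (char_conj' ρ)
  have h3 : starkA (θ.res (F := K) hT) ρ = starkA θ ρ := by
    unfold starkA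
    congr 1
  refine ⟨h1 ▸ h, ?_⟩
  rw [← h3, e]
  congr 1
  exact Subtype.ext h1

/-- the inflation of a linear character of `Gal(M/K)` to `Gal(K̄/K)` -/
noncomputable def infl (M : IntermediateField K (AlgebraicClosure K)) [Normal K M] (χ : (M ≃ₐ[K] M) →* ℂˣ) :
    (bt K).fixingSubgroup →* ℂˣ :=
  (χ.comp (AlgEquiv.restrictNormalHom M)).comp (bt K).fixingSubgroup.subtype

theorem up_rN {M N : IntermediateField K (AlgebraicClosure K)} [FiniteDimensional K M] [Normal K M] [FiniteDimensional K N] [Normal K N]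
    [Algebra M N] [IsScalarTower K M N]
    (hMN : ∀ x : M, ((algebraMap M N x : N) : AlgebraicClosure K) = (x : AlgebraicClosure K))
    (χ : (M ≃ₐ[K] M) →* ℂˣ) (g : (bt K).fixingSubgroup) :
    up N χ (rN N g) = infl M χ g := by
  change χ (AlgEquiv.restrictNormalHom M (rN N g)) =
    χ (AlgEquiv.restrictNormalHom M (g : Gal(AlgebraicClosure K/K)))
  congr 1
  ext x
  have h1 : algebraMap M N ((AlgEquiv.restrictNormalHom M (rN N g)) x) = rN N g (algebraMap M N x) :=
    AlgEquiv.restrictNormal_commutes (rN N g) M x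
  have h2 : (((AlgEquiv.restrictNormalHom M (g : Gal(AlgebraicClosure K/K))) x : M) :
      AlgebraicClosure K) = (g : Gal(AlgebraicClosure K/K)) (x : AlgebraicClosure K) :=
    AlgEquiv.restrictNormal_commutes (g : Gal(AlgebraicClosure K/K)) M x
  have h3 := hMN ((AlgEquiv.restrictNormalHom M (rN N g)) x)
  rw [h1, rN_apply, hMN] at h3
  exact h3.symm.trans h2.symm

theorem A_up (ℓ : Level K) {M : IntermediateField K (AlgebraicClosure K)} [FiniteDimensional K M] [Normal K M]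
    [Algebra M ℓ.N] [IsScalarTower K M ℓ.N]
    (hMN : ∀ x : M, ((algebraMap M ℓ.N x : ℓ.N) : AlgebraicClosure K) = (x : AlgebraicClosure K))
    (χ : (M ≃ₐ[K] M) →* ℂˣ) {n : ℕ} (ρ : Representation ℂ (ℓ.N ≃ₐ[K] ℓ.N) (Fin n → ℂ))
    (hρ : ∀ g, ρ.character g = cf (up ℓ.N χ) g) :
    ℓ.A (F₀ := bt K) (fun g => ((infl M χ g : ℂˣ) : ℂ)) = starkA ℓ.θ ρ := by
  classical
  have hle : bt K ≤ ℓ.N := bot_le
  let ρ' : Representation ℂ (ℓ.N ≃ₐ[sb ℓ.N (bt K)] ℓ.N) (Fin n → ℂ) :=
    MonoidHom.comp ρ (rsc K (sb ℓ.N (bt K)) ℓ.N)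
  have hch : ρ'.character = fun y => ρ.character (rsc K (sb ℓ.N (bt K)) ℓ.N y) := rfl
  have hext : ∀ (y : ℓ.N ≃ₐ[sb ℓ.N (bt K)] ℓ.N) (g : (bt K).fixingSubgroup),
      (∀ x : ℓ.N, ((y x : ℓ.N) : AlgebraicClosure K) = (g : Gal(AlgebraicClosure K/K)) x) →
        rsc K (sb ℓ.N (bt K)) ℓ.N y = rN ℓ.N g := by
    intro y g hy
    ext x
    rw [rN_apply]
    exact hy x
  have h1 : HasChar ρ' (fun g => ((infl M χ g : ℂˣ) : ℂ)) := by
    intro y g hy
    rw [hch]
    change ρ.character (rsc K (sb ℓ.N (bt K)) ℓ.N y) = _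
    rw [hext y g hy, hρ, cf, up_rN hMN]
  obtain ⟨h2, -, h3⟩ := ℓ.A_eq hle h1
  obtain ⟨h4, h5⟩ := starkA_val_self ℓ.ram ℓ.θ ρ
  rw [h3, h5]
  congr 1
  apply Subtype.ext
  change indj (rsc K (sb ℓ.N (bt K)) ℓ.N) ρ'.character = ρ.character
  rw [hch]
  refine indj_bij _ ⟨rsc_injective, fun g => ?_⟩ _ (char_conj' ρ)
  obtain ⟨g', rfl⟩ := rN_surjective g
  obtain ⟨y, hy⟩ : ∃ y, y = rF (mt_sb hle) g' := ⟨_, rfl⟩
  refine ⟨y, hext y g' fun x => ?_⟩
  rw [hy]
  exact rF_apply _ g' x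

end

end Pool.Agent.Q20.SI
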