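import Pool.Agent.Q20.SI.Ord
import Pool.Agent.Q20.SI.Trn

/-!
# Comparison of Stark's numbers for `N/F` with the numbers of `M/F`
-/

set_option autoImplicit false
set_option linter.unusedSectionVars false

namespace Pool.Agent.Q20.SI

open NumberField IsDedekindDomain Pool.Agent.Q20.RS

section
variable {F M : Type} [Field F] [NumberField F] [Field M] [NumberField M] [Algebra F M]

/-- combinations of units with trivial orders outside `T` are combinations of `T`-units -/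
theorem descent (hABS : S_ABS) {T : Finset (HeightOneSpectrum (𝓞 M))} (χ : (M ≃ₐ[F] M) →* ℂˣ)
    {L : Type} [Fintype L] (x : L → M) (hx : ∀ l, x l ≠ 0) (c : L → ℂ)
    (h : ∀ Q : HeightOneSpectrum (𝓞 M), Q ∉ T → ∑ l, c l * ell χ (x l) (.inl Q) = 0) :
    ∃ (m : ℕ) (b : Fin m → ℂ) (u : Fin m → M) (D : ℕ), 0 < D ∧ (∀ s, IsUnt T (u s)) ∧
      ∀ (σ : ℂ ≃+* ℂ) (χ' : (M ≃ₐ[F] M) →* ℂˣ), (∀ g, cf χ' g = σ (cf χ g)) → ∀ w,
        ∑ s, σ (b s) * ell χ' (u s) w = (D : ℂ) * ∑ l, σ (c l) * ell χ' (x l) w := by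
  classical
  have hgx : ∀ p : L × (M ≃ₐ[F] M), p.2 (x p.1) ≠ 0 := fun p => by simpa using hx p.1
  obtain ⟨m, b, u, D, hD, -, hu, hs⟩ := hABS (Additive Mˣ) {Q : HeightOneSpectrum (𝓞 M) // Q ∉ T}
    (fun Q => vord Q.1) (L × (M ≃ₐ[F] M)) (fun p => Additive.ofMul (Units.mk0 _ (hgx p)))
    (fun p => c p.1 * cf χ p.2) (by
      intro Q
      have h1 := h Q.1 Q.2
      have h2 : (1 : ℝ) < (Ideal.absNorm Q.1.asIdeal : ℝ) := by
        exact_mod_cast NumberField.HeightOneSpectrum.one_lt_absNorm Q.1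
      have h3 : ((Real.log (Ideal.absNorm Q.1.asIdeal) : ℝ) : ℂ) ≠ 0 := by
        exact_mod_cast (Real.log_pos h2).ne'
      refine (mul_eq_zero.1 ?_).resolve_right h3
      rw [Fintype.sum_prod_type, ← h1, Finset.sum_mul]
      refine Finset.sum_congr rfl fun l _ => ?_
      rw [Finset.sum_mul]
      unfold ell
      rw [Finset.mul_sum]
      refine Finset.sum_congr rfl fun g _ => ?_
      have h4 := logv_inl Q.1 (Units.mk0 _ (hgx (l, g)))
      rw [Units.val_mk0] at h4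
      rw [h4, cf]
      push_cast
      ring)
  refine ⟨m, b, fun s => ((u s).toMul : Mˣ), D * Fintype.card (M ≃ₐ[F] M),
    Nat.mul_pos hD Fintype.card_pos, fun s => ⟨Units.ne_zero _, fun Q hQ => ?_⟩, fun σ χ' hχ' w => ?_⟩
  · exact (vord_eq_zero Q (u s).toMul).1 (hu s ⟨Q, hQ⟩)
  · have h1 := hs σ (ellH χ' w)
    change ∑ s, σ (b s) * ell χ' (((u s).toMul : Mˣ) : M) w = _ at h1
    rw [h1]
    push_cast
    rw [mul_assoc]
    congr 1
    rw [Fintype.sum_prod_type, Finset.mul_sum]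
    refine Finset.sum_congr rfl fun l _ => ?_
    have h2 : ∀ g : M ≃ₐ[F] M, σ (c l * cf χ g) *
        ellH χ' w (Additive.ofMul (Units.mk0 _ (hgx (l, g)))) = σ (c l) * ell χ' (x l) w := by
      intro g
      rw [ellH_apply, Units.val_mk0, map_mul, ← hχ', mul_assoc]
      congr 1
      exact ell_act χ' g (x l) w
    change ∑ g : M ≃ₐ[F] M, σ (c l * cf χ g) *
      ellH χ' w (Additive.ofMul (Units.mk0 _ (hgx (l, g)))) = _
    rw [Finset.sum_congr rfl fun g _ => h2 g, Finset.sum_const, Finset.card_univ, nsmul_eq_mul]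

end

end Pool.Agent.Q20.SI
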