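import Pool.Agent.Q20.SI.Cmp

/-!
# Comparison of Stark's numbers for `N/F` with the numbers of `M/F`: places
-/

set_option autoImplicit false
set_option linter.unusedSectionVars false

namespace Pool.Agent.Q20.SI

open NumberField IsDedekindDomain Pool.Agent.Q20.RS

section
variable {F M N : Type} [Field F] [NumberField F] [Field M] [NumberField M] [Field N] [NumberField N]
  [Algebra F M] [Algebra F N] [Algebra M N] [IsScalarTower F M N] [IsGalois F M] [IsGalois F N]

theorem lift_res (g : M ≃ₐ[F] M) : ∃ g' : N ≃ₐ[F] N, AlgEquiv.restrictNormalHom M g' = g :=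
  AlgEquiv.restrictNormalHom_surjective (F := F) (K₁ := M) N g

theorem inPl_pact {T : Finset (HeightOneSpectrum (𝓞 M))} (hT : Stable F T) (g : M ≃ₐ[F] M)
    {w : Pl M} (h : InPl T w) : InPl T (pact g w) := by
  rcases w with P | v
  · exact hT g P h
  · exact trivial

theorem comb_zero (hORB : S_ORB) {T : Finset (HeightOneSpectrum (𝓞 M))} (hT : Stable F T)
    {T' : Finset (HeightOneSpectrum (𝓞 N))} (hT' : Stable F T') {χ : (M ≃ₐ[F] M) →* ℂˣ}
    {ι J : Type} {w : ι → Pl M} {w' : ι ⊕ J → Pl N} (hw : Reps χ T w)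
    (hw' : Reps (up N χ) T' w') (hdn : ∀ i, dn M (w' (.inl i)) = w i)
    {L : Type} [Fintype L] (x : L → M)
    (hxu : ∀ l, ∀ Q : HeightOneSpectrum (𝓞 M), (∀ P ∈ T', P.under (𝓞 M) ≠ Q) →
      NumberField.HeightOneSpectrum.adicAbv M Q (x l) = 1)
    (c : L → ℂ) (h : ∀ j, ∑ l, c l * ell χ (x l) (dn M (w' (.inr j))) = 0)
    (Q : HeightOneSpectrum (𝓞 M)) (hQ : Q ∉ T) : ∑ l, c l * ell χ (x l) (.inl Q) = 0 := by
  obtain ⟨-, h2, -, h4⟩ := hORB F M N
  by_cases h1 : ∃ P ∈ T', P.under (𝓞 M) = Q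
  · obtain ⟨P, hP, hPQ⟩ := h1
    by_cases ht : Triv χ (.inl Q)
    · have hd : dn M (.inl P : Pl N) = .inl Q := congrArg Sum.inl hPQ
      have ht' : Triv (up N χ) (.inl P) := (h4 χ _).2 (by rw [hd]; exact ht)
      obtain ⟨i', g, hg⟩ := hw'.cover (.inl P) hP ht'
      have h5 := congrArg (dn M) hg
      rw [h2, hd] at h5
      rcases i' with i | j
      · rw [hdn] at h5
        have h6 := inPl_pact hT (AlgEquiv.restrictNormalHom M g) (hw.mem i)
        rw [h5] at h6
        exact absurd h6 hQ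
      · rw [← h5]
        have h6 : ∀ l, c l * ell χ (x l) (pact (AlgEquiv.restrictNormalHom M g)
            (dn M (w' (.inr j)))) = cf χ (AlgEquiv.restrictNormalHom M g) *
              (c l * ell χ (x l) (dn M (w' (.inr j)))) := by
          intro l
          rw [ell_pact]
          ring
        rw [Finset.sum_congr rfl fun l _ => h6 l, ← Finset.mul_sum, h j, mul_zero]
    · refine Finset.sum_eq_zero fun l _ => ?_
      rw [ell_eq_zero ht, mul_zero]
  · refine Finset.sum_eq_zero fun l _ => ?_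
    have h5 : ell χ (x l) (.inl Q) = 0 := by
      unfold ell
      refine Finset.sum_eq_zero fun g _ => ?_
      have h6 : logv (g (x l)) (.inl Q) = logv (x l) (.inl (pra g⁻¹ Q)) := by
        have h7 := logv_pact g (.inl (pra g⁻¹ Q)) (x l)
        have h8 : pact g (.inl (pra g⁻¹ Q)) = (.inl Q : Pl M) := by
          change Sum.inl (pra g (pra g⁻¹ Q)) = _
          rw [← pra_mul, mul_inv_cancel, pra_one]
        rw [h8] at h7
        exact h7
      have h7 : NumberField.HeightOneSpectrum.adicAbv M (pra g⁻¹ Q) (x l) = 1 := by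
        refine hxu l _ fun P hP hPQ => h1 ?_
        obtain ⟨g', hg'⟩ := lift_res (N := N) g
        refine ⟨pra g' P, hT' g' P hP, ?_⟩
        have h8 := h2 g' (.inl P)
        rw [hg'] at h8
        have h9 : (pra g' P).under (𝓞 M) = pra g (P.under (𝓞 M)) := Sum.inl_injective h8
        rw [h9, hPQ, ← pra_mul, mul_inv_cancel, pra_one]
      rw [h6]
      change _ * ((Real.log (NumberField.HeightOneSpectrum.adicAbv M (pra g⁻¹ Q) (x l)) : ℝ) : ℂ) = 0
      rw [h7, Real.log_one, Complex.ofReal_zero, mul_zero]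
    rw [h5, mul_zero]

/-- primes of `M` above the same prime of `F` are conjugate -/
theorem conj_primes (hORB : S_ORB) {P Q : HeightOneSpectrum (𝓞 M)}
    (h : P.under (𝓞 F) = Q.under (𝓞 F)) : ∃ g : M ≃ₐ[F] M, pra g P = Q := by
  obtain ⟨-, -, h3, -⟩ := hORB F F M
  obtain ⟨g, -, hg⟩ := h3 (.inl P) (.inl Q) (congrArg Sum.inl h)
  exact ⟨g, Sum.inl_injective hg⟩

theorem under_pra (hORB : S_ORB) (g : M ≃ₐ[F] M) (P : HeightOneSpectrum (𝓞 M)) :
    (pra g P).under (𝓞 F) = P.under (𝓞 F) := by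
  obtain ⟨-, h2, -, -⟩ := hORB F F M
  have h := h2 g (.inl P)
  have h1 : AlgEquiv.restrictNormalHom F g = 1 := by
    ext x
    exact (AlgEquiv.restrictNormalHom F g).commutes x
  rw [h1, pact_one] at h
  exact Sum.inl_injective h

theorem not_inS (hORB : S_ORB) {T : Finset (HeightOneSpectrum (𝓞 M))} (hT : Stable F T)
    {Q : HeightOneSpectrum (𝓞 M)} (hQ : Q ∉ T) : ¬ InS T (Q.under (𝓞 F)) := by
  rintro ⟨R, hR, hRQ⟩
  obtain ⟨g, hg⟩ := conj_primes hORB hRQ
  exact hQ (hg ▸ hT g R hR)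

end

end Pool.Agent.Q20.SI
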