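import Pool.Agent.Q20.SI.Cmp2

/-!
# Comparison of Stark's numbers for `N/F` with the numbers of `M/F`: L-functions
-/

set_option autoImplicit false
set_option linter.unusedSectionVars false

namespace Pool.Agent.Q20.SI

open NumberField IsDedekindDomain Pool.Agent.Q20.RS Pool.Agent.Q92.AR

section lin
variable {F M : Type} [Field F] [NumberField F] [Field M] [NumberField M] [Algebra F M]

/-- the representation of a linear character -/
noncomputable def linRep (χ : (M ≃ₐ[F] M) →* ℂˣ) : Representation ℂ (M ≃ₐ[F] M) (Fin 1 → ℂ) where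
  toFun g := cf χ g • (1 : Module.End ℂ (Fin 1 → ℂ))
  map_one' := by rw [cf, map_one, Units.val_one, one_smul]
  map_mul' g h := by
    rw [cf, map_mul, Units.val_mul, smul_mul_smul_comm, one_mul]
    rfl

theorem linRep_char (χ : (M ≃ₐ[F] M) →* ℂˣ) (g : M ≃ₐ[F] M) : (linRep χ).character g = cf χ g := by
  change LinearMap.trace ℂ _ (cf χ g • (1 : Module.End ℂ (Fin 1 → ℂ))) = _
  rw [map_smul, LinearMap.trace_one, Module.finrank_fin_fun, Nat.cast_one, smul_eq_mul, mul_one]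

theorem regul_ne [IsGalois F M] {T : Finset (HeightOneSpectrum (𝓞 M))} {hT : Stable F T}
    (hR : ContainsRamified F T) (θ : StarkMap hT) {n : ℕ}
    (ρ : Representation ℂ (M ≃ₐ[F] M) (Fin n → ℂ)) : regul ρ (XRep hT) θ.map ≠ 0 := by
  obtain ⟨h, e⟩ := starkA_val_self hR θ ρ
  intro h0
  refine val_ne θ ⟨_, h⟩ (e.symm.trans ?_)
  unfold starkA
  rw [h0, zero_div]

end lin

section
variable {F M N : Type} [Field F] [NumberField F] [Field M] [NumberField M] [Field N] [NumberField N]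
  [Algebra F M] [Algebra F N] [Algebra M N] [IsScalarTower F M N] [IsGalois F M] [IsGalois F N]

/-- the primes of `F` which are split for `χ` -/
theorem prod_split (hORB : S_ORB) (hFRO : S_FRO) (hc : ∀ a b : M ≃ₐ[F] M, a * b = b * a)
    {T : Finset (HeightOneSpectrum (𝓞 M))} (hT : Stable F T) (hR : ContainsRamified F T)
    {T' : Finset (HeightOneSpectrum (𝓞 N))} {χ : (M ≃ₐ[F] M) →* ℂˣ}
    {ι J : Type} [Fintype J] {w : ι → Pl M} {w' : ι ⊕ J → Pl N} (hw : Reps χ T w)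
    (hw' : Reps (up N χ) T' w') (hdn : ∀ i, dn M (w' (.inl i)) = w i)
    (P : J → HeightOneSpectrum (𝓞 N)) (hP : ∀ j, P j ∈ T') (hPw : ∀ j, w' (.inr j) = .inl (P j))
    (hPT : ∀ j, (P j).under (𝓞 M) ∉ T) (E : Finset (HeightOneSpectrum (𝓞 F)))
    (hE : ∀ v, v ∈ E ↔ InS T' v ∧ ¬ InS T v) (f : HeightOneSpectrum (𝓞 F) → ℂ) :
    ∏ v ∈ E.filter (fun v => χ (frb M v) = 1), f v =
      ∏ j, f (((P j).under (𝓞 M)).under (𝓞 F)) := by
  classical
  obtain ⟨-, h2, h3, h4⟩ := hORB F M N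
  have htow : ∀ R : HeightOneSpectrum (𝓞 N), (R.under (𝓞 M)).under (𝓞 F) = R.under (𝓞 F) :=
    fun R => under_under (K := F) (F := M) R
  have hunr : ∀ Q : HeightOneSpectrum (𝓞 M), Q ∉ T → Unrm M (Q.under (𝓞 F)) := by
    intro Q hQ
    by_contra h
    exact not_inS hORB hT hQ (hR _ h)
  symm
  refine Finset.prod_bij (fun j _ => ((P j).under (𝓞 M)).under (𝓞 F)) ?_ ?_ ?_ (fun _ _ => rfl)
  · intro j _
    rw [Finset.mem_filter, hE]
    refine ⟨⟨⟨P j, hP j, (htow _).symm⟩, not_inS hORB hT (hPT j)⟩, ?_⟩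
    refine (hFRO.1 F M hc _ (hunr _ (hPT j)) χ).1 ?_
    have h5 := (h4 χ _).1 (hw'.triv (.inr j))
    rw [hPw] at h5
    exact h5
  · intro j _ j' _ he
    obtain ⟨g, hg⟩ := conj_primes hORB he
    obtain ⟨g', hg'⟩ := lift_res (N := N) g
    have h5 : dn M (pact g' (.inl (P j) : Pl N)) = dn M (.inl (P j') : Pl N) := by
      rw [h2, hg']
      exact congrArg Sum.inl hg
    obtain ⟨h, -, hh⟩ := h3 _ _ h5
    rw [← pact_mul, ← hPw, ← hPw] at hh
    exact Sum.inr_injective (hw'.inj _ _ _ hh)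
  · intro v hv
    rw [Finset.mem_filter, hE] at hv
    obtain ⟨⟨⟨R, hR', rfl⟩, hnot⟩, hfr⟩ := hv
    rw [← htow] at hnot hfr
    have hQT : R.under (𝓞 M) ∉ T := fun h => hnot ⟨_, h, rfl⟩
    have ht := (hFRO.1 F M hc _ (hunr _ hQT) χ).2 hfr
    have ht' : Triv (up N χ) (.inl R) := (h4 χ _).2 ht
    obtain ⟨i', g, hg⟩ := hw'.cover (.inl R) hR' ht'
    have h5 := congrArg (dn M) hg
    rw [h2] at h5
    rcases i' with i | j
    · rw [hdn] at h5
      have h6 := inPl_pact hT (AlgEquiv.restrictNormalHom M g) (hw.mem i)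
      rw [h5] at h6
      exact absurd h6 hQT
    · refine ⟨j, Finset.mem_univ _, ?_⟩
      rw [hPw] at h5
      have h6 : pra (AlgEquiv.restrictNormalHom M g) ((P j).under (𝓞 M)) = R.under (𝓞 M) :=
        Sum.inl_injective h5
      rw [← htow R, ← h6, under_pra hORB]

end

end Pool.Agent.Q20.SI
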