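import Pool.Agent.Q20.SI.Cmp3

/-!
# Comparison of Stark's numbers for `N/F` with the numbers of `M/F`: the theorem
-/

set_option autoImplicit false
set_option linter.unusedSectionVars false

namespace Pool.Agent.Q20.SI

open NumberField IsDedekindDomain Pool.Agent.Q20.RS Pool.Agent.Q92.AR

theorem ker_conj {F M : Type} [Field F] [Field M] [Algebra F M]
    {χ χ' : (M ≃ₐ[F] M) →* ℂˣ} {σ : ℂ ≃+* ℂ}
    (h : ∀ g, ((χ' g : ℂˣ) : ℂ) = σ ((χ g : ℂˣ) : ℂ)) (g : M ≃ₐ[F] M) : χ' g = 1 ↔ χ g = 1 := by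
  rw [Units.ext_iff, Units.ext_iff, h, Units.val_one]
  constructor
  · intro h1
    exact σ.injective (h1.trans (map_one σ).symm)
  · intro h1
    rw [h1, map_one]

theorem ker_up {F M N : Type} [Field F] [Field M] [Field N]
    [Algebra F M] [Algebra F N] [Algebra M N] [IsScalarTower F M N] [Normal F M]
    {χ χ' : (M ≃ₐ[F] M) →* ℂˣ} (h : ∀ g, χ' g = 1 ↔ χ g = 1) (g : N ≃ₐ[F] N) :
    up N χ' g = 1 ↔ up N χ g = 1 := h _

theorem cmp (hREG : S_REG) (hLFN : S_LFN) (hORB : S_ORB) (hRPS : S_RPS) (hNRM : S_NRM)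
    (hABS : S_ABS) (hMAT : S_MAT) (hEXI : S_EXI) (hFRO : S_FRO) : S_CMP := by
  classical
  intro F M _ _ _ _ _ _ hc T hT hR χ hχ ι _ _ w hw
  obtain ⟨θM⟩ := hEXI F M T hT
  obtain ⟨qM, α, hqM, hα, hreg, hspan⟩ := hREG F M T hT θM χ hχ ι w hw
  have hdet : ∀ χ' : (M ≃ₐ[F] M) →* ℂˣ, (∀ g, χ' g = 1 ↔ χ g = 1) → (ellM χ' α w).det ≠ 0 := by
    intro χ' h' h0
    have h1 := hreg χ' h' 1 (linRep χ') (linRep_char χ')
    rw [h0, mul_zero] at h1
    exact regul_ne hR θM (linRep χ') h1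
  refine ⟨α, hα, hdet, ?_⟩
  intro N _ _ _ _ _ _ T' hT' hR' hTT' θ
  obtain ⟨J, _, _, w', hw', hdn, hJ⟩ := hRPS F M N T T' hT hT' hTT' χ ι w hw
  choose P hP hPw hPT using hJ
  have hχN : ∃ g, up N χ g ≠ 1 := by
    obtain ⟨g, hg⟩ := hχ
    obtain ⟨g', rfl⟩ := lift_res (N := N) g
    exact ⟨g', hg⟩
  obtain ⟨qN, β, hqN, hβ, hregN, -⟩ := hREG F N T' hT' θ (up N χ) hχN (ι ⊕ J) w' hw'
  obtain ⟨⟨n, hn, hnorm⟩, hunit⟩ := hNRM F M N
  -- the norms
  let x : ι ⊕ J → M := fun l => Algebra.norm M (β l)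
  have hx : ∀ l, x l ≠ 0 := fun l => Algebra.norm_ne_zero_iff.2 (hβ l).1
  have hxu : ∀ l, ∀ Q : HeightOneSpectrum (𝓞 M), (∀ R ∈ T', R.under (𝓞 M) ≠ Q) →
      NumberField.HeightOneSpectrum.adicAbv M Q (x l) = 1 := by
    intro l Q hQ
    refine (hunit (T'.image fun R => R.under (𝓞 M)) T' (β l)
      (fun R hR => Finset.mem_image_of_mem _ hR) (hβ l)).2 Q fun h => ?_
    obtain ⟨R, hR, e⟩ := Finset.mem_image.1 h
    exact hQ R hR e
  -- the matrices
  let Q : J → HeightOneSpectrum (𝓞 M) := fun j => (P j).under (𝓞 M)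
  have hdQ : ∀ j, dn M (w' (.inr j)) = .inl (Q j) := fun j => by rw [hPw]; rfl
  have hgx : ∀ (g : M ≃ₐ[F] M) l, g (x l) ≠ 0 := fun g l => by simpa using hx l
  let O : Matrix J (ι ⊕ J) ℂ := Matrix.of fun j l =>
    ∑ g : M ≃ₐ[F] M, cf χ g * ((vord (Q j) (Additive.ofMul (Units.mk0 _ (hgx g l))) : ℤ) : ℂ)
  let nJ : J → ℂ := fun j => (n (w' (.inr j)) : ℂ) *
    ((Real.log (Ideal.absNorm (Q j).asIdeal) : ℝ) : ℂ)
  let B : ((M ≃ₐ[F] M) →* ℂˣ) → Matrix ι (ι ⊕ J) ℂ := fun χ' =>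
    Matrix.of fun i l => (n (w' (.inl i)) : ℂ) * ell χ' (x l) (w i)
  have hOell : ∀ (σ : ℂ ≃+* ℂ) (χ' : (M ≃ₐ[F] M) →* ℂˣ), (∀ g, cf χ' g = σ (cf χ g)) → ∀ j l,
      ell χ' (x l) (.inl (Q j)) = ((Real.log (Ideal.absNorm (Q j).asIdeal) : ℝ) : ℂ) *
        σ (O j l) := by
    intro σ χ' h' j l
    change _ = _ * σ (∑ g : M ≃ₐ[F] M, cf χ g *
      ((vord (Q j) (Additive.ofMul (Units.mk0 _ (hgx g l))) : ℤ) : ℂ))
    rw [map_sum, Finset.mul_sum]
    unfold ell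
    refine Finset.sum_congr rfl fun g _ => ?_
    have h4 := logv_inl (Q j) (Units.mk0 _ (hgx g l))
    rw [Units.val_mk0] at h4
    rw [h4, map_mul, ← h', map_intCast, cf]
    push_cast
    ring
  have key1 : ∀ (σ : ℂ ≃+* ℂ) (χ' : (M ≃ₐ[F] M) →* ℂˣ), (∀ g, cf χ' g = σ (cf χ g)) →
      ellM (up N χ') β w' = Matrix.fromRows (B χ') (Matrix.diagonal nJ * O.map σ) := by
    intro σ χ' h'
    ext i' l
    rcases i' with i | j
    · change ell (up N χ') (β l) (w' (.inl i)) = (n (w' (.inl i)) : ℂ) * ell χ' (x l) (w i)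
      rw [hnorm χ' (β l) _ (hβ l).1, hdn]
    · change ell (up N χ') (β l) (w' (.inr j)) = (Matrix.diagonal nJ * O.map σ) j l
      rw [Matrix.diagonal_mul, hnorm χ' (β l) _ (hβ l).1, hdQ, hOell σ χ' h', Matrix.map_apply,
        mul_assoc]
  have hself : ∀ g, cf χ g = (RingEquiv.refl ℂ) (cf χ g) := fun _ => rfl
  have hOrefl : O.map (RingEquiv.refl ℂ) = O := by
    ext i j
    rfl
  have hdetN : ∀ χ' : (M ≃ₐ[F] M) →* ℂˣ, (∀ g, χ' g = 1 ↔ χ g = 1) →
      (ellM (up N χ') β w').det ≠ 0 := by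
    intro χ' h' h0
    have h1 := hregN (up N χ') (ker_up h') 1 (linRep (up N χ')) (linRep_char _)
    rw [h0, mul_zero] at h1
    exact regul_ne hR' θ (linRep (up N χ')) h1
  obtain ⟨E, c, hc0, -, -, hOE, hE⟩ := hMAT ⊤ ι J O (fun _ _ => Subfield.mem_top _)
    ⟨B χ, nJ, by
      have h1 := hdetN χ fun _ => Iff.rfl
      rw [key1 (RingEquiv.refl ℂ) χ hself, hOrefl] at h1
      exact h1⟩
  -- the columns of `E`
  have hcol : ∀ i, ∀ R : HeightOneSpectrum (𝓞 M), R ∉ T →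
      ∑ l, E l i * ell χ (x l) (.inl R) = 0 := by
    intro i R hRT
    refine comb_zero hORB hT hT' hw hw' hdn x hxu (fun l => E l i) (fun j => ?_) R hRT
    have h1 := congrFun (congrFun hOE j) i
    rw [Matrix.mul_apply, Matrix.zero_apply] at h1
    have h2 : ∀ l, E l i * ell χ (x l) (dn M (w' (.inr j))) =
        ((Real.log (Ideal.absNorm (Q j).asIdeal) : ℝ) : ℂ) * (O j l * E l i) := by
      intro l
      rw [hdQ, hOell (RingEquiv.refl ℂ) χ hself]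
      change _ * (_ * O j l) = _
      ring
    rw [Finset.sum_congr rfl fun l _ => h2 l, ← Finset.mul_sum, h1, mul_zero]
  choose m b u D hD hu hs using fun i => descent hABS χ x hx (fun l => E l i) (hcol i)
  choose κ hκ using fun i s => hspan (u i s) (hu i s)
  let H : Matrix ι ι ℂ := Matrix.of fun j i =>
    ((D i : ℕ) : ℂ)⁻¹ * ∑ s, b i s * ∑ g, (κ i s j g : ℂ) * cf χ g
  have key2 : ∀ (σ : ℂ ≃+* ℂ) (χ' : (M ≃ₐ[F] M) →* ℂˣ), (∀ g, cf χ' g = σ (cf χ g)) →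
      B χ' * E.map σ = Matrix.diagonal (fun i => (n (w' (.inl i)) : ℂ)) *
        (ellM χ' α w * H.map σ) := by
    intro σ χ' h'
    have hk : ∀ g, χ' g = 1 ↔ χ g = 1 := ker_conj (σ := σ) h'
    ext i' i
    rw [Matrix.diagonal_mul, Matrix.mul_apply, Matrix.mul_apply]
    have hDi : ((D i : ℕ) : ℂ) ≠ 0 := by exact_mod_cast (hD i).ne'
    have h1 := hs i σ χ' h' (w i')
    have h2 : ∑ l, B χ' i' l * (E.map σ) l i =
        (n (w' (.inl i')) : ℂ) * ∑ l, σ (E l i) * ell χ' (x l) (w i') := by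
      rw [Finset.mul_sum]
      refine Finset.sum_congr rfl fun l _ => ?_
      change ((n (w' (.inl i')) : ℂ) * ell χ' (x l) (w i')) * σ (E l i) = _
      ring
    rw [h2]
    congr 1
    have h3 : ∑ l, σ (E l i) * ell χ' (x l) (w i') =
        ((D i : ℕ) : ℂ)⁻¹ * ∑ s, σ (b i s) * ell χ' (u i s) (w i') := by
      rw [h1, ← mul_assoc, inv_mul_cancel₀ hDi, one_mul]
    rw [h3, Finset.mul_sum]
    have h4 : ∀ s, ell χ' (u i s) (w i') =
        ∑ j, (∑ g, (κ i s j g : ℂ) * cf χ' g) * ell χ' (α j) (w i') := fun s => hκ i s χ' hk i'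
    have h5 : ∀ j, ellM χ' α w i' j * (H.map σ) j i =
        ∑ s, ((D i : ℕ) : ℂ)⁻¹ * (σ (b i s) * ((∑ g, (κ i s j g : ℂ) * cf χ' g) *
          ell χ' (α j) (w i'))) := by
      intro j
      change ell χ' (α j) (w i') * σ (((D i : ℕ) : ℂ)⁻¹ *
        ∑ s, b i s * ∑ g, (κ i s j g : ℂ) * cf χ g) = _
      rw [map_mul, map_inv₀, map_natCast, map_sum, Finset.mul_sum, Finset.mul_sum]
      refine Finset.sum_congr rfl fun s _ => ?_
      have h6 : σ (b i s * ∑ g, (κ i s j g : ℂ) * cf χ g) =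
          σ (b i s) * ∑ g, (κ i s j g : ℂ) * cf χ' g := by
        rw [map_mul, map_sum]
        congr 1
        refine Finset.sum_congr rfl fun g _ => ?_
        rw [map_mul, map_ratCast, h']
      rw [h6]
      ring
    rw [Finset.sum_congr rfl fun j _ => h5 j, Finset.sum_comm]
    refine Finset.sum_congr rfl fun s _ => ?_
    rw [h4 s, Finset.mul_sum, Finset.mul_sum]
  have key3 : ∀ (σ : ℂ ≃+* ℂ) (χ' : (M ≃ₐ[F] M) →* ℂˣ), (∀ g, cf χ' g = σ (cf χ g)) →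
      (ellM (up N χ') β w').det = (∏ i, (n (w' (.inl i)) : ℂ)) * (ellM χ' α w).det * σ H.det *
        (∏ j, nJ j) / σ c := by
    intro σ χ' h'
    have h1 := hE σ (B χ') nJ
    rw [← key1 σ χ' h', key2 σ χ' h', Matrix.det_mul, Matrix.det_mul, Matrix.det_diagonal] at h1
    have h2 : (H.map σ).det = σ H.det := ((σ : ℂ →+* ℂ).map_det H).symm
    have h3 : σ c ≠ 0 := (map_ne_zero σ).2 hc0
    rw [h2] at h1
    rw [eq_div_iff h3, h1]
    ring
  -- the L-functions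
  let EE : Finset (HeightOneSpectrum (𝓞 F)) :=
    (T'.image fun R => R.under (𝓞 F)).filter fun v => ¬ InS T v
  have hEE : ∀ v, v ∈ EE ↔ InS T' v ∧ ¬ InS T v := by
    intro v
    rw [Finset.mem_filter, Finset.mem_image]
    exact Iff.rfl
  have hST : ∀ v : HeightOneSpectrum (𝓞 F), InS T v → InS T' v := by
    rintro v ⟨R, hRT, rfl⟩
    obtain ⟨r, hr⟩ := (hORB F M N).1 (.inl R)
    rcases r with r | r
    · have h1 : r.under (𝓞 M) = R := Sum.inl_injective hr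
      refine ⟨r, hTT' r (h1 ▸ hRT), ?_⟩
      rw [← h1]
      exact (under_under (K := F) (F := M) r).symm
    · exact absurd hr (by simp [dn])
  choose f hf hfN hf1 using fun j => hFRO.2 F M (Q j)
  let e : ℂ := (qN : ℂ) * (∏ i, (n (w' (.inl i)) : ℂ)) * H.det *
    (∏ j, ((n (w' (.inr j)) * f j : ℕ) : ℂ)) / c /
      ∏ v ∈ EE.filter (fun v => ¬ χ (frb M v) = 1), (1 - cf χ (frb M v))
  have key4 : ∀ (σ : ℂ ≃+* ℂ) (χ' : (M ≃ₐ[F] M) →* ℂˣ), (∀ g, cf χ' g = σ (cf χ g)) →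
      ∀ (k : ℕ) (ρ : Representation ℂ (N ≃ₐ[F] N) (Fin k → ℂ)),
        (∀ g, ρ.character g = cf (up N χ') g) →
        starkA θ ρ = σ e * (ellM χ' α w).det / leading T (cf χ') := by
    intro σ χ' h' k ρ hρ
    have hk : ∀ g, χ' g = 1 ↔ χ g = 1 := ker_conj (σ := σ) h'
    have h1 := hregN (up N χ') (ker_up hk) k ρ hρ
    have hρ' : ρ.character = cf (up N χ') := funext hρ
    unfold starkA
    rw [h1, hρ', key3 σ χ' h', hLFN F M N hc T T' hT hR hT' hR' hST χ' EE hEE]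
    have h2 : (∏ v ∈ EE, (if χ' (frb M v) = 1 then
        ((Real.log (Ideal.absNorm v.asIdeal) : ℝ) : ℂ) else 1 - cf χ' (frb M v))) =
        (∏ j, ((Real.log (Ideal.absNorm ((Q j).under (𝓞 F)).asIdeal) : ℝ) : ℂ)) *
          σ (∏ v ∈ EE.filter (fun v => ¬ χ (frb M v) = 1), (1 - cf χ (frb M v))) := by
      rw [← Finset.prod_filter_mul_prod_filter_not EE (fun v => χ (frb M v) = 1)]
      congr 1
      · rw [← prod_split hORB hFRO hc hT hR hw hw' hdn P hP hPw hPT EE hEE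
          fun v => ((Real.log (Ideal.absNorm v.asIdeal) : ℝ) : ℂ)]
        refine Finset.prod_congr rfl fun v hv => ?_
        rw [if_pos ((hk _).2 (Finset.mem_filter.1 hv).2)]
      · rw [map_prod]
        refine Finset.prod_congr rfl fun v hv => ?_
        rw [if_neg fun h => (Finset.mem_filter.1 hv).2 ((hk _).1 h), map_sub, map_one, ← h']
    have h3 : ∏ j, nJ j = (∏ j, ((n (w' (.inr j)) * f j : ℕ) : ℂ)) *
        ∏ j, ((Real.log (Ideal.absNorm ((Q j).under (𝓞 F)).asIdeal) : ℝ) : ℂ) := by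
      rw [← Finset.prod_mul_distrib]
      refine Finset.prod_congr rfl fun j _ => ?_
      change (n (w' (.inr j)) : ℂ) * ((Real.log (Ideal.absNorm (Q j).asIdeal) : ℝ) : ℂ) = _
      rw [hfN j]
      push_cast
      rw [Real.log_pow]
      push_cast
      ring
    have h4 : ∏ j, ((Real.log (Ideal.absNorm ((Q j).under (𝓞 F)).asIdeal) : ℝ) : ℂ) ≠ 0 := by
      refine Finset.prod_ne_zero_iff.2 fun j _ => ?_
      have h5 : (1 : ℝ) < (Ideal.absNorm ((Q j).under (𝓞 F)).asIdeal : ℝ) := by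
        exact_mod_cast hf1 j
      exact_mod_cast (Real.log_pos h5).ne'
    have h5 : σ e = (qN : ℂ) * (∏ i, (n (w' (.inl i)) : ℂ)) * σ H.det *
        (∏ j, ((n (w' (.inr j)) * f j : ℕ) : ℂ)) / σ c /
          σ (∏ v ∈ EE.filter (fun v => ¬ χ (frb M v) = 1), (1 - cf χ (frb M v))) := by
      change σ (_ / _ / _) = _
      rw [map_div₀, map_div₀, map_mul, map_mul, map_mul, map_ratCast, map_prod, map_prod]
      simp only [map_natCast]
    rw [h2, h3, h5]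
    field_simp
  refine ⟨e, fun h0 => ?_, key4⟩
  have h1 := key4 (RingEquiv.refl ℂ) χ hself 1 (linRep (up N χ)) (linRep_char _)
  rw [h0, map_zero, zero_mul, zero_div] at h1
  obtain ⟨h2, e2⟩ := starkA_val_self hR' θ (linRep (up N χ))
  exact val_ne θ ⟨_, h2⟩ (e2.symm.trans h1)

end Pool.Agent.Q20.SI
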