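import Pool.Agent.Q20.SI.Row2b

/-!
# Data for given characters
-/

set_option autoImplicit false
set_option linter.unusedSectionVars false

namespace Pool.Agent.Q20.SI

open NumberField IsDedekindDomain Pool.Agent.Q20.RS
open Pool.Agent.Q20.TR (bt)

section
variable {E M : Type} [Field E] [NumberField E] [Field M] [NumberField M] [Algebra E M]

/-- representatives of the orbits -/
theorem exists_reps (T : Finset (HeightOneSpectrum (𝓞 M))) (χ : (M ≃ₐ[E] M) →* ℂˣ) :
    ∃ (r : ℕ) (w : Fin r → Pl M), Reps χ T w := by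
  classical
  let X : Type := {v : Pl M // InPl T v ∧ Triv χ v}
  have hX : Finite X := by
    let f : X → T ⊕ InfinitePlace M := fun v =>
      match v with
      | ⟨.inl P, h⟩ => .inl ⟨P, h.1⟩
      | ⟨.inr v, _⟩ => .inr v
    refine Finite.of_injective f fun a b h => ?_
    obtain ⟨a | a, ha⟩ := a
    · obtain ⟨b | b, hb⟩ := b
      · have h1 := Sum.inl_injective h
        have h2 : a = b := congrArg Subtype.val h1
        subst h2
        rfl
      · exact absurd h Sum.inl_ne_inr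
    · obtain ⟨b | b, hb⟩ := b
      · exact absurd h Sum.inr_ne_inl
      · have h1 : a = b := Sum.inr_injective h
        subst h1
        rfl
  let s : Setoid X := ⟨fun a b => ∃ g : M ≃ₐ[E] M, pact g a.1 = b.1,
    fun a => ⟨1, pact_one _⟩,
    fun {a b} ⟨g, h⟩ => ⟨g⁻¹, by rw [← h, ← pact_mul, inv_mul_cancel, pact_one]⟩,
    fun {a b c} ⟨g, h⟩ ⟨g', h'⟩ => ⟨g' * g, by rw [pact_mul, h, h']⟩⟩
  have hQ : Finite (Quotient s) := inferInstance
  obtain ⟨r, ⟨e⟩⟩ := Finite.exists_equiv_fin (Quotient s)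
  refine ⟨r, fun i => (e.symm i).out.1, ⟨fun i => (e.symm i).out.2.1,
    fun i => (e.symm i).out.2.2, fun v hv ht => ?_, fun i k g h => ?_⟩⟩
  · let x : X := ⟨v, hv, ht⟩
    refine ⟨e (Quotient.mk s x), ?_⟩
    rw [Equiv.symm_apply_apply]
    exact Quotient.mk_out (s := s) x
  · have h1 : Quotient.mk s (e.symm i).out = Quotient.mk s (e.symm k).out :=
      Quotient.sound ⟨g, h⟩
    rw [Quotient.out_eq, Quotient.out_eq] at h1
    exact e.symm.injective h1

/-- the data for an injective character -/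
theorem exists_data (hAUX : S_AUX) (S : Finset (HeightOneSpectrum (𝓞 E)))
    (hram : ∀ p : HeightOneSpectrum (𝓞 E), ¬ Unrm M p → p ∈ S) {χ : (M ≃ₐ[E] M) →* ℂˣ}
    (hχ : Function.Injective χ)
    (hm : ∃ v : Pl M, InPl (abv M S) v ∧ ∃ g : M ≃ₐ[E] M, pact g v = v ∧ g ≠ 1) :
    ∃ D : OrderData E M, D.S = S ∧ D.Exact χ := by
  classical
  obtain ⟨r, w, hw⟩ := exists_reps (abv M S) χ
  obtain ⟨q, p, hqS, hp, hpn, hpq⟩ := hAUX E S (Module.finrank ℚ E + 1)
  have ht : ∀ v : Pl M, Triv χ v ↔ ∀ g : M ≃ₐ[E] M, pact g v = v → g = 1 := by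
    intro v
    constructor
    · intro h g hg
      apply hχ
      rw [h g hg, map_one]
    · intro h g hg
      rw [h g hg, map_one]
  refine ⟨⟨fun a b => hχ (by rw [map_mul, map_mul, mul_comm]), S, hram, r, w, hw.mem,
    fun i => (ht _).1 (hw.triv i), hw.inj, fun v hv h => hw.cover v hv ((ht v).2 h), hm, {q},
    fun q' hq' => ?_, Or.inr ⟨q, Finset.mem_singleton_self q, p, hp, hpn, hpq⟩⟩, rfl,
    Or.inl ⟨?_, ?_⟩⟩
  · rw [Finset.mem_singleton.1 hq']
    exact hqS
  · obtain ⟨v, -, g, -, hg⟩ := hm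
    refine ⟨g, fun h => hg (hχ ?_)⟩
    rw [h, map_one]
  · exact hw.cover

/-- conjugate decomposition groups -/
theorem triv_pact {χ : (M ≃ₐ[E] M) →* ℂˣ} {w : Pl M} (g : M ≃ₐ[E] M) (h : Triv χ (pact g w)) :
    Triv χ w := by
  intro k hk
  have h1 := h (g * k * g⁻¹) (by
    rw [pact_mul, pact_mul, ← pact_mul g⁻¹ g, inv_mul_cancel, pact_one, hk])
  rwa [map_mul, map_mul, map_inv, mul_comm (χ g), mul_inv_cancel_right] at h1

/-- restriction of elements of the absolute Galois group -/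
theorem exists_restr {K : Type} [Field K] [NumberField K] [Algebra K E] [Algebra K M]
    [IsScalarTower K E M] [IsGalois E M] {E' : IntermediateField K (AlgebraicClosure K)}
    (j : M →ₐ[K] AlgebraicClosure K) (hm : ∀ z, z ∈ E' ↔ ∃ x : E, j (algebraMap E M x) = z)
    (g : E'.fixingSubgroup) : ∃ y : M ≃ₐ[E] M, ∀ x : M,
      j (y x) = (g : Gal(AlgebraicClosure K/K)) (j x) := by
  let A : Algebra M (AlgebraicClosure K) := j.toRingHom.toAlgebra
  let A' : Algebra E (AlgebraicClosure K) :=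
    ((algebraMap M (AlgebraicClosure K)).comp (algebraMap E M)).toAlgebra
  have t : IsScalarTower E M (AlgebraicClosure K) := IsScalarTower.of_algebraMap_eq fun _ => rfl
  let g' : AlgebraicClosure K ≃ₐ[E] AlgebraicClosure K :=
    AlgEquiv.ofRingEquiv (f := ((g : Gal(AlgebraicClosure K/K)) :
      AlgebraicClosure K ≃+* AlgebraicClosure K)) fun x => by
        have h1 : j (algebraMap E M x) ∈ E' := (hm _).2 ⟨x, rfl⟩
        exact (IntermediateField.mem_fixingSubgroup_iff _ _).1 g.2 _ h1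
  refine ⟨AlgEquiv.restrictNormal g' M, fun x => ?_⟩
  exact AlgEquiv.restrictNormal_commutes g' M x

end

end Pool.Agent.Q20.SI
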