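import Pool.Agent.Q20.SI.Umd

/-!
# Equivariant functions of the characters are given by the rational group ring
-/

set_option autoImplicit false
set_option linter.unusedSectionVars false

namespace Pool.Agent.Q20.SI

section
variable {G : Type} [Group G] [Fintype G]

/-- the conjugate character -/
noncomputable def cj (σ : ℂ ≃+* ℂ) (χ : G →* ℂˣ) : G →* ℂˣ :=
  (Units.map (σ : ℂ →* ℂ)).comp χ

theorem cj_val (σ : ℂ ≃+* ℂ) (χ : G →* ℂˣ) (g : G) :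
    ((cj σ χ g : ℂˣ) : ℂ) = σ ((χ g : ℂˣ) : ℂ) := rfl

theorem cj_cj (σ τ : ℂ ≃+* ℂ) (χ : G →* ℂˣ) : cj σ (cj τ χ) = cj (τ.trans σ) χ := rfl

theorem cj_refl (χ : G →* ℂˣ) : cj (RingEquiv.refl ℂ) χ = χ := by
  ext g
  rfl

theorem cj_symm (σ : ℂ ≃+* ℂ) (χ : G →* ℂˣ) : cj σ.symm (cj σ χ) = χ := by
  ext g
  rw [cj_val, cj_val, RingEquiv.symm_apply_apply]

theorem cj_symm' (σ : ℂ ≃+* ℂ) (χ : G →* ℂˣ) : cj σ (cj σ.symm χ) = χ := by
  ext g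
  rw [cj_val, cj_val, RingEquiv.apply_symm_apply]

/-- conjugation as a permutation of the characters -/
noncomputable def cjE (σ : ℂ ≃+* ℂ) : (G →* ℂˣ) ≃ (G →* ℂˣ) where
  toFun := cj σ
  invFun := cj σ.symm
  left_inv := cj_symm σ
  right_inv := cj_symm' σ

instance finite_chars : Finite (G →* ℂˣ) := by
  let f : (G →* ℂˣ) → (G → rootsOfUnity (Fintype.card G) ℂ) := fun χ g =>
    ⟨χ g, by rw [mem_rootsOfUnity, ← map_pow, pow_card_eq_one, map_one]⟩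
  refine Finite.of_injective f fun χ χ' h => ?_
  ext g
  have h1 := congrFun h g
  exact congrArg (fun z : rootsOfUnity (Fintype.card G) ℂ => ((z : ℂˣ) : ℂ)) h1

noncomputable instance : Fintype (G →* ℂˣ) := Fintype.ofFinite _

theorem orth (χ χ' : G →* ℂˣ) : ∑ g, ((χ g : ℂˣ) : ℂ) * (((χ' g : ℂˣ) : ℂ))⁻¹ =
    if χ = χ' then (Fintype.card G : ℂ) else 0 := by
  classical
  by_cases h : χ = χ'
  · subst h
    rw [if_pos rfl]
    have h1 : ∀ g : G, ((χ g : ℂˣ) : ℂ) * (((χ g : ℂˣ) : ℂ))⁻¹ = 1 := fun g =>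
      mul_inv_cancel₀ (Units.ne_zero _)
    rw [Finset.sum_congr rfl fun g _ => h1 g, Finset.sum_const, Finset.card_univ, nsmul_eq_mul,
      mul_one]
  · rw [if_neg h]
    obtain ⟨g₀, hg₀⟩ : ∃ g, χ g ≠ χ' g := by
      by_contra hn
      push Not at hn
      exact h (MonoidHom.ext hn)
    let ψ : G → ℂ := fun g => ((χ g : ℂˣ) : ℂ) * (((χ' g : ℂˣ) : ℂ))⁻¹
    have hψ : ∀ a b, ψ (a * b) = ψ a * ψ b := by
      intro a b
      change ((χ (a * b) : ℂˣ) : ℂ) * (((χ' (a * b) : ℂˣ) : ℂ))⁻¹ = _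
      rw [map_mul, map_mul, Units.val_mul, Units.val_mul, mul_inv]
      change _ = (((χ a : ℂˣ) : ℂ) * (((χ' a : ℂˣ) : ℂ))⁻¹) * (((χ b : ℂˣ) : ℂ) * (((χ' b : ℂˣ) : ℂ))⁻¹)
      ring
    have h1 : ψ g₀ * ∑ g, ψ g = ∑ g, ψ g := by
      rw [Finset.mul_sum]
      refine Finset.sum_equiv (Equiv.mulLeft g₀) (fun _ => by simp) fun g _ => ?_
      exact (hψ g₀ g).symm
    have h2 : (ψ g₀ - 1) * ∑ g, ψ g = 0 := by rw [sub_mul, one_mul, h1, sub_self]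
    refine (mul_eq_zero.1 h2).resolve_left fun h3 => hg₀ ?_
    have h4 : ((χ g₀ : ℂˣ) : ℂ) * (((χ' g₀ : ℂˣ) : ℂ))⁻¹ = 1 := sub_eq_zero.1 h3
    exact Units.ext ((mul_inv_eq_one₀ (Units.ne_zero _)).1 h4)

/-- numbers fixed by all automorphisms are rational -/
theorem rat_of_fixed {z : ℂ} (h : ∀ σ : ℂ ≃+* ℂ, σ z = z) : ∃ q : ℚ, (q : ℂ) = z := by
  by_contra hn
  have h1 : z ∉ (algebraMap ℚ ℂ).fieldRange := by
    rintro ⟨q, hq⟩
    exact hn ⟨q, hq⟩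
  obtain ⟨σ, -, hz⟩ := Pool.Agent.TH119.MX.exists_move h1
  exact hz (h σ)

/-- **Equivariant functions** of the characters -/
theorem fourier (c : (G →* ℂˣ) → ℂ) (hc : ∀ (σ : ℂ ≃+* ℂ) χ, c (cj σ χ) = σ (c χ)) :
    ∃ a : G → ℚ, ∀ χ, c χ = ∑ g, (a g : ℂ) * ((χ g : ℂˣ) : ℂ) := by
  classical
  have h1 : ∀ g : G, ∃ q : ℚ, (q : ℂ) =
      (Fintype.card G : ℂ)⁻¹ * ∑ χ, c χ * (((χ g : ℂˣ) : ℂ))⁻¹ := by
    intro g
    refine rat_of_fixed fun σ => ?_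
    rw [map_mul, map_inv₀, map_natCast, map_sum]
    congr 1
    refine Finset.sum_equiv (cjE σ) (fun _ => by simp) fun χ _ => ?_
    change _ = c (cj σ χ) * (((cj σ χ g : ℂˣ) : ℂ))⁻¹
    rw [hc, cj_val, map_mul, map_inv₀]
  choose a ha using h1
  refine ⟨a, fun χ => ?_⟩
  have hG : (Fintype.card G : ℂ) ≠ 0 := by exact_mod_cast Fintype.card_ne_zero
  have h2 : ∀ g, (a g : ℂ) * ((χ g : ℂˣ) : ℂ) = (Fintype.card G : ℂ)⁻¹ *
      ∑ χ', c χ' * (((χ g : ℂˣ) : ℂ) * (((χ' g : ℂˣ) : ℂ))⁻¹) := by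
    intro g
    rw [ha, mul_assoc, Finset.sum_mul]
    congr 1
    refine Finset.sum_congr rfl fun χ' _ => ?_
    ring
  rw [Finset.sum_congr rfl fun g _ => h2 g, ← Finset.mul_sum, Finset.sum_comm]
  have h3 : ∀ χ', ∑ g, c χ' * (((χ g : ℂˣ) : ℂ) * (((χ' g : ℂˣ) : ℂ))⁻¹) =
      if χ = χ' then c χ' * Fintype.card G else 0 := by
    intro χ'
    rw [← Finset.mul_sum, orth]
    split_ifs
    · rfl
    · rw [mul_zero]
  rw [Finset.sum_congr rfl fun χ' _ => h3 χ', Finset.sum_ite_eq, if_pos (Finset.mem_univ _)]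
  field_simp

end

end Pool.Agent.Q20.SI
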