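import Pool.Agent.Q20.SI.Sub1

/-!
# Project SI: the field of a linear character
-/

set_option autoImplicit false
set_option linter.unusedSectionVars false

namespace Pool.Agent.Q20.SI

open NumberField IsDedekindDomain Pool.Agent.Q20.RS

/-- JOB KER. The field `M` of a smooth linear character `ψ` of `Gal(K̄/E')`: `ψ` is the inflation of an
injective character `χ` of `Gal(M/E)`, `E` is (isomorphic to) `E'`.
PROOF. Let `ψ` be trivial on `Gal(K̄/E₀)` and `N ⊇ E', E₀` finite and normal over `K`. `E = sb N E'` (`RS/Lvd.lean`;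
the field `E'` inside `N`; `rF (mt_sb hle)` in `RS/Lvl.lean`, `RS/Evt.lean` is the surjection
`Gal(K̄/E') → Gal(N/E)` with kernel `Gal(K̄/N)`), so `ψ = ψ_N ∘ rF`. `M` is the subfield of `N` fixed by the kernel
of `ψ_N`, `Gal(M/E) = Gal(N/E)/ker ψ_N` (`IsGalois.normalAutEquivQuotient` or
`AlgEquiv.restrictNormalHom_surjective` and the fixing subgroup), `j` = inclusion. Last clause: restrict
elements of `Gal(K̄/E')`. (`E := ↥E'` and `M ⊆ K̄` the fixed field of the kernel is another possibility.) -/
def S_KER : Prop :=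
  ∀ (K : Type) [Field K] [NumberField K] (E' : RS.Sub K), FinExt E' → ∀ ψ : RL.Lin E', ψ.smooth →
    ∃ (E M : Type) (_ : Field E) (_ : NumberField E) (_ : Field M) (_ : NumberField M)
      (_ : Algebra K E) (_ : Algebra K M) (_ : Algebra E M) (_ : IsScalarTower K E M)
      (_ : IsGalois E M) (j : M →ₐ[K] AlgebraicClosure K) (χ : (M ≃ₐ[E] M) →* ℂˣ),
      (∀ z, z ∈ E' ↔ ∃ x : E, j (algebraMap E M x) = z) ∧
      Infl (E' := E') j ψ.fn (cf χ) ∧ Function.Injective χ ∧
      ∀ y : M ≃ₐ[E] M, ∃ g : GalF E', ∀ x : M, j (y x) = (g : Gal(AlgebraicClosure K/K)) (j x)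

/-- JOB UNK. The field of an everywhere unramified character is unramified.
PROOF. Let `v` be ramified in `M`. There is a prime `P` of `M` above `v` with nontrivial inertia group, so
`χ y ≠ 1` for an inertia element `y` at `P` (`χ` is injective). For every finite normal `N ⊇ j(M)` there is
a prime `w` of `N` above `P` and an inertia element at `w` which restricts to `y` (inertia groups of a
tower of finite Galois extensions: the map is surjective, by counting `e = e' e''`, or because the field
fixed by the inertia group is the largest unramified one; look for it in `Pool/Agent/Q280/AR` (`unr`),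
`Pool/Agent/Q20/EX/Abs3.lean` (`ar_anti`, `ar_of_ramAt`), `Pool/Agent/Q53/EX`).
`Pool.Agent.Q20.EX.lift_ram` (`Pool/Agent/Q20/EX/Abs2.lean`) gives `g ∈ Gal(K̄/E')`, inertia element at a place
of `K̄`, with `ψ g ≠ 1`, in contradiction to `ψ.unram` (`Ine`, `Inr` and `IsPl`, `Plc` are the same). -/
def S_UNK : Prop :=
  ∀ (K E M : Type) [Field K] [NumberField K] [Field E] [NumberField E] [Field M] [NumberField M]
    [Algebra K E] [Algebra K M] [Algebra E M] [IsScalarTower K E M] [IsGalois E M]
    (E' : RS.Sub K), FinExt E' → ∀ (j : M →ₐ[K] AlgebraicClosure K),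
    (∀ z, z ∈ E' ↔ ∃ x : E, j (algebraMap E M x) = z) →
    ∀ (ψ : RL.Lin E'), ψ.smooth → ∀ χ : (M ≃ₐ[E] M) →* ℂˣ, Infl (E' := E') j ψ.fn (cf χ) →
    Function.Injective χ → ψ.unram → ∀ v : HeightOneSpectrum (𝓞 E), Unrm M v

end Pool.Agent.Q20.SI
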