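import Pool.Agent.Q20.SI.Stm3

/-!
# Project SI: the regulator of the trivial character
-/

set_option autoImplicit false
set_option linter.unusedSectionVars false

namespace Pool.Agent.Q20.SI

open NumberField IsDedekindDomain Pool.Agent.Q20.RS

/-- JOB RGT. `S_REG` for the trivial character: `w_i` are representatives of all orbits but one (the orbit
of `v₀`) of the places in `T` and of the archimedean places.
PROOF. As for `S_REG` (`Pool/Agent/Q176/SI`): for `n = 1` `HomD ρ X` is `W = (XC T)^G`, the functions constant on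
orbits. `y_j = [w_j] - [v₀]`, `x_j = ∑_g g y_j ∈ W`, `x_j(w_i) = δ_ij |D_i|`; an element of `W` which vanishes at
the `w_i` vanishes at `v₀` (sum zero), so the `x_j` are a basis of `W`; `θ y_j` is a `LogUnit`:
`m_j (θ y_j)(w) = - logv α_j w`, `θ x_j (w_i) = ∑_g (θ y_j)(g⁻¹ w_i) = - m_j⁻¹ ell 1 α_j w_i`. -/
def S_RGT : Prop :=
  ∀ (F M : Type) [Field F] [NumberField F] [Field M] [NumberField M] [Algebra F M] [IsGalois F M]
    (T : Finset (HeightOneSpectrum (𝓞 M))) (hT : Stable F T) (θ : StarkMap hT)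
    (ι : Type) [Fintype ι] [DecidableEq ι] (w : ι → Pl M) (v₀ : Pl M),
    InPl T v₀ → (∀ i, InPl T (w i)) → (∀ i, ∀ g : M ≃ₐ[F] M, pact g (w i) ≠ v₀) →
    (∀ (i j : ι) (g : M ≃ₐ[F] M), pact g (w i) = w j → i = j) →
    (∀ v, InPl T v → (∃ g : M ≃ₐ[F] M, pact g v₀ = v) ∨ ∃ i, ∃ g : M ≃ₐ[F] M, pact g (w i) = v) →
    ∃ (q : ℚ) (α : ι → M), q ≠ 0 ∧ (∀ j, IsUnt T (α j)) ∧
      ∀ (n : ℕ) (ρ : Representation ℂ (M ≃ₐ[F] M) (Fin n → ℂ)), (∀ g, ρ.character g = 1) →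
        regul ρ (XRep hT) θ.map = (q : ℂ) * (ellM (1 : (M ≃ₐ[F] M) →* ℂˣ) α w).det

end Pool.Agent.Q20.SI
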