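import Pool.Agent.Q20.SI.Row2b
import Pool.Agent.Q20.SI.Stm4

/-!
# The trivial character: the class number formula at `s = 0`
-/

set_option autoImplicit false
set_option linter.unusedSectionVars false

namespace Pool.Agent.Q20.SI

open NumberField IsDedekindDomain Pool.Agent.Q20.RS
open Pool.Agent.Q20.TR (bt)

section
variable {E M : Type} [Field E] [NumberField E] [Field M] [NumberField M] [Algebra E M]

theorem unrm_self (v : HeightOneSpectrum (𝓞 E)) : Unrm (F := E) E v := by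
  intro w hw h
  have h1 : w = v := by
    rw [← hw]
    exact HeightOneSpectrum.ext (Ideal.comap_id w.asIdeal).symm
  subst h1
  have h2 : w.asIdeal ≤ w.asIdeal ^ 2 := fun x hx => h (Ideal.mem_map_of_mem _ hx)
  have h3 : w.asIdeal ^ 2 < w.asIdeal ^ 1 := by
    refine Ideal.pow_right_strictAnti _ w.ne_bot w.isPrime.ne_top (by norm_num)
  rw [pow_one] at h3
  exact h3.not_ge h2

theorem stable_self (T : Finset (HeightOneSpectrum (𝓞 E))) : Stable E T := by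
  intro g w hw
  have h : g = 1 := by
    ext x
    exact g.commutes x
  rw [h, pra_one]
  exact hw

theorem contains_self (T : Finset (HeightOneSpectrum (𝓞 E))) : ContainsRamified E T :=
  fun v hv => absurd (unrm_self v) hv

/-- the primes below -/
theorem mem_image [IsGalois E M] (hORB : S_ORB) {T : Finset (HeightOneSpectrum (𝓞 M))}
    (hT : Stable E T) [DecidableEq (HeightOneSpectrum (𝓞 E))] (P : HeightOneSpectrum (𝓞 M)) :
    P ∈ T ↔ P.under (𝓞 E) ∈ T.image fun P => P.under (𝓞 E) := by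
  constructor
  · intro h
    exact Finset.mem_image_of_mem _ h
  · intro h
    by_contra hP
    obtain ⟨R, hR, hRP⟩ := Finset.mem_image.1 h
    exact not_inS hORB hT hP ⟨R, hR, hRP⟩

theorem triv_lead [IsGalois E M] (hORB : S_ORB) (hLFN : S_LFN) (hCN0 : S_CN0)
    {T : Finset (HeightOneSpectrum (𝓞 M))} (hT : Stable E T) (hR : ContainsRamified E T)
    [DecidableEq (HeightOneSpectrum (𝓞 E))] {χ : (M ≃ₐ[E] M) → ℂ} (hχ : ∀ g, χ g = 1) :
    ∃ q : ℚ, q ≠ 0 ∧ leading T χ = (q : ℂ) * ((Units.regulator E : ℝ) : ℂ) *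
      ∏ v ∈ T.image (fun P => P.under (𝓞 E)), ((Real.log (Ideal.absNorm v.asIdeal) : ℝ) : ℂ) := by
  obtain ⟨q, hq, h1⟩ := hCN0 E
  refine ⟨q, hq, ?_⟩
  have h2 := hLFN E E M (fun a b => by
      have h3 : ∀ g : E ≃ₐ[E] E, g = 1 := fun g => by
        ext x
        exact g.commutes x
      rw [h3 a, h3 b]) ∅ T (stable_self ∅) (contains_self ∅) hT hR (fun v hv => by
      obtain ⟨w, hw, -⟩ := hv
      exact absurd hw (Finset.notMem_empty w)) 1 (T.image fun P => P.under (𝓞 E)) (fun v => by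
      rw [Finset.mem_image]
      constructor
      · intro h
        exact ⟨h, fun ⟨w, hw, _⟩ => absurd hw (Finset.notMem_empty w)⟩
      · intro h
        exact h.1)
  have h3 : cf (up M (1 : (E ≃ₐ[E] E) →* ℂˣ)) = χ := by
    funext g
    rw [hχ]
    rfl
  have h4 : cf (1 : (E ≃ₐ[E] E) →* ℂˣ) = fun _ => 1 := by
    funext g
    rfl
  rw [h3, h4, h1] at h2
  rw [h2]
  congr 1
  refine Finset.prod_congr rfl fun v _ => ?_
  exact if_pos rfl

theorem triv_reg [IsGalois E M] (hORB : S_ORB) (hEXI : S_EXI) (hRGA : S_RGA) (hRGB : S_RGB)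
    {T : Finset (HeightOneSpectrum (𝓞 M))} {hT : Stable E T} (θ : StarkMap hT)
    [DecidableEq (HeightOneSpectrum (𝓞 E))] (n : ℕ)
    (ρ : Representation ℂ (M ≃ₐ[E] M) (Fin n → ℂ)) (hρ : ∀ g, ρ.character g = 1) :
    ∃ q : ℚ, q ≠ 0 ∧ regul ρ (XRep hT) θ.map = (q : ℂ) * ((Units.regulator E : ℝ) : ℂ) *
      ∏ v ∈ T.image (fun P => P.under (𝓞 E)), ((Real.log (Ideal.absNorm v.asIdeal) : ℝ) : ℂ) := by
  obtain ⟨θ₀⟩ := hEXI E E (T.image fun P => P.under (𝓞 E)) (stable_self _)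
  obtain ⟨q, hq, h1⟩ := hRGA E _ (stable_self _) θ₀ 1 (linRep 1) (linRep_char _)
  obtain ⟨q', hq', h2⟩ := hRGB E M T hT θ _ (stable_self _) θ₀ (mem_image hORB hT) n ρ hρ 1
    (linRep 1) (linRep_char _)
  refine ⟨q' * q, mul_ne_zero hq' hq, ?_⟩
  rw [h2, h1]
  push_cast
  ring

theorem reg_log_ne {S : Finset (HeightOneSpectrum (𝓞 E))} :
    ((Units.regulator E : ℝ) : ℂ) *
      ∏ v ∈ S, ((Real.log (Ideal.absNorm v.asIdeal) : ℝ) : ℂ) ≠ 0 := by
  refine mul_ne_zero ?_ (Finset.prod_ne_zero_iff.2 fun v _ => ?_)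
  · exact_mod_cast (Units.regulator_pos E).ne'
  · have h3 : (1 : ℝ) < (Ideal.absNorm v.asIdeal : ℝ) := by
      exact_mod_cast NumberField.HeightOneSpectrum.one_lt_absNorm v
    exact_mod_cast (Real.log_pos h3).ne'

/-- Stark's number of the trivial character is rational -/
theorem triv_stark [IsGalois E M] (hORB : S_ORB) (hEXI : S_EXI) (hLFN : S_LFN) (hCN0 : S_CN0)
    (hRGA : S_RGA) (hRGB : S_RGB) {T : Finset (HeightOneSpectrum (𝓞 M))} {hT : Stable E T}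
    (hR : ContainsRamified E T) (θ : StarkMap hT) (n : ℕ)
    (ρ : Representation ℂ (M ≃ₐ[E] M) (Fin n → ℂ)) (hρ : ∀ g, ρ.character g = 1) :
    ∃ q : ℚ, starkA θ ρ = (q : ℂ) := by
  classical
  obtain ⟨q, hq, h1⟩ := triv_lead hORB hLFN hCN0 hT hR hρ
  obtain ⟨q', hq', h2⟩ := triv_reg hORB hEXI hRGA hRGB θ n ρ hρ
  refine ⟨q' / q, ?_⟩
  have hn := reg_log_ne (E := E) (S := T.image fun P => P.under (𝓞 E))
  have hqc : (q : ℂ) ≠ 0 := by exact_mod_cast hq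
  unfold starkA
  rw [h1, h2, mul_assoc, mul_assoc, mul_div_mul_right _ _ hn]
  push_cast
  rfl

/-- the trivial character in the data -/
theorem good_triv [IsGalois E M] (hORB : S_ORB) (hEXI : S_EXI) (hLFN : S_LFN) (hCN0 : S_CN0)
    (hRGA : S_RGA) (hRGB : S_RGB) (hRGT : S_RGT) (D : OrderData E M)
    {χ : (M ≃ₐ[E] M) →* ℂˣ} (hex : D.Exact χ) (hχ : ∀ g, χ g = 1) : Good D χ := by
  classical
  have hT := stable_abv hORB (K := M) D.S
  have hR := ram_abv hORB D.ram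
  have hχ1 : χ = 1 := MonoidHom.ext hχ
  subst hχ1
  obtain ⟨⟨g, hg⟩, -⟩ | ⟨-, v₀, hv₀⟩ := hex
  · exact absurd (hχ g) hg
  obtain ⟨v, hv, g₁, hg₁, hg₁'⟩ := D.more
  have hns : ∀ (i : Fin D.r) (g : M ≃ₐ[E] M), pact g (D.w i) ≠ v := by
    rintro i g rfl
    refine hg₁' ?_
    have h1 : pact (g⁻¹ * g₁ * g) (D.w i) = D.w i := by
      rw [pact_mul, pact_mul, hg₁, ← pact_mul, inv_mul_cancel, pact_one]
    have h2 := D.split i _ h1
    have h3 : g₁ = g * (g⁻¹ * g₁ * g) * g⁻¹ := by group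
    rw [h3, h2, mul_one, mul_inv_cancel]
  obtain ⟨g₀, hg₀⟩ : ∃ g : M ≃ₐ[E] M, pact g v₀ = v := by
    rcases hv₀ v hv with h | ⟨i, g, h⟩
    · exact h
    · exact absurd h (hns i g)
  have hv₀' : v₀ = pact g₀⁻¹ v := by
    rw [← hg₀, ← pact_mul, inv_mul_cancel, pact_one]
  have hin : InPl (abv M D.S) v₀ := by
    rw [hv₀']
    exact inPl_pact hT _ hv
  obtain ⟨θ⟩ := hEXI E M (abv M D.S) hT
  obtain ⟨q, α, hq, hα, hreg⟩ := hRGT E M (abv M D.S) hT θ (Fin D.r) D.w v₀ hin D.mem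
    (fun i g h => hns i (g₀ * g) (by rw [pact_mul, h, hg₀])) D.dist hv₀
  obtain ⟨q₁, hq₁, h1⟩ := triv_lead (M := M) hORB hLFN hCN0 hT hR
    (χ := cf (1 : (M ≃ₐ[E] M) →* ℂˣ)) (fun _ => rfl)
  obtain ⟨q₂, hq₂, h2⟩ := triv_reg hORB hEXI hRGA hRGB θ 1 (linRep 1) (linRep_char _)
  have h3 := hreg 1 (linRep 1) (linRep_char _)
  rw [h2] at h3
  have hn := reg_log_ne (E := E) (S := (abv M D.S).image fun P => P.under (𝓞 E))
  have hqc : (q : ℂ) ≠ 0 := by exact_mod_cast hq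
  have hq1c : (q₁ : ℂ) ≠ 0 := by exact_mod_cast hq₁
  have hq2c : (q₂ : ℂ) ≠ 0 := by exact_mod_cast hq₂
  have hcj : ∀ σ : ℂ ≃+* ℂ, cj σ (1 : (M ≃ₐ[E] M) →* ℂˣ) = 1 := by
    intro σ
    ext g
    exact map_one σ
  have hd0 : (ellM (1 : (M ≃ₐ[E] M) →* ℂˣ) α D.w).det ≠ 0 := by
    intro h0
    rw [h0, mul_zero, mul_assoc] at h3
    exact mul_ne_zero hq2c hn h3
  have hrat : (ellM (1 : (M ≃ₐ[E] M) →* ℂˣ) α D.w).det / lead D.S (1 : (M ≃ₐ[E] M) →* ℂˣ) =
      (q₂ : ℂ) / q / q₁ := by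
    unfold lead
    rw [h1]
    rw [mul_assoc] at h3 ⊢
    rw [div_eq_div_iff (mul_ne_zero hq1c hn) hq1c]
    have h4 : (ellM (1 : (M ≃ₐ[E] M) →* ℂˣ) α D.w).det = (q₂ : ℂ) / q *
        (((Units.regulator E : ℝ) : ℂ) * ∏ v ∈ (abv M D.S).image fun P => P.under (𝓞 E),
          ((Real.log (Ideal.absNorm v.asIdeal) : ℝ) : ℂ)) := by
      field_simp
      linear_combination -h3
    rw [h4]
    ring
  refine ⟨α, hα, fun σ => ?_, fun σ => ?_⟩
  · rw [hcj]
    exact hd0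
  · rw [hcj, hrat, map_div₀, map_div₀, map_ratCast, map_ratCast, map_ratCast]

end

end Pool.Agent.Q20.SI
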