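import Pool.Agent.Q20.SI.Odd
import Pool.Agent.Q20.SI.Triv
import Pool.Agent.Q20.SI.Stm5

/-!
# Stark's rational conjecture over totally real fields from the unramified case
-/

set_option autoImplicit false
set_option linter.unusedSectionVars false

namespace Pool.Agent.Q20.SI

open NumberField IsDedekindDomain Pool.Agent.Q20.RS
open Pool.Agent.Q20.RS.RL (StarkEq TotReal)
open Pool.Agent.Q20.TR (bt)

section
variable {K : Type} [Field K] [NumberField K]

theorem starkEq_of_level {E' : RS.Sub K} {χ : Fn E'} {σ : ℂ ≃+* ℂ}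
    (h : ∃ N₀ : IntermediateField K (AlgebraicClosure K), FiniteDimensional K N₀ ∧
      ∀ ℓ : Level K, N₀ ≤ ℓ.N → σ (ℓ.A (F₀ := E') χ) = ℓ.A (F₀ := E') fun g => σ (χ g)) :
    StarkEq χ σ := by
  obtain ⟨N₀, h1, h2⟩ := h
  exact ⟨N₀, h1, fun ℓ hℓ => h2 ℓ.old hℓ⟩

theorem level_of_starkEq {E' : RS.Sub K} {χ : Fn E'} {σ : ℂ ≃+* ℂ} (h : StarkEq χ σ) :
    ∃ N₀ : IntermediateField K (AlgebraicClosure K), FiniteDimensional K N₀ ∧
      ∀ ℓ : Level K, N₀ ≤ ℓ.N → σ (ℓ.A (F₀ := E') χ) = ℓ.A (F₀ := E') fun g => σ (χ g) := by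
  obtain ⟨N₀, h1, h2⟩ := h
  exact ⟨N₀, h1, fun ℓ hℓ => h2 ℓ.new hℓ⟩

/-- the trivial character -/
theorem triv_starkEq (hORB : S_ORB) (hEXI : S_EXI) (hLFN : S_LFN) (hCN0 : S_CN0)
    (hRGA : S_RGA) (hRGB : S_RGB) {E' : RS.Sub K} (hE : FinExt E') {χ : Fn E'}
    (h : ∀ g, χ g = 1) (σ : ℂ ≃+* ℂ) : StarkEq χ σ := by
  refine starkEq_of_level ⟨E', hE, fun ℓ hℓ => ?_⟩
  have hfd : FiniteDimensional K E' := hE
  have hn : NumberField E' := NumberField.of_module_finite K E'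
  let A : Algebra E' ℓ.N := (IntermediateField.inclusion hℓ).toRingHom.toAlgebra
  have t : IsScalarTower K E' ℓ.N := IsScalarTower.of_algebraMap_eq fun x => rfl
  have hG : IsGalois E' ℓ.N := IsGalois.tower_top_of_isGalois K E' ℓ.N
  have h1 := A_sub (E := E') (E' := E') ℓ (i := fun x => (x : AlgebraicClosure K)) (fun x => rfl)
    (fun z => ⟨fun hz => ⟨⟨z, hz⟩, rfl⟩, fun ⟨x, hx⟩ => hx ▸ x.2⟩) (χ := χ)
    (linRep (1 : (ℓ.N ≃ₐ[E'] ℓ.N) →* ℂˣ)) (fun y g _ => by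
      rw [linRep_char]
      exact (h g).symm)
  have h2 : (fun g => σ (χ g)) = χ := by
    funext g
    rw [h, map_one]
  obtain ⟨q, hq⟩ := triv_stark (E := E') (M := ℓ.N) hORB hEXI hLFN hCN0 hRGA hRGB
    (ℓ.ram.tower ℓ.stable) (ℓ.θ.res (F := E') ℓ.stable.tower) 1 (linRep 1)
    (fun g => by rw [linRep_char]; rfl)
  rw [h2, h1, hq, map_ratCast]

/-- inflation of a linear character -/
theorem exists_infl {E M : Type} [Field E] [NumberField E] [Field M] [NumberField M]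
    [Algebra E M] [Algebra K E] [Algebra K M] [IsScalarTower K E M] [IsGalois E M]
    {E' : RS.Sub K} (j : M →ₐ[K] AlgebraicClosure K)
    (hm : ∀ z, z ∈ E' ↔ ∃ x : E, j (algebraMap E M x) = z) (χ : (M ≃ₐ[E] M) →* ℂˣ) :
    ∃ ψ : RL.Lin E', Infl (E' := E') j ψ.fn (cf χ) ∧ ψ.smooth := by
  choose f hf using fun g : E'.fixingSubgroup => exists_restr j hm g
  have huniq : ∀ (a b : M ≃ₐ[E] M), (∀ x, j (a x) = j (b x)) → a = b := by
    intro a b h
    ext x
    exact j.injective (h x)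
  let f' : E'.fixingSubgroup →* (M ≃ₐ[E] M) := MonoidHom.mk' f fun g h => huniq _ _ fun x => by
    have h1 : j ((f g * f h) x) = j (f g (f h x)) := rfl
    rw [h1, hf, hf, hf]
    rfl
  have hfd : FiniteDimensional K M := inferInstance
  have hfr : FiniteDimensional K j.fieldRange :=
    (AlgEquiv.ofInjectiveField j).toLinearEquiv.finiteDimensional
  refine ⟨(χ.comp f' : E'.fixingSubgroup →* ℂˣ), fun y g hy => ?_, j.fieldRange, hfr,
    fun g hg => ?_⟩
  · have h1 : y = f g := huniq _ _ fun x => by rw [hy, hf]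
    rw [h1]
    rfl
  · have h1 : f g = 1 := huniq _ _ fun x => by
      rw [hf]
      exact (IntermediateField.mem_fixingSubgroup_iff _ _).1 hg _ ⟨x, rfl⟩
    change χ (f g) = 1
    rw [h1, map_one]

/-- the trivial group -/
theorem surj_of_triv {E M : Type} [Field E] [NumberField E] [Field M] [NumberField M]
    [Algebra E M] [IsGalois E M] (h : ∀ y : M ≃ₐ[E] M, y = 1) (x : M) :
    ∃ e : E, algebraMap E M e = x := by
  have h1 : x ∈ (⊥ : IntermediateField E M) :=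
    (IsGalois.mem_bot_iff_fixed x).2 fun g => by rw [h g]; rfl
  exact IntermediateField.mem_bot.1 h1

/-- the unramified characters -/
theorem unram_starkEq (hCMP : S_CMP) (hREG : S_REG) (hORB : S_ORB) (hEXI : S_EXI)
    (hRAM : S_RAM) (hLFN : S_LFN) (hCN0 : S_CN0) (hRGA : S_RGA) (hRGB : S_RGB) (hNSP : S_NSP)
    (hAUX : S_AUX) (hKER : S_KER) (hUNK : S_UNK) (hU : UnramifiedCase K) {E' : RS.Sub K}
    (hE : FinExt E') {ψ : RL.Lin E'} (hψ : ψ.smooth) (hu : ψ.unram) (σ : ℂ ≃+* ℂ) :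
    StarkEq ψ.fn σ := by
  classical
  by_cases htr : ∀ g, ψ.fn g = 1
  · exact triv_starkEq hORB hEXI hLFN hCN0 hRGA hRGB hE htr σ
  obtain ⟨E, M, _, _, _, _, _, _, _, _, _, j, χ, hm, hinf, hinj, -⟩ := hKER K E' hE ψ hψ
  have hnt : ∃ y, χ y ≠ 1 := by
    by_contra hn
    push Not at hn
    refine htr fun g => ?_
    have h1 : ∀ y : M ≃ₐ[E] M, y = 1 := fun y => hinj ((hn y).trans (map_one χ).symm)
    have h2 := hinf 1 g fun x => by
      obtain ⟨e, rfl⟩ := surj_of_triv h1 x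
      have h3 : j (algebraMap E M e) ∈ E' := (hm _).2 ⟨e, rfl⟩
      exact ((IntermediateField.mem_fixingSubgroup_iff _ _).1 g.2 _ h3).symm
    rw [← h2]
    unfold cf
    rw [map_one, Units.val_one]
  have hur := hUNK K E M E' hE j hm ψ hψ χ hinf hinj hu
  obtain ⟨y, hy⟩ := hnt
  obtain ⟨P, -, hP⟩ := hNSP E M y ∅
  obtain ⟨D, -, hex⟩ := exists_data hAUX {P.under (𝓞 E)} (fun p hp => absurd (hur p) hp) hinj
    ⟨.inl P, mem_abv.2 (Finset.mem_singleton_self _), y, congrArg Sum.inl hP, fun h => hy (by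
      rw [h, map_one])⟩
  have hcyc : IsCyclic (M ≃ₐ[E] M) := by
    refine isCyclic_of_injective_ringHom ((Units.coeHom ℂ).comp χ) ?_
    intro a b h
    exact hinj (Units.ext h)
  have hQ := hU E M D hcyc hur
  exact starkEq_of_level (stark_of_q1 D hCMP hREG hORB hEXI hRAM hQ hex ⟨y, hy⟩ j hm ψ.fn hinf σ)

end

end Pool.Agent.Q20.SI
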