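import Pool.Agent.Q20.SI.Main2

/-!
# The minimal case: characters which are `-1` at the real places
-/

set_option autoImplicit false
set_option linter.unusedSectionVars false

namespace Pool.Agent.Q20.SI

open NumberField IsDedekindDomain Pool.Agent.Q20.RS
open Pool.Agent.Q20.RS.RL (StarkEq TotReal)
open Pool.Agent.Q20.TR (bt)

section
variable {F : Type} [Field F] [NumberField F]

/-- the field of a linear character of `Gal(F̄/F)` -/
theorem kerf_base (hKER : S_KER) (ψ : RL.Lin (base F)) (hψ : ψ.smooth) :
    ∃ (M : Type) (_ : Field M) (_ : NumberField M) (_ : Algebra F M) (_ : IsGalois F M)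
      (j : M →ₐ[F] AlgebraicClosure F) (χ : (M ≃ₐ[F] M) →* ℂˣ),
      Infl (K := F) (E := F) (E' := base F) j ψ.fn (cf χ) ∧ Function.Injective χ := by
  classical
  obtain ⟨E, M, _, _, _, _, _, _, _, _, _, j, χ, hm, hinf, hinj, -⟩ :=
    hKER F (base F) fin_base ψ hψ
  have hsurj : ∀ e : E, ∃ a : F, algebraMap F E a = e := by
    intro e
    obtain ⟨a, ha⟩ := IntermediateField.mem_bot.1 ((hm _).2 ⟨e, rfl⟩)
    have h1 : j (algebraMap E M (algebraMap F E a)) = j (algebraMap E M e) := by
      rw [← IsScalarTower.algebraMap_apply F E M]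
      exact (j.commutes a).trans ha
    exact ⟨a, (algebraMap E M).injective (j.injective h1)⟩
  let up : (M ≃ₐ[F] M) →* (M ≃ₐ[E] M) :=
    { toFun := fun y => AlgEquiv.ofRingEquiv (f := (y : M ≃+* M)) fun e => by
        obtain ⟨a, rfl⟩ := hsurj e
        rw [← IsScalarTower.algebraMap_apply F E M]
        exact y.commutes a
      map_one' := rfl
      map_mul' := fun _ _ => rfl }
  have hup : Function.Bijective up := by
    constructor
    · intro a b h
      ext x
      exact congrArg (fun z : M ≃ₐ[E] M => z x) h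
    · intro y
      refine ⟨AlgEquiv.ofRingEquiv (f := (y : M ≃+* M)) fun a => ?_, ?_⟩
      · rw [IsScalarTower.algebraMap_apply F E M]
        exact y.commutes _
      · ext x
        rfl
  let e : F ≃+* E := RingEquiv.ofBijective (algebraMap F E)
    ⟨(algebraMap F E).injective, hsurj⟩
  have hG : IsGalois F M := by
    refine IsGalois.of_card_aut_eq_finrank F M ?_
    rw [Nat.card_eq_of_bijective up hup, IsGalois.card_aut_eq_finrank]
    exact (Algebra.finrank_eq_of_equiv_equiv e (RingEquiv.refl M) (by
      ext x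
      exact (IsScalarTower.algebraMap_apply F E M x).symm)).symm
  exact ⟨M, inferInstance, inferInstance, inferInstance, hG, j, χ.comp up,
    fun y g hy => hinf (up y) g hy, fun a b h => hup.1 (hinj h)⟩

end

section
variable {E M : Type} [Field E] [NumberField E] [Field M] [NumberField M] [Algebra E M]
  {K : Type} [Field K] [NumberField K] [Algebra K E] [Algebra K M]
  [IsScalarTower K E M] [IsGalois E M] {E' : RS.Sub K}

/-- odd characters at the archimedean places above real places -/
theorem odd_real (j : M →ₐ[K] AlgebraicClosure K)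
    (hm : ∀ z, z ∈ E' ↔ ∃ x : E, j (algebraMap E M x) = z)
    {ψ : RL.Lin E'} {χ : (M ≃ₐ[E] M) →* ℂˣ} (hψ : Infl (E' := E') j ψ.fn (cf χ))
    (ho : ψ.parity (-1)) (v : InfinitePlace M) (hv : (v.comap (algebraMap E M)).IsReal) :
    ¬ Triv χ (.inr v) := by
  let A : Algebra M (AlgebraicClosure K) := j.toRingHom.toAlgebra
  have t : IsScalarTower K M (AlgebraicClosure K) :=
    IsScalarTower.of_algebraMap_eq fun x => (j.commutes x).symm
  let B : Algebra M ℂ := v.embedding.toAlgebra
  have hint : Algebra.IsAlgebraic M (AlgebraicClosure K) :=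
    Algebra.IsAlgebraic.tower_top (K := K) M
  let ι : AlgebraicClosure K →ₐ[M] ℂ := IsAlgClosed.lift
  have hι : ∀ x : M, ι (j x) = v.embedding x := fun x => ι.commutes x
  have hv' : ComplexEmbedding.IsReal (v.embedding.comp (algebraMap E M)) := by
    rw [← InfinitePlace.isReal_mk_iff, ← InfinitePlace.comap_mk, InfinitePlace.mk_embedding]
    exact hv
  have hre : ∀ z ∈ E', (starRingEnd ℂ) (ι z) = ι z := by
    intro z hz
    obtain ⟨x, rfl⟩ := (hm z).1 hz
    rw [hι]
    exact congrArg (fun f : E →+* ℂ => f x) hv'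
  obtain ⟨c₀, hc₀⟩ := Pool.Agent.Q246.RP.exists_conj (K := K) (ι : AlgebraicClosure K →+* ℂ)
    (fun k => hre _ (E'.algebraMap_mem k))
  let c : Gal(AlgebraicClosure K/K) :=
    AlgEquiv.ofBijective c₀ (Algebra.IsAlgebraic.algHom_bijective c₀)
  have hc : ∀ x, (ι : AlgebraicClosure K →+* ℂ) (c x) =
      (starRingEnd ℂ) ((ι : AlgebraicClosure K →+* ℂ) x) := hc₀
  have hcE : c ∈ E'.fixingSubgroup := by
    rw [IntermediateField.mem_fixingSubgroup_iff]
    intro z hz
    have h1 := hc z
    have h2 := hre z hz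
    exact (ι : AlgebraicClosure K →+* ℂ).injective (h1.trans h2)
  obtain ⟨y, hy⟩ := exists_restr j hm ⟨c, hcE⟩
  have h1 : cf χ y = -1 := by
    rw [hψ y ⟨c, hcE⟩ hy]
    exact ho ⟨c, hcE⟩ ⟨ι, hc⟩
  intro ht
  have h2 : ∀ z : M, v (y z) = v z := by
    intro z
    rw [← InfinitePlace.norm_embedding_eq, ← InfinitePlace.norm_embedding_eq, ← hι, hy, ← hι]
    have h3 := hc (j z)
    change ‖ι (c (j z))‖ = _
    have h4 : ι (c (j z)) = (starRingEnd ℂ) (ι (j z)) := h3
    rw [h4, RCLike.norm_conj]
  have h3 : pact y (.inr v : Pl M) = .inr v := by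
    refine congrArg Sum.inr ?_
    ext x
    rw [InfinitePlace.smul_apply, ← h2]
    congr 1
    exact y.apply_symm_apply x
  have h4 := ht y h3
  unfold cf at h1
  rw [h4] at h1
  norm_num at h1

/-- the archimedean places above complex places -/
theorem triv_complex (χ : (M ≃ₐ[E] M) →* ℂˣ) (v : InfinitePlace M)
    (hv : (v.comap (algebraMap E M)).IsComplex) : Triv χ (.inr v) := by
  intro g hg
  have h1 : g • v = v := Sum.inr_injective hg
  have h2 := (InfinitePlace.isUnramified_iff.2 (Or.inr hv) :
    InfinitePlace.IsUnramified E v).stabilizer_eq_bot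
  have h3 : g ∈ MulAction.stabilizer (M ≃ₐ[E] M) v := h1
  rw [h2, Subgroup.mem_bot] at h3
  rw [h3, map_one]

/-- the number of split places if these are the complex places -/
theorem r_eq (hORB : S_ORB) (D : OrderData E M) {χ : (M ≃ₐ[E] M) →* ℂˣ}
    (hχ : Function.Injective χ)
    (h : ∀ v : Pl M, InPl (abv M D.S) v → Triv χ v →
      ∃ v' : InfinitePlace M, v = .inr v' ∧ (v'.comap (algebraMap E M)).IsComplex) :
    D.r = InfinitePlace.nrComplexPlaces E := by
  classical
  have h1 : ∀ i, ∃ v' : InfinitePlace M, D.w i = .inr v' ∧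
      (v'.comap (algebraMap E M)).IsComplex := fun i => h _ (D.mem i) fun g hg => by
    rw [D.split i g hg, map_one]
  choose v hv hvc using h1
  let f : Fin D.r → {w : InfinitePlace E // w.IsComplex} := fun i => ⟨_, hvc i⟩
  have hf : Function.Bijective f := by
    constructor
    · intro i k hik
      have h2 : (v i).comap (algebraMap E M) = (v k).comap (algebraMap E M) :=
        congrArg Subtype.val hik
      obtain ⟨-, -, h3, -⟩ := hORB E E M
      obtain ⟨g, -, hg⟩ := h3 (.inr (v i)) (.inr (v k)) (congrArg Sum.inr h2)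
      rw [← hv, ← hv] at hg
      exact D.dist i k g hg
    · rintro ⟨w, hw⟩
      obtain ⟨w', rfl⟩ := InfinitePlace.comap_surjective (K := M) w
      have h2 := triv_complex χ w' hw
      obtain ⟨i, g, hg⟩ := D.all (.inr w') trivial fun g hg => hχ (by rw [h2 g hg, map_one])
      refine ⟨i, Subtype.ext ?_⟩
      change (v i).comap (algebraMap E M) = w'.comap (algebraMap E M)
      rw [hv] at hg
      obtain ⟨-, h4, -, -⟩ := hORB E E M
      have h5 := h4 g (.inr (v i))
      have h6 : AlgEquiv.restrictNormalHom E g = 1 := by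
        ext x
        exact (AlgEquiv.restrictNormalHom E g).commutes x
      rw [h6, pact_one, hg] at h5
      exact (Sum.inr_injective h5).symm
  rw [InfinitePlace.nrComplexPlaces, ← Fintype.card_of_bijective hf, Fintype.card_fin]

end

end Pool.Agent.Q20.SI
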