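import Pool.Agent.Q20.SI.Dat
import Pool.Agent.Q53.EX.UnrD

/-!
# Decomposition groups of ramified primes
-/

set_option autoImplicit false
set_option linter.unusedSectionVars false

namespace Pool.Agent.Q20.SI

open NumberField IsDedekindDomain Pool.Agent.Q20.RS
open Pool.Agent.Q20.TR (bt)
open Pool.Agent.Q5.BR (above mem_above)

section
variable {E M : Type} [Field E] [NumberField E] [Field M] [NumberField M] [Algebra E M]

/-- the decomposition groups of ramified primes are not trivial -/
theorem ram_place [IsGalois E M] (hORB : S_ORB) (P : HeightOneSpectrum (𝓞 M))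
    (h : ¬ Unrm M (P.under (𝓞 E))) : ∃ g : M ≃ₐ[E] M, pra g P = P ∧ g ≠ 1 := by
  classical
  by_contra hn
  push Not at hn
  have h1 := Pool.Agent.Q53.EX.Unr.sum_rdeg_lt (F := E) (M := M) (v := P.under (𝓞 E)) h
  have hinj : Function.Injective fun g : M ≃ₐ[E] M => pra g P := by
    intro a b hab
    have h2 : pra (b⁻¹ * a) P = P := by
      have h3 : pra a P = pra b P := hab
      rw [pra_mul, h3, ← pra_mul, inv_mul_cancel, pra_one]
    have h3 := hn _ h2
    exact (inv_mul_eq_one.1 h3).symm
  have h2 : (Finset.univ.image fun g : M ≃ₐ[E] M => pra g P) ⊆ above M (P.under (𝓞 E)) := by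
    intro Q hQ
    obtain ⟨g, -, rfl⟩ := Finset.mem_image.1 hQ
    exact mem_above.2 (under_pra hORB g P)
  have h3 := Finset.card_le_card h2
  rw [Finset.card_image_of_injective _ hinj, Finset.card_univ, ← Nat.card_eq_fintype_card,
    IsGalois.card_aut_eq_finrank] at h3
  have h4 : (above M (P.under (𝓞 E))).card ≤
      ∑ w ∈ above M (P.under (𝓞 E)), Pool.Agent.Q5.BR.rdeg E w := by
    rw [Finset.card_eq_sum_ones]
    refine Finset.sum_le_sum fun w _ => ?_
    exact Pool.Agent.Q5.BR.rdeg_pos w
  omega

end

end Pool.Agent.Q20.SI
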