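import Pool.Agent.Q20.SI.Stm2

/-!
# Valuations and logarithms under automorphisms
-/

set_option autoImplicit false
set_option linter.unusedSectionVars false

namespace Pool.Agent.Q20.SI

open NumberField IsDedekindDomain Pool.Agent.Q20.RS

section
variable {M : Type} [Field M] [NumberField M]

/-- the order of a nonzero element at a prime, with the sign of the logarithm -/
noncomputable def vord (Q : HeightOneSpectrum (𝓞 M)) : Additive Mˣ →+ ℤ :=
  MonoidHom.toAdditiveLeft ((WithZero.unitsWithZeroEquiv (α := Multiplicative ℤ)).toMonoidHom.comp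
    (Units.map (Q.valuation M).toMonoidWithZeroHom.toMonoidHom))

theorem logv_inl (Q : HeightOneSpectrum (𝓞 M)) (x : Mˣ) :
    logv (x : M) (.inl Q) = (vord Q (Additive.ofMul x) : ℝ) * Real.log (Ideal.absNorm Q.asIdeal) := by
  have h1 : Q.valuation M (x : M) ≠ 0 := by simp
  change Real.log (NumberField.HeightOneSpectrum.adicAbv M Q (x : M)) = _
  rw [NumberField.HeightOneSpectrum.adicAbv_def, WithZeroMulInt.toNNReal_neg_apply _ h1]
  push_cast
  rw [Real.log_zpow]
  rfl

theorem vord_eq_zero (Q : HeightOneSpectrum (𝓞 M)) (x : Mˣ) :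
    vord Q (Additive.ofMul x) = 0 ↔ NumberField.HeightOneSpectrum.adicAbv M Q (x : M) = 1 := by
  have h1 : Q.valuation M (x : M) ≠ 0 := by simp
  have h2 : 1 < (Ideal.absNorm Q.asIdeal : ℝ) := by
    exact_mod_cast NumberField.HeightOneSpectrum.one_lt_absNorm Q
  have h3 := logv_inl Q x
  have h4 : (0 : ℝ) < NumberField.HeightOneSpectrum.adicAbv M Q (x : M) := by
    rw [AbsoluteValue.pos_iff]
    exact x.ne_zero
  have h5 : Real.log (Ideal.absNorm Q.asIdeal : ℝ) ≠ 0 := (Real.log_pos h2).ne'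
  constructor
  · intro h
    rw [h] at h3
    simp only [Int.cast_zero, zero_mul] at h3
    exact Real.eq_one_of_pos_of_log_eq_zero h4 h3
  · intro h
    change Real.log (NumberField.HeightOneSpectrum.adicAbv M Q (x : M)) = _ at h3
    rw [h, Real.log_one] at h3
    have h6 := (mul_eq_zero.1 h3.symm).resolve_right h5
    exact_mod_cast h6

variable {F : Type} [Field F] [NumberField F] [Algebra F M]

theorem intVal_ringEquiv (e : 𝓞 M ≃+* 𝓞 M) (P : HeightOneSpectrum (𝓞 M)) (r : 𝓞 M) :
    (HeightOneSpectrum.equivOfRingEquiv e P).intValuation (e r) = P.intValuation r := by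
  by_cases hr : r = 0
  · rw [hr, map_zero, map_zero, map_zero]
  have her : e r ≠ 0 := by simpa using hr
  have hmem : ∀ n : ℕ, e r ∈ (HeightOneSpectrum.equivOfRingEquiv e P).asIdeal ^ n ↔
      r ∈ P.asIdeal ^ n := by
    intro n
    have h1 : (HeightOneSpectrum.equivOfRingEquiv e P).asIdeal = P.asIdeal.map (e : 𝓞 M →+* 𝓞 M) := by
      change P.asIdeal.comap (e.symm : 𝓞 M →+* 𝓞 M) = _
      exact (Ideal.map_symm e.symm).symm
    rw [h1, ← Ideal.map_pow]
    have h2 : (P.asIdeal ^ n).map (e : 𝓞 M →+* 𝓞 M) = (P.asIdeal ^ n).comap (e.symm : 𝓞 M →+* 𝓞 M) :=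
      Ideal.map_symm e.symm
    rw [h2, Ideal.mem_comap]
    change e.symm (e r) ∈ _ ↔ _
    rw [e.symm_apply_apply]
  have hle : ∀ n : ℕ, (HeightOneSpectrum.equivOfRingEquiv e P).intValuation (e r) ≤
      WithZero.exp (-(n : ℤ)) ↔ P.intValuation r ≤ WithZero.exp (-(n : ℤ)) := by
    intro n
    rw [HeightOneSpectrum.intValuation_le_pow_iff_mem, HeightOneSpectrum.intValuation_le_pow_iff_mem,
      hmem]
  have h3 := HeightOneSpectrum.intValuation_if_neg P hr
  have h4 := HeightOneSpectrum.intValuation_if_neg (HeightOneSpectrum.equivOfRingEquiv e P) her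
  apply le_antisymm
  · rw [h3]
    exact (hle _).2 h3.le
  · rw [h4]
    exact (hle _).1 h4.le

theorem val_pra (g : M ≃ₐ[F] M) (P : HeightOneSpectrum (𝓞 M)) (x : M) :
    (pra g P).valuation M (g x) = P.valuation M x := by
  obtain ⟨a, b, hb, rfl⟩ := IsFractionRing.div_surjective (A := 𝓞 M) x
  have hg : ∀ r : 𝓞 M, g (algebraMap (𝓞 M) M r) =
      algebraMap (𝓞 M) M (RingOfIntegers.mapRingEquiv g.toRingEquiv r) := fun r => rfl
  rw [map_div₀, map_div₀, map_div₀, hg, hg, HeightOneSpectrum.valuation_of_algebraMap,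
    HeightOneSpectrum.valuation_of_algebraMap, HeightOneSpectrum.valuation_of_algebraMap,
    HeightOneSpectrum.valuation_of_algebraMap]
  unfold pra
  rw [intVal_ringEquiv, intVal_ringEquiv]

theorem absNorm_pra (g : M ≃ₐ[F] M) (P : HeightOneSpectrum (𝓞 M)) :
    Ideal.absNorm (pra g P).asIdeal = Ideal.absNorm P.asIdeal := by
  have e : (𝓞 M ⧸ P.asIdeal) ≃+* (𝓞 M ⧸ (pra g P).asIdeal) := by
    refine Ideal.quotientEquiv P.asIdeal (pra g P).asIdeal
      (RingOfIntegers.mapRingEquiv g.toRingEquiv) ?_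
    exact (Ideal.map_symm (RingOfIntegers.mapRingEquiv g.toRingEquiv).symm).symm
  rw [Ideal.absNorm_apply, Ideal.absNorm_apply, Submodule.cardQuot_apply, Submodule.cardQuot_apply]
  exact (Nat.card_congr e.toEquiv).symm

theorem logv_pact (g : M ≃ₐ[F] M) (w : Pl M) (x : M) : logv (g x) (pact g w) = logv x w := by
  rcases w with P | v
  · change Real.log (NumberField.HeightOneSpectrum.adicAbv M (pra g P) (g x)) =
      Real.log (NumberField.HeightOneSpectrum.adicAbv M P x)
    congr 1
    by_cases hx : x = 0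
    · rw [hx, map_zero, map_zero, map_zero]
    have h1 : P.valuation M x ≠ 0 := by simpa using hx
    have h2 : (pra g P).valuation M (g x) ≠ 0 := by rw [val_pra]; exact h1
    rw [NumberField.HeightOneSpectrum.adicAbv_def, NumberField.HeightOneSpectrum.adicAbv_def,
      WithZeroMulInt.toNNReal_neg_apply _ h1, WithZeroMulInt.toNNReal_neg_apply _ h2]
    have h3 : WithZero.unzero h2 = WithZero.unzero h1 := by
      apply WithZero.coe_injective
      rw [WithZero.coe_unzero, WithZero.coe_unzero, val_pra]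
    rw [h3, absNorm_pra]
  · change ((g • v).mult : ℝ) * Real.log ((g • v) (g x)) = (v.mult : ℝ) * Real.log (v x)
    rw [InfinitePlace.smul_apply, AlgEquiv.symm_apply_apply]
    have h : (g • v).mult = v.mult := by
      classical
      unfold InfinitePlace.mult
      by_cases hv : v.IsReal
      · rw [if_pos hv, if_pos (InfinitePlace.isReal_smul_iff.2 hv)]
      · rw [if_neg hv, if_neg fun h => hv (InfinitePlace.isReal_smul_iff.1 h)]
    rw [h]

theorem logv_mul {x y : M} (hx : x ≠ 0) (hy : y ≠ 0) (w : Pl M) :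
    logv (x * y) w = logv x w + logv y w := by
  rcases w with P | v
  · change Real.log (NumberField.HeightOneSpectrum.adicAbv M P (x * y)) = _
    rw [map_mul, Real.log_mul]
    · rfl
    · exact (AbsoluteValue.ne_zero_iff _).2 hx
    · exact (AbsoluteValue.ne_zero_iff _).2 hy
  · change (v.mult : ℝ) * Real.log (v (x * y)) = v.mult * Real.log (v x) + v.mult * Real.log (v y)
    rw [map_mul, Real.log_mul, mul_add]
    · exact (map_ne_zero v).2 hx
    · exact (map_ne_zero v).2 hy

theorem ell_mul (χ : (M ≃ₐ[F] M) →* ℂˣ) {x y : M} (hx : x ≠ 0) (hy : y ≠ 0) (w : Pl M) :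
    ell χ (x * y) w = ell χ x w + ell χ y w := by
  unfold ell
  rw [← Finset.sum_add_distrib]
  refine Finset.sum_congr rfl fun g _ => ?_
  rw [map_mul, logv_mul (by simpa using hx) (by simpa using hy)]
  push_cast
  ring

/-- `ell` as a homomorphism -/
noncomputable def ellH (χ : (M ≃ₐ[F] M) →* ℂˣ) (w : Pl M) : Additive Mˣ →+ ℂ :=
  AddMonoidHom.mk' (fun x => ell χ ((x.toMul : Mˣ) : M) w) fun x y => by
    rw [toMul_add, Units.val_mul]
    exact ell_mul χ (Units.ne_zero _) (Units.ne_zero _) w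

theorem ellH_apply (χ : (M ≃ₐ[F] M) →* ℂˣ) (w : Pl M) (x : Mˣ) :
    ellH χ w (Additive.ofMul x) = ell χ (x : M) w := rfl

/-- the action of the group on the argument -/
theorem ell_act (χ : (M ≃ₐ[F] M) →* ℂˣ) (g : M ≃ₐ[F] M) (x : M) (w : Pl M) :
    cf χ g * ell χ (g x) w = ell χ x w := by
  unfold ell
  rw [Finset.mul_sum]
  refine Finset.sum_equiv (Equiv.mulRight g) (fun _ => by simp) fun h _ => ?_
  change cf χ g * (((χ h : ℂˣ) : ℂ) * _) = ((χ (h * g) : ℂˣ) : ℂ) * ((logv ((h * g) x) w : ℝ) : ℂ)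
  rw [map_mul, Units.val_mul, AlgEquiv.mul_apply, cf]
  ring

/-- the action of the group on the places -/
theorem ell_pact (χ : (M ≃ₐ[F] M) →* ℂˣ) (g : M ≃ₐ[F] M) (x : M) (w : Pl M) :
    ell χ x (pact g w) = cf χ g * ell χ x w := by
  unfold ell
  rw [Finset.mul_sum]
  symm
  refine Finset.sum_equiv (Equiv.mulLeft g) (fun _ => by simp) fun h _ => ?_
  change cf χ g * (((χ h : ℂˣ) : ℂ) * _) =
    ((χ (g * h) : ℂˣ) : ℂ) * ((logv ((g * h) x) (pact g w) : ℝ) : ℂ)
  rw [map_mul, Units.val_mul, AlgEquiv.mul_apply, logv_pact, cf]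
  ring

/-- `ell` vanishes at the places on whose decomposition groups the character is not trivial -/
theorem ell_eq_zero {χ : (M ≃ₐ[F] M) →* ℂˣ} {w : Pl M} (h : ¬ Triv χ w) (x : M) :
    ell χ x w = 0 := by
  unfold Triv at h
  push Not at h
  obtain ⟨g, hg, hg1⟩ := h
  have h1 := ell_pact χ g x w
  rw [hg] at h1
  have h2 : (cf χ g - 1) * ell χ x w = 0 := by
    rw [sub_mul, one_mul, ← h1, sub_self]
  refine (mul_eq_zero.1 h2).resolve_left fun h3 => hg1 ?_
  exact Units.ext (sub_eq_zero.1 h3)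

end

end Pool.Agent.Q20.SI
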