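import Pool.Agent.Q20.SI.Row2

/-!
# The rational rank one Stark conjecture for mixed signature characters
-/

set_option autoImplicit false
set_option linter.unusedSectionVars false

namespace Pool.Agent.Q20.SI

open NumberField IsDedekindDomain Pool.Agent.Q20.RS
open Pool.Agent.Q20.RS.RL (Twister Dihedral)

section defs
variable {F : Type} [Field F] [NumberField F]

/-- **The data of the question**: an abelian extension `K` of `F`, the set `S` of the finite places in
question, which contains the ramified ones, a real place `v` of `K`, and a character `χ ≠ 1` with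
`χ(c_w) = -1` for the complex conjugations `c_w` at the archimedean places `w` which are not above the
place `v₁` below `v`, and `χ ≠ 1` on the decomposition groups of the primes above `S` -/
structure MixedData (F : Type) [Field F] [NumberField F] : Type where
  /-- the extension -/
  K : IntermediateField F (AlgebraicClosure F)
  [fin : FiniteDimensional F K]
  [nor : Normal F K]
  comm : ∀ a b : K ≃ₐ[F] K, a * b = b * a
  /-- the finite places -/
  S : Finset (HeightOneSpectrum (𝓞 F))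
  ram : ∀ p : HeightOneSpectrum (𝓞 F), ¬ Unrm K p → p ∈ S
  /-- the place -/
  v : InfinitePlace K
  real : v.IsReal
  /-- the character -/
  χ : (K ≃ₐ[F] K) →* ℂˣ
  ne : ∃ g, χ g ≠ 1
  arch : ∀ w : InfinitePlace K, w.comap (algebraMap F K) ≠ v.comap (algebraMap F K) →
    ∃ c : K ≃ₐ[F] K, c • w = w ∧ χ c = -1
  finite : ∀ P : HeightOneSpectrum (𝓞 K), P.under (𝓞 F) ∈ S → ∃ g : K ≃ₐ[F] K, pra g P = P ∧ χ g ≠ 1

attribute [instance] MixedData.fin MixedData.nor

variable (D : MixedData F)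

/-- the character of `Gal(F̄/F)` given by `χ` -/
noncomputable def MixedData.psi : RL.Lin (base F) :=
  (D.χ.comp (AlgEquiv.restrictNormalHom D.K)).comp (base F).fixingSubgroup.subtype

/-- `|u|_w = 1` for all places `w` of `K` which are not above `v₁`: all primes and the archimedean
places with another restriction to `F` than `v` -/
def MixedData.IsU (u : D.K) : Prop :=
  (∀ P : HeightOneSpectrum (𝓞 D.K), NumberField.HeightOneSpectrum.adicAbv D.K P u = 1) ∧
  ∀ w : InfinitePlace D.K, w.comap (algebraMap F D.K) ≠ D.v.comap (algebraMap F D.K) → w u = 1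

/-- **Q1**: there are `c ∈ ℚ(χ)` and `u ∈ U_{v,S}` with `L_S^*(χ, 0) = c ∑_g χ(g) log |g u|_v`, that is
`log |u_χ|_v` for `u_χ = c ∑_g χ(g) ⊗ g u` -/
def MixedData.Q1 : Prop :=
  ∃ (c : ℂ) (u : D.K), c ∈ IntermediateField.adjoin ℚ (Set.range (cf D.χ)) ∧ D.IsU u ∧
    lead D.S D.χ = c * ∑ g : D.K ≃ₐ[F] D.K, cf D.χ g * ((Real.log (D.v (g u)) : ℝ) : ℂ)

/-- **Q1 for `χ` and its conjugates simultaneously**: there are `c ∈ ℚ(χ)` and `u ∈ U_{v,S}` with
`L_S^*(χ^σ, 0) = σ(c) ∑_g χ^σ(g) log |g u|_v` for all automorphisms `σ` of `ℂ` -/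
def MixedData.Q1Conj : Prop :=
  ∃ (c : ℂ) (u : D.K), c ∈ IntermediateField.adjoin ℚ (Set.range (cf D.χ)) ∧ D.IsU u ∧
    ∀ (σ : ℂ ≃+* ℂ) (χ' : (D.K ≃ₐ[F] D.K) →* ℂˣ), (∀ g, cf χ' g = σ (cf D.χ g)) →
      lead D.S χ' = σ c * ∑ g : D.K ≃ₐ[F] D.K, cf χ' g * ((Real.log (D.v (g u)) : ℝ) : ℂ)

/-- `d_σ(χ) = A(χ)^σ / A(χ^σ)`, with Stark's numbers `A` at the level `ℓ` -/
noncomputable def defct (ℓ : Lvl F) (σ : ℂ ≃+* ℂ) {E : RS.Sub F} (χ : Fn E) : ℂ :=
  σ (ℓ.A χ) / ℓ.A (conj σ χ)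

/-- `d_σ(ψη) d_σ(ψ|F₁) d_σ(ψ|F₂) = d_σ(ψ|F₃)` at all sufficiently large levels -/
def Balanced {E : RS.Sub F} {ψ η : RL.Lin E} (d : Dihedral ψ η) (σ : ℂ ≃+* ℂ) : Prop :=
  RL.Eventually fun ℓ : Lvl F => defct ℓ σ (ψ.mul η).fn * (defct ℓ σ (ψ.res d.le₁).fn *
    defct ℓ σ (ψ.res d.le₂).fn) = defct ℓ σ (ψ.res d.le₃).fn

end defs

end Pool.Agent.Q20.SI
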