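import Pool.Agent.Q20.SI.Row1
import Pool.Agent.Q20.SI.Main3

/-!
# The rational rank one Stark conjecture for mixed signature characters: proofs
-/

set_option autoImplicit false
set_option linter.unusedSectionVars false

namespace Pool.Agent.Q20.SI

open NumberField IsDedekindDomain Pool.Agent.Q20.RS
open Pool.Agent.Q20.RS.RL (Twister Dihedral StarkEq AddInd plus defect A_ne smooth_char
  smooth_mul smooth_res conj_character cl cl_mul large)
open Pool.Agent.Q20.TR (bt)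

section
variable {F : Type} [Field F] [NumberField F]

/-- the representatives: the place `v` -/
theorem mixed_reps (hORB : S_ORB) (D : MixedData F) :
    Reps D.χ (abv D.K D.S) (fun _ : Unit => (.inr D.v : Pl D.K)) := by
  refine ⟨fun _ => trivial, fun _ g hg => ?_, fun w hw ht => ?_, fun _ _ _ _ => rfl⟩
  · have h1 : g • D.v = D.v := Sum.inr_injective hg
    have h2 := (D.real.isUnramified (k := F)).stabilizer_eq_bot
    have h3 : g ∈ MulAction.stabilizer (D.K ≃ₐ[F] D.K) D.v := h1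
    rw [h2, Subgroup.mem_bot] at h3
    rw [h3, map_one]
  · rcases w with P | w
    · obtain ⟨g, hg, hg1⟩ := D.finite P (mem_abv.1 hw)
      exact absurd (ht g (congrArg Sum.inl hg)) hg1
    · by_cases h : w.comap (algebraMap F D.K) = D.v.comap (algebraMap F D.K)
      · obtain ⟨-, -, h3, -⟩ := hORB F F D.K
        obtain ⟨g, -, hg⟩ := h3 (.inr D.v) (.inr w) (congrArg Sum.inr h.symm)
        exact ⟨(), g, hg⟩
      · obtain ⟨c, hc, hc1⟩ := D.arch w h
        have h1 := ht c (congrArg Sum.inr hc)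
        rw [hc1] at h1
        exact absurd h1 (by
          intro h2
          have h3 := congrArg (fun z : ℂˣ => (z : ℂ)) h2
          norm_num at h3)

/-- additive inductive functions and the dihedral relation -/
theorem dihedral_add {B : Type} [AddCommGroup B] {D : ∀ E : RS.Sub F, Fn E → B} (hD : AddInd D)
    {E : RS.Sub F} {ψ η : RL.Lin E} (hE : FinExt E) (hψ : ψ.smooth) (hη : η.smooth)
    (d : Dihedral ψ η) : D E ψ.fn + D d.F₃ (ψ.res d.le₃).fn =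
      D E (ψ.mul η).fn + (D d.F₁ (ψ.res d.le₁).fn + D d.F₂ (ψ.res d.le₂).fn) := by
  have c := RL.smooth_char hψ
  have cη := RL.smooth_char (RL.smooth_mul hψ hη)
  have c₁ := RL.smooth_char (RL.smooth_res d.le₁ hψ)
  have c₂ := RL.smooth_char (RL.smooth_res d.le₂ hψ)
  have c₃ := RL.smooth_char (RL.smooth_res d.le₃ hψ)
  have i₁ := RL.ind_char' hE d.fin₁ c₁
  have i₂ := RL.ind_char' hE d.fin₂ c₂
  have i₃ := RL.ind_char' hE d.fin₃ c₃
  have h := congrArg (D E) d.relation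
  rw [hD.add E hE _ _ c i₃, hD.add E hE _ _ cη (RL.plus_char hE i₁ i₂), hD.add E hE _ _ i₁ i₂,
    hD.ind E d.F₃ d.le₃ d.fin₃ _ c₃, hD.ind E d.F₁ d.le₁ d.fin₁ _ c₁,
    hD.ind E d.F₂ d.le₂ d.fin₂ _ c₂] at h
  exact h

theorem defct_ne {E : RS.Sub F} (hE : FinExt E) {ψ : RL.Lin E} (hψ : ψ.smooth)
    (σ : ℂ ≃+* ℂ) : RL.Eventually fun ℓ : Lvl F => defct ℓ σ ψ.fn ≠ 0 :=
  ((A_ne hE (smooth_char hψ)).and (A_ne hE (conj_character (smooth_char hψ) σ))).mono
    fun _ h => div_ne_zero ((map_ne_zero σ).2 h.1) h.2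

theorem cl_inj {y z : ℂ} (hy : y ≠ 0) (hz : z ≠ 0) (h : cl (⊥ : Subgroup ℂˣ) y = cl ⊥ z) :
    y = z := by
  rw [RL.cl_of_ne ⊥ hy, RL.cl_of_ne ⊥ hz] at h
  have h1 := QuotientGroup.eq.1 (Additive.ofMul.injective h)
  rw [Subgroup.mem_bot, inv_mul_eq_one] at h1
  exact congrArg (fun u : ℂˣ => (u : ℂ)) h1

/-- **Stark's equality for `ψ`** in terms of the other characters of the dihedral relation -/
theorem starkEq_iff_balanced {E : RS.Sub F} {ψ η : RL.Lin E} (hE : FinExt E) (hψ : ψ.smooth)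
    (hη : η.smooth) (d : Dihedral ψ η) (σ : ℂ ≃+* ℂ) : StarkEq ψ.fn σ ↔ Balanced d σ := by
  have e := dihedral_add (RL.defect_addInd (K := F) ⊥ σ) hE hψ hη d
  have nη := defct_ne hE (smooth_mul hψ hη) σ
  have n₁ := defct_ne d.fin₁ (smooth_res d.le₁ hψ) σ
  have n₂ := defct_ne d.fin₂ (smooth_res d.le₂ hψ) σ
  have n₃ := defct_ne d.fin₃ (smooth_res d.le₃ hψ) σ
  have hn := (nη.and n₃).and (n₁.and n₂)
  rw [← RL.defect_bot hE (smooth_char hψ) σ]
  have h1 : defect (K := F) ⊥ σ E ψ.fn = 0 ↔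
      defect (K := F) ⊥ σ E (ψ.mul η).fn + (defect (K := F) ⊥ σ d.F₁ (ψ.res d.le₁).fn +
        defect (K := F) ⊥ σ d.F₂ (ψ.res d.le₂).fn) = defect (K := F) ⊥ σ d.F₃ (ψ.res d.le₃).fn := by
    rw [← e]
    exact ⟨fun h => by rw [h, zero_add], fun h => add_eq_right.1 h⟩
  rw [h1]
  have h2 : (defect (K := F) ⊥ σ E (ψ.mul η).fn + (defect (K := F) ⊥ σ d.F₁ (ψ.res d.le₁).fn +
      defect (K := F) ⊥ σ d.F₂ (ψ.res d.le₂).fn)) =
      ((fun ℓ : Lvl F => cl ⊥ (defct ℓ σ (ψ.mul η).fn) + (cl ⊥ (defct ℓ σ (ψ.res d.le₁).fn) +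
        cl ⊥ (defct ℓ σ (ψ.res d.le₂).fn)) : Lvl F → RL.Quot ⊥) :
        Filter.Germ (large F) (RL.Quot ⊥)) := rfl
  have h3 : defect (K := F) ⊥ σ d.F₃ (ψ.res d.le₃).fn =
      ((fun ℓ : Lvl F => cl ⊥ (defct ℓ σ (ψ.res d.le₃).fn) : Lvl F → RL.Quot ⊥) :
        Filter.Germ (large F) (RL.Quot ⊥)) := rfl
  rw [h2, h3, Filter.Germ.coe_eq]
  refine (RL.eventually_iff _).trans ?_
  constructor
  · intro h
    refine (hn.and h).mono fun ℓ hℓ => ?_
    obtain ⟨⟨⟨a, a₃⟩, a₁, a₂⟩, b⟩ := hℓ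
    dsimp only at b
    rw [← cl_mul _ a₁ a₂, ← cl_mul _ a (mul_ne_zero a₁ a₂)] at b
    exact cl_inj (mul_ne_zero a (mul_ne_zero a₁ a₂)) a₃ b
  · intro h
    refine (hn.and h).mono fun ℓ hℓ => ?_
    obtain ⟨⟨⟨a, a₃⟩, a₁, a₂⟩, b⟩ := hℓ
    dsimp only
    rw [← cl_mul _ a₁ a₂, ← cl_mul _ a (mul_ne_zero a₁ a₂), b]

end

end Pool.Agent.Q20.SI
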