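import Pool.Agent.Q20.SI.Abv

/-!
# Stark's rational conjecture of order `r` for abelian extensions
-/

set_option autoImplicit false
set_option linter.unusedSectionVars false

namespace Pool.Agent.Q20.SI

open NumberField IsDedekindDomain Pool.Agent.Q20.RS

/-- `T` contains two primes of distinct residue characteristics or one prime whose residue
characteristic exceeds `[F:ℚ] + 1` -/
def TCond {F : Type} [Field F] [NumberField F] (T : Finset (HeightOneSpectrum (𝓞 F))) : Prop :=
  (∃ q ∈ T, ∃ q' ∈ T, ∃ p p' : ℕ, p.Prime ∧ p'.Prime ∧ p ≠ p' ∧ ((p : ℕ) : 𝓞 F) ∈ q.asIdeal ∧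
    ((p' : ℕ) : 𝓞 F) ∈ q'.asIdeal) ∨
  ∃ q ∈ T, ∃ p : ℕ, p.Prime ∧ Module.finrank ℚ F + 1 < p ∧ ((p : ℕ) : 𝓞 F) ∈ q.asIdeal

/-- **The data of the question**: an abelian extension `K` of `F`, the set `S` of the finite places in
question (it contains the ramified ones; the archimedean places are always included), places
`w_1, …, w_r` of `K` above the different places in `S` which split completely in `K`, at least one place
in `S` does not split completely, and a finite set `T` of primes disjoint from `S` with `TCond` -/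
structure OrderData (F K : Type) [Field F] [NumberField F] [Field K] [NumberField K]
    [Algebra F K] : Type where
  comm : ∀ a b : K ≃ₐ[F] K, a * b = b * a
  /-- the finite places in `S` -/
  S : Finset (HeightOneSpectrum (𝓞 F))
  ram : ∀ p : HeightOneSpectrum (𝓞 F), ¬ Unrm K p → p ∈ S
  /-- the number of the split places -/
  r : ℕ
  /-- the places above the split places -/
  w : Fin r → Pl K
  mem : ∀ i, InPl (abv K S) (w i)
  split : ∀ (i : Fin r) (g : K ≃ₐ[F] K), pact g (w i) = w i → g = 1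
  dist : ∀ (i j : Fin r) (g : K ≃ₐ[F] K), pact g (w i) = w j → i = j
  all : ∀ v : Pl K, InPl (abv K S) v → (∀ g : K ≃ₐ[F] K, pact g v = v → g = 1) →
    ∃ (i : Fin r) (g : K ≃ₐ[F] K), pact g (w i) = v
  more : ∃ v : Pl K, InPl (abv K S) v ∧ ∃ g : K ≃ₐ[F] K, pact g v = v ∧ g ≠ 1
  /-- the auxiliary primes -/
  T : Finset (HeightOneSpectrum (𝓞 F))
  disj : ∀ q ∈ T, q ∉ S
  tors : TCond T

section
variable {F K : Type} [Field F] [NumberField F] [Field K] [NumberField K] [Algebra F K]
  (D : OrderData F K)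

/-- `r(χ) = r` (the order of vanishing of `L_{S,T}(χ, s)` at `s = 0`): for `χ ≠ 1`, `χ` is not trivial on the
decomposition groups of the places in `S` which are not below some `w_i`; for `χ = 1`, there is exactly
one such place -/
def OrderData.Exact (χ : (K ≃ₐ[F] K) →* ℂˣ) : Prop :=
  ((∃ g, χ g ≠ 1) ∧ ∀ v : Pl K, InPl (abv K D.S) v → Triv χ v →
    ∃ (i : Fin D.r) (g : K ≃ₐ[F] K), pact g (D.w i) = v) ∨
  ((∀ g, χ g = 1) ∧ ∃ v₀ : Pl K, ∀ v : Pl K, InPl (abv K D.S) v →
    (∃ g : K ≃ₐ[F] K, pact g v₀ = v) ∨ ∃ (i : Fin D.r) (g : K ≃ₐ[F] K), pact g (D.w i) = v)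

open scoped Classical in
/-- `θ(χ) = L_{S,T}^{(r)}(χ, 0) / r!`: the leading coefficient if `r(χ) = r`, and `0` otherwise -/
noncomputable def OrderData.theta (χ : (K ≃ₐ[F] K) →* ℂˣ) : ℂ :=
  if D.Exact χ then lead D.S χ *
    ∏ q ∈ D.T, (1 - cf χ (frb K q) * (Ideal.absNorm q.asIdeal : ℂ)) else 0

/-- `u ∈ U_{S,T}`: `u ≠ 0`, `|u|_P = 1` for the primes `P` of `K` which are not above `S`, and `u ≡ 1`
modulo the primes `P` above `T` -/
def OrderData.IsU (u : K) : Prop :=
  u ≠ 0 ∧ (∀ P : HeightOneSpectrum (𝓞 K), P.under (𝓞 F) ∉ D.S →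
    NumberField.HeightOneSpectrum.adicAbv K P u = 1) ∧
  ∀ P : HeightOneSpectrum (𝓞 K), P.under (𝓞 F) ∈ D.T →
    NumberField.HeightOneSpectrum.adicAbv K P (u - 1) < 1

/-- **Q1** (in Rubin's form): the function `θ` on the characters is a combination, with coefficients in
the rational group ring, of determinants `det(∑_g χ(g) log |g u_j|_{w_i})`, `u_1, …, u_r ∈ U_{S,T}` -/
def OrderData.Q1 : Prop :=
  ∃ (n : ℕ) (a : Fin n → (K ≃ₐ[F] K) → ℚ) (u : Fin n → Fin D.r → K),
    (∀ m j, D.IsU (u m j)) ∧ ∀ χ : (K ≃ₐ[F] K) →* ℂˣ,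
      D.theta χ = ∑ m, (∑ g, (a m g : ℂ) * cf χ g) * (ellM χ (u m) D.w).det

end

/-- **The unramified case over `F`**: Q1 for the cyclic extensions `L/E` which are unramified at all
finite places, `E` a finite extension of `F` -/
def UnramifiedCase (F : Type) [Field F] [NumberField F] : Prop :=
  ∀ (E L : Type) [Field E] [NumberField E] [Algebra F E] [Field L] [NumberField L] [Algebra E L]
    [IsGalois E L] (D : OrderData E L), IsCyclic (L ≃ₐ[E] L) →
    (∀ p : HeightOneSpectrum (𝓞 E), Unrm L p) → D.Q1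

/-- **The minimal case over `F`**: Q1 for the cyclic extensions `L/F` and the sets `S` in which the number
`r` of split places is the number of complex places of `F` (the smallest possible value) -/
def MinimalCase (F : Type) [Field F] [NumberField F] : Prop :=
  ∀ (L : Type) [Field L] [NumberField L] [Algebra F L] [IsGalois F L] (D : OrderData F L),
    IsCyclic (L ≃ₐ[F] L) → D.r = InfinitePlace.nrComplexPlaces F → D.Q1

end Pool.Agent.Q20.SI
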