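import Pool.Agent.Q20.SI.Sub1
import Pool.Agent.Q20.SI.Fou

/-!
# Stark's equality in terms of the extension, as an equivalence
-/

set_option autoImplicit false
set_option linter.unusedSectionVars false

namespace Pool.Agent.Q20.SI

open NumberField IsDedekindDomain Pool.Agent.Q20.RS Pool.Agent.Q92.AR
open Pool.Agent.Q20.TR (bt)

section
variable {K E M : Type} [Field K] [NumberField K] [Field E] [NumberField E] [Algebra K E]
  {E' : IntermediateField K (AlgebraicClosure K)} [Field M] [NumberField M] [Algebra K M]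
  [Algebra E M] [IsScalarTower K E M] [IsGalois E M]

/-- the levels containing the extension and the primes -/
theorem level_vals (hORB : S_ORB) (hRAM : S_RAM) (j : M →ₐ[K] AlgebraicClosure K)
    (hm : ∀ z, z ∈ E' ↔ ∃ x : E, j (algebraMap E M x) = z)
    (T : Finset (HeightOneSpectrum (𝓞 M))) (χ : (M ≃ₐ[E] M) →* ℂˣ) {ι : Type} [Fintype ι]
    [DecidableEq ι] (w : ι → Pl M) (α : ι → M)
    (h : ∀ (N : Type) [Field N] [NumberField N] [Algebra E N] [Algebra M N] [IsScalarTower E M N]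
      [IsGalois E N] (T' : Finset (HeightOneSpectrum (𝓞 N))) (hT' : Stable E T'),
      ContainsRamified E T' → (∀ P : HeightOneSpectrum (𝓞 N), P.under (𝓞 M) ∈ T → P ∈ T') →
      ∀ θ : StarkMap hT', ∃ e : ℂ, e ≠ 0 ∧ ∀ (σ : ℂ ≃+* ℂ) (χ' : (M ≃ₐ[E] M) →* ℂˣ),
        (∀ g, cf χ' g = σ (cf χ g)) →
        ∀ (n : ℕ) (ρ : Representation ℂ (N ≃ₐ[E] N) (Fin n → ℂ)),
          (∀ g, ρ.character g = cf (up N χ') g) →
          starkA θ ρ = σ e * (ellM χ' α w).det / leading T (cf χ')) :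
    ∃ N₁ : IntermediateField K (AlgebraicClosure K), FiniteDimensional K N₁ ∧
      ∀ ℓ : Level K, N₁ ≤ ℓ.N → ∃ e : ℂ, e ≠ 0 ∧ ∀ (σ : ℂ ≃+* ℂ) (χ' : (M ≃ₐ[E] M) →* ℂˣ)
        (ψ : E'.fixingSubgroup → ℂ), (∀ g, cf χ' g = σ (cf χ g)) → Infl j ψ (cf χ') →
          ℓ.A (F₀ := E') ψ = σ e * (ellM χ' α w).det / leading T (cf χ') := by
  classical
  obtain ⟨N₁, h1, h2⟩ := big_levels hRAM hORB (T.image fun P => P.under (𝓞 K))
  have hfd : FiniteDimensional K M := inferInstance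
  have hfr : FiniteDimensional K j.fieldRange :=
    (AlgEquiv.ofInjectiveField j).toLinearEquiv.finiteDimensional
  refine ⟨N₁ ⊔ j.fieldRange, IntermediateField.finiteDimensional_sup N₁ j.fieldRange,
    fun ℓ hℓ => ?_⟩
  have hjN : ∀ x : M, j x ∈ ℓ.N := fun x => (le_sup_right.trans hℓ) ⟨x, rfl⟩
  let A : Algebra M ℓ.N := (j.codRestrict ℓ.N.toSubalgebra hjN).toRingHom.toAlgebra
  have hj : ∀ x : M, ((algebraMap M ℓ.N x : ℓ.N) : AlgebraicClosure K) = j x := fun x => rfl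
  let A' : Algebra E ℓ.N := ((algebraMap M ℓ.N).comp (algebraMap E M)).toAlgebra
  have t1 : IsScalarTower E M ℓ.N := IsScalarTower.of_algebraMap_eq fun x => rfl
  have t2 : IsScalarTower K M ℓ.N := IsScalarTower.of_algebraMap_eq fun x => by
    apply Subtype.ext
    rw [hj]
    exact (j.commutes x).symm
  have t3 : IsScalarTower K E ℓ.N := IsScalarTower.of_algebraMap_eq fun x => by
    rw [IsScalarTower.algebraMap_apply E M ℓ.N, ← IsScalarTower.algebraMap_apply K E M,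
      ← IsScalarTower.algebraMap_apply K M ℓ.N]
  have hG : IsGalois E ℓ.N := IsGalois.tower_top_of_isGalois K E ℓ.N
  obtain ⟨e, he, h3⟩ := h ℓ.N ℓ.T ℓ.stable.tower (ℓ.ram.tower ℓ.stable) (fun P hP => by
    refine h2 ℓ (le_sup_left.trans hℓ) P (Finset.mem_image.2 ⟨_, hP, ?_⟩)
    exact under_under (K := K) (F := M) P) (ℓ.θ.res (F := E) ℓ.stable.tower)
  refine ⟨e, he, fun σ χ' ψ h' hψ => ?_⟩
  have h4 := h3 σ χ' h' 1 (linRep (up ℓ.N χ')) (linRep_char _)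
  rw [← A_infl ℓ j hj hm χ' hψ _ (linRep_char _)] at h4
  exact h4

/-- **Stark's equality** for a linear character in terms of the extension -/
theorem stark_crit (hCMP : S_CMP) (hORB : S_ORB) (hEXI : S_EXI) (hRAM : S_RAM)
    (hc : ∀ a b : M ≃ₐ[E] M, a * b = b * a) (j : M →ₐ[K] AlgebraicClosure K)
    (hm : ∀ z, z ∈ E' ↔ ∃ x : E, j (algebraMap E M x) = z)
    (T : Finset (HeightOneSpectrum (𝓞 M))) (hT : Stable E T) (hR : ContainsRamified E T)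
    (χ : (M ≃ₐ[E] M) →* ℂˣ) (hχ : ∃ g, χ g ≠ 1) {ι : Type} [Fintype ι] [DecidableEq ι]
    (w : ι → Pl M) (hw : Reps χ T w) :
    ∃ α : ι → M, (∀ i, IsUnt T (α i)) ∧
      (∀ χ' : (M ≃ₐ[E] M) →* ℂˣ, (∀ g, χ' g = 1 ↔ χ g = 1) → (ellM χ' α w).det ≠ 0) ∧
      ∀ (σ : ℂ ≃+* ℂ) (ψ : E'.fixingSubgroup → ℂ), Infl j ψ (cf χ) →
        ((∃ N₀ : IntermediateField K (AlgebraicClosure K), FiniteDimensional K N₀ ∧
          ∀ ℓ : Level K, N₀ ≤ ℓ.N → σ (ℓ.A (F₀ := E') ψ) = ℓ.A (F₀ := E') fun g => σ (ψ g)) ↔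
        ∀ χ' : (M ≃ₐ[E] M) →* ℂˣ, (∀ g, cf χ' g = σ (cf χ g)) →
          σ ((ellM χ α w).det / leading T (cf χ)) = (ellM χ' α w).det / leading T (cf χ')) := by
  classical
  obtain ⟨α, hα, hdet, h⟩ := hCMP E M hc T hT hR χ hχ ι w hw
  obtain ⟨N₁, hN₁, key⟩ := level_vals hORB hRAM j hm T χ w α h
  have hinf : ∀ (σ : ℂ ≃+* ℂ) (χ' : (M ≃ₐ[E] M) →* ℂˣ) (ψ : E'.fixingSubgroup → ℂ),
      (∀ g, cf χ' g = σ (cf χ g)) → Infl j ψ (cf χ) → Infl j (fun g => σ (ψ g)) (cf χ') := by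
    intro σ χ' ψ h' hψ y g hy
    rw [h', hψ y g hy]
  refine ⟨α, hα, hdet, fun σ ψ hψ => ⟨?_, fun hr => ⟨N₁, hN₁, fun ℓ hℓ => ?_⟩⟩⟩
  · rintro ⟨N₀, hN₀, hσ⟩ χ' h'
    have hfd : FiniteDimensional K (N₀ ⊔ N₁ : IntermediateField K (AlgebraicClosure K)) :=
      IntermediateField.finiteDimensional_sup N₀ N₁
    obtain ⟨ℓ, hℓ⟩ := exists_lvl hORB hEXI (N₀ ⊔ N₁)
    obtain ⟨e, he, h1⟩ := key ℓ (le_sup_right.trans hℓ)
    have h2 := h1 (RingEquiv.refl ℂ) χ ψ (fun _ => rfl) hψ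
    have h3 := h1 σ χ' _ h' (hinf σ χ' ψ h' hψ)
    have h4 := hσ ℓ (le_sup_left.trans hℓ)
    rw [h2, h3] at h4
    have h6 : σ e ≠ 0 := (map_ne_zero σ).2 he
    change σ (e * (ellM χ α w).det / leading T (cf χ)) = _ at h4
    rw [mul_div_assoc, map_mul, mul_div_assoc] at h4
    exact mul_left_cancel₀ h6 h4
  · obtain ⟨e, he, h1⟩ := key ℓ hℓ
    have h2 := h1 (RingEquiv.refl ℂ) χ ψ (fun _ => rfl) hψ
    have h3 := h1 σ (cj σ χ) _ (fun _ => rfl) (hinf σ (cj σ χ) ψ (fun _ => rfl) hψ)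
    have h4 := hr (cj σ χ) fun _ => rfl
    rw [h2, h3]
    change σ (e * (ellM χ α w).det / leading T (cf χ)) = _
    rw [mul_div_assoc, map_mul, mul_div_assoc, h4]

end

end Pool.Agent.Q20.SI
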