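import Pool.Agent.Q20.SI.Row2
import Pool.Agent.Q20.SI.Sub2

/-!
# Stark's rational conjecture of order `r`: Q1 from the characters
-/

set_option autoImplicit false
set_option linter.unusedSectionVars false

namespace Pool.Agent.Q20.SI

open NumberField IsDedekindDomain Pool.Agent.Q20.RS
open Pool.Agent.Q20.TR (bt)

section
variable {F M : Type} [Field F] [NumberField F] [Field M] [NumberField M] [Algebra F M]

theorem ell_pow (χ : (M ≃ₐ[F] M) →* ℂˣ) {x : M} (hx : x ≠ 0) (n : ℕ) (w : Pl M) :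
    ell χ (x ^ n) w = n * ell χ x w := by
  have h := map_nsmul (ellH χ w) n (Additive.ofMul (Units.mk0 x hx))
  rw [← ofMul_pow, ellH_apply, ellH_apply, nsmul_eq_mul, Units.val_pow_eq_pow_val,
    Units.val_mk0] at h
  exact h

theorem pow_cong (α : M) (N : ℕ) (P : HeightOneSpectrum (𝓞 M))
    (hα : NumberField.HeightOneSpectrum.adicAbv M P α = 1)
    (hN : Nat.card (𝓞 M ⧸ P.asIdeal)ˣ ∣ N) :
    NumberField.HeightOneSpectrum.adicAbv M P (α ^ N - 1) < 1 := by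
  have hNP : (1 : NNReal) < (Ideal.absNorm P.asIdeal : NNReal) := by
    exact_mod_cast NumberField.HeightOneSpectrum.one_lt_absNorm P
  have hval : ∀ x : M, NumberField.HeightOneSpectrum.adicAbv M P x < 1 ↔ P.valuation M x < 1 := by
    intro x
    rw [NumberField.HeightOneSpectrum.adicAbv_def]
    rw [← NNReal.coe_one, NNReal.coe_lt_coe]
    exact WithZeroMulInt.toNNReal_lt_one_iff hNP
  have hval1 : P.valuation M α = 1 := by
    rw [NumberField.HeightOneSpectrum.adicAbv_def, ← NNReal.coe_one, NNReal.coe_inj] at hα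
    exact (WithZeroMulInt.toNNReal_eq_one_iff _ (zero_lt_one.trans hNP).ne' hNP.ne').1 hα
  obtain ⟨a, b, hb, hab⟩ : ∃ a b : 𝓞 M, b ∉ P.asIdeal ∧
      α * algebraMap (𝓞 M) M b = algebraMap (𝓞 M) M a := by
    obtain ⟨n, d, h⟩ := HeightOneSpectrum.exists_primeCompl_mul_eq_of_integer (K := M) P α hval1.le
    exact ⟨n, d, d.2, h⟩
  have hb0 : algebraMap (𝓞 M) M b ≠ 0 := by
    intro h
    have h1 : b = 0 := by simpa using h
    exact hb (h1 ▸ P.asIdeal.zero_mem)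
  have hvb : P.valuation M (algebraMap (𝓞 M) M b) = 1 := by
    rw [HeightOneSpectrum.valuation_of_algebraMap]
    exact (HeightOneSpectrum.intValuation_eq_one_iff).2 hb
  have ha : a ∉ P.asIdeal := by
    have h1 : P.valuation M (algebraMap (𝓞 M) M a) = 1 := by
      rw [← hab, map_mul, hval1, hvb, one_mul]
    rw [HeightOneSpectrum.valuation_of_algebraMap] at h1
    exact (HeightOneSpectrum.intValuation_eq_one_iff).1 h1
  have hPm : P.asIdeal.IsMaximal := P.isMaximal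
  let _ : Field (𝓞 M ⧸ P.asIdeal) := Ideal.Quotient.field P.asIdeal
  have hfin : Finite (𝓞 M ⧸ P.asIdeal) := Ideal.finiteQuotientOfFreeOfNeBot P.asIdeal P.ne_bot
  have key : ∀ c : 𝓞 M, c ∉ P.asIdeal → c ^ N - 1 ∈ P.asIdeal := by
    intro c hc
    rw [← Ideal.Quotient.eq_zero_iff_mem, map_sub, map_pow, map_one, sub_eq_zero]
    have h1 : (Ideal.Quotient.mk P.asIdeal c) ≠ 0 := fun h =>
      hc (Ideal.Quotient.eq_zero_iff_mem.1 h)
    obtain ⟨k, rfl⟩ := hN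
    have h2 : (Units.mk0 _ h1) ^ Nat.card (𝓞 M ⧸ P.asIdeal)ˣ = 1 := pow_card_eq_one'
    have h3 := congrArg (fun z : (𝓞 M ⧸ P.asIdeal)ˣ => (z : 𝓞 M ⧸ P.asIdeal)) h2
    rw [pow_mul]
    simp only [Units.val_pow_eq_pow_val, Units.val_mk0, Units.val_one] at h3
    rw [h3, one_pow]
  have h1 : a ^ N - b ^ N ∈ P.asIdeal := by
    have h2 := P.asIdeal.sub_mem (key a ha) (key b hb)
    have h3 : a ^ N - 1 - (b ^ N - 1) = a ^ N - b ^ N := by ring
    rwa [h3] at h2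
  rw [hval]
  have h4 : (α ^ N - 1) * algebraMap (𝓞 M) M b ^ N = algebraMap (𝓞 M) M (a ^ N - b ^ N) := by
    rw [map_sub, map_pow, map_pow, ← hab]
    ring
  have h5 : P.valuation M (α ^ N - 1) = P.valuation M (algebraMap (𝓞 M) M (a ^ N - b ^ N)) := by
    rw [← h4, map_mul, map_pow, hvb, one_pow, mul_one]
  rw [h5, HeightOneSpectrum.valuation_of_algebraMap]
  exact (HeightOneSpectrum.intValuation_lt_one_iff_mem _ _).2 h1

end

section
variable {F K : Type} [Field F] [NumberField F] [Field K] [NumberField K] [Algebra F K]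
  (D : OrderData F K)

theorem exact_reps {χ : (K ≃ₐ[F] K) →* ℂˣ} (h : D.Exact χ) (hχ : ∃ g, χ g ≠ 1) :
    Reps χ (abv K D.S) D.w := by
  obtain ⟨-, h⟩ | ⟨h, -⟩ := h
  · exact ⟨D.mem, fun i g hg => by rw [D.split i g hg, map_one], h, D.dist⟩
  · obtain ⟨g, hg⟩ := hχ
    exact absurd (h g) hg

theorem exact_iff {χ χ' : (K ≃ₐ[F] K) →* ℂˣ} (h : ∀ g, χ' g = 1 ↔ χ g = 1) :
    D.Exact χ' ↔ D.Exact χ := by
  have h1 : ∀ v : Pl K, Triv χ' v ↔ Triv χ v := fun v =>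
    ⟨fun h2 g hg => (h g).1 (h2 g hg), fun h2 g hg => (h g).2 (h2 g hg)⟩
  unfold OrderData.Exact
  simp only [h1, h, ne_eq]

theorem cj_one (σ : ℂ ≃+* ℂ) (χ : (K ≃ₐ[F] K) →* ℂˣ) (g : K ≃ₐ[F] K) :
    cj σ χ g = 1 ↔ χ g = 1 := ker_conj (σ := σ) (fun _ => rfl) g

/-- the Euler factors at `T` -/
noncomputable def tf (χ : (K ≃ₐ[F] K) →* ℂˣ) : ℂ :=
  ∏ q ∈ D.T, (1 - cf χ (frb K q) * (Ideal.absNorm q.asIdeal : ℂ))

theorem tf_cj (σ : ℂ ≃+* ℂ) (χ : (K ≃ₐ[F] K) →* ℂˣ) : tf D (cj σ χ) = σ (tf D χ) := by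
  unfold tf
  rw [map_prod]
  refine Finset.prod_congr rfl fun q _ => ?_
  rw [map_sub, map_one, map_mul, map_natCast]
  rfl

theorem theta_exact {χ : (K ≃ₐ[F] K) →* ℂˣ} (h : D.Exact χ) :
    D.theta χ = lead D.S χ * tf D χ := by
  unfold OrderData.theta tf
  rw [if_pos h]

/-- Stark's equalities for `χ` in terms of units -/
def Good (χ : (K ≃ₐ[F] K) →* ℂˣ) : Prop :=
  ∃ α : Fin D.r → K, (∀ i, IsUnt (abv K D.S) (α i)) ∧
    (∀ σ : ℂ ≃+* ℂ, (ellM (cj σ χ) α D.w).det ≠ 0) ∧ ∀ σ : ℂ ≃+* ℂ,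
      σ ((ellM χ α D.w).det / lead D.S χ) = (ellM (cj σ χ) α D.w).det / lead D.S (cj σ χ)

theorem lead_ne [IsGalois F K] (χ : (K ≃ₐ[F] K) →* ℂˣ) : lead D.S χ ≠ 0 := leading_ne (lin_mem _ _)

theorem q1_of_good [IsGalois F K] (h : ∀ χ : (K ≃ₐ[F] K) →* ℂˣ, D.Exact χ → Good D χ) :
    D.Q1 := by
  classical
  let X : Type := {χ : (K ≃ₐ[F] K) →* ℂˣ // D.Exact χ}
  have hX : ∀ χ₀ : X, Good D χ₀.1 := fun χ₀ => h _ χ₀.2
  choose α hα hdet hst using hX
  have hlead : ∀ χ' : (K ≃ₐ[F] K) →* ℂˣ, lead D.S χ' ≠ 0 := lead_ne D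
  -- orbits
  let orb : ((K ≃ₐ[F] K) →* ℂˣ) → Finset ((K ≃ₐ[F] K) →* ℂˣ) := fun χ =>
    Finset.univ.filter fun χ' => ∃ σ : ℂ ≃+* ℂ, χ = cj σ χ'
  have horb : ∀ χ χ', χ' ∈ orb χ ↔ ∃ σ : ℂ ≃+* ℂ, χ = cj σ χ' := fun χ χ' => by
    rw [Finset.mem_filter]
    exact ⟨fun h => h.2, fun h => ⟨Finset.mem_univ _, h⟩⟩
  have horbc : ∀ (τ : ℂ ≃+* ℂ) χ, orb (cj τ χ) = orb χ := by
    intro τ χ
    ext χ'
    rw [horb, horb]
    constructor
    · rintro ⟨σ, hσ⟩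
      exact ⟨σ.trans τ.symm, by rw [← cj_cj, ← hσ, cj_symm]⟩
    · rintro ⟨σ, hσ⟩
      exact ⟨σ.trans τ, by rw [← cj_cj, ← hσ]⟩
  have horb0 : ∀ χ, ((orb χ).card : ℂ) ≠ 0 := by
    intro χ
    have h1 : χ ∈ orb χ := (horb χ χ).2 ⟨RingEquiv.refl ℂ, (cj_refl χ).symm⟩
    exact_mod_cast (Finset.card_pos.2 ⟨χ, h1⟩).ne'
  have hexo : ∀ χ χ', χ' ∈ orb χ → (D.Exact χ ↔ D.Exact χ') := by
    intro χ χ' h1
    obtain ⟨σ, rfl⟩ := (horb _ _).1 h1
    exact exact_iff D (cj_one σ χ')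
  have htheta : ∀ χ, D.Exact χ → D.theta χ = lead D.S χ * tf D χ := fun χ h1 => theta_exact D h1
  -- the coefficient functions
  let c : X → ((K ≃ₐ[F] K) →* ℂˣ) → ℂ := fun χ₀ χ =>
    if χ₀.1 ∈ orb χ then D.theta χ / (ellM χ (α χ₀) D.w).det / (orb χ).card else 0
  have hratio : ∀ (χ₀ : X) (σ : ℂ ≃+* ℂ),
      D.theta (cj σ χ₀.1) / (ellM (cj σ χ₀.1) (α χ₀) D.w).det =
        σ (tf D χ₀.1 * ((ellM χ₀.1 (α χ₀) D.w).det / lead D.S χ₀.1)⁻¹) := by
    intro χ₀ σ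
    have h1 : D.Exact (cj σ χ₀.1) := (exact_iff D (cj_one σ χ₀.1)).2 χ₀.2
    rw [htheta _ h1, map_mul, map_inv₀, hst, ← tf_cj]
    have h2 := hdet χ₀ σ
    have h3 := hlead (cj σ χ₀.1)
    field_simp
  have hc : ∀ (χ₀ : X) (τ : ℂ ≃+* ℂ) χ, c χ₀ (cj τ χ) = τ (c χ₀ χ) := by
    intro χ₀ τ χ
    change (if χ₀.1 ∈ orb (cj τ χ) then D.theta (cj τ χ) / (ellM (cj τ χ) (α χ₀) D.w).det /
      (orb (cj τ χ)).card else 0) = τ (if χ₀.1 ∈ orb χ then D.theta χ /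
        (ellM χ (α χ₀) D.w).det / (orb χ).card else 0)
    rw [horbc]
    by_cases h1 : χ₀.1 ∈ orb χ
    · rw [if_pos h1, if_pos h1, map_div₀, map_natCast]
      congr 1
      obtain ⟨σ, rfl⟩ := (horb _ _).1 h1
      rw [cj_cj, hratio χ₀ (σ.trans τ), hratio χ₀ σ]
      rfl
    · rw [if_neg h1, if_neg h1, map_zero]
  have hsum : ∀ χ, D.theta χ = ∑ χ₀ : X, c χ₀ χ * (ellM χ (α χ₀) D.w).det := by
    intro χ
    by_cases hχ : D.Exact χ
    · have h1 : ∀ χ₀ : X, c χ₀ χ * (ellM χ (α χ₀) D.w).det =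
          if χ₀.1 ∈ orb χ then D.theta χ / (orb χ).card else 0 := by
        intro χ₀
        change (if χ₀.1 ∈ orb χ then D.theta χ / (ellM χ (α χ₀) D.w).det / (orb χ).card else 0) *
          (ellM χ (α χ₀) D.w).det = _
        split_ifs with h2
        · obtain ⟨σ, rfl⟩ := (horb _ _).1 h2
          have h3 := hdet χ₀ σ
          field_simp
        · rw [zero_mul]
      rw [Finset.sum_congr rfl fun χ₀ _ => h1 χ₀]
      have h2 : ∑ χ₀ : X, (if χ₀.1 ∈ orb χ then D.theta χ / (orb χ).card else 0) =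
          ∑ χ' ∈ orb χ, D.theta χ / (orb χ).card := by
        rw [← Finset.sum_filter]
        refine Finset.sum_bij (fun χ₀ _ => χ₀.1) ?_ ?_ ?_ ?_
        · intro χ₀ h3
          exact (Finset.mem_filter.1 h3).2
        · intro a _ b _ h3
          exact Subtype.ext h3
        · intro χ' h3
          exact ⟨⟨χ', (hexo _ _ h3).1 hχ⟩, Finset.mem_filter.2 ⟨Finset.mem_univ _, h3⟩, rfl⟩
        · intro _ _
          rfl
      rw [h2, Finset.sum_const, nsmul_eq_mul]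
      have h3 := horb0 χ
      field_simp
    · have h1 : D.theta χ = 0 := by
        unfold OrderData.theta
        rw [if_neg hχ]
      rw [h1]
      symm
      refine Finset.sum_eq_zero fun χ₀ _ => ?_
      change (if χ₀.1 ∈ orb χ then D.theta χ / (ellM χ (α χ₀) D.w).det / (orb χ).card else 0) * _ = 0
      rw [if_neg fun h2 => hχ ((hexo _ _ h2).2 χ₀.2), zero_mul]
  choose a ha using fun χ₀ => fourier (c χ₀) (hc χ₀)
  -- powers of the units
  let N : ℕ := ∏ P ∈ abv K D.T, Nat.card (𝓞 K ⧸ P.asIdeal)ˣ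
  have hN : N ≠ 0 := by
    refine Finset.prod_ne_zero_iff.2 fun P _ => ?_
    have hfin : Finite (𝓞 K ⧸ P.asIdeal) := Ideal.finiteQuotientOfFreeOfNeBot P.asIdeal P.ne_bot
    exact Nat.card_pos.ne'
  let e := Fintype.equivFin X
  refine ⟨Fintype.card X, fun m g => a (e.symm m) g / (N : ℚ) ^ D.r,
    fun m j => α (e.symm m) j ^ N, fun m j => ⟨pow_ne_zero _ (hα _ j).1, fun P hP => ?_,
      fun P hP => ?_⟩, fun χ => ?_⟩
  · rw [map_pow, (hα _ j).2 P fun h1 => hP (mem_abv.1 h1), one_pow]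
  · refine pow_cong _ N P ((hα _ j).2 P fun h1 => ?_) (Finset.dvd_prod_of_mem _ (mem_abv.2 hP))
    exact D.disj _ hP (mem_abv.1 h1)
  · rw [hsum χ, ← e.symm.sum_comp]
    refine Finset.sum_congr rfl fun m _ => ?_
    have hNC : (N : ℂ) ^ D.r ≠ 0 := pow_ne_zero _ (by exact_mod_cast hN)
    have h1 : ellM χ (fun j => α (e.symm m) j ^ N) D.w = (N : ℂ) • ellM χ (α (e.symm m)) D.w := by
      ext i j
      exact ell_pow χ (hα _ j).1 N (D.w i)
    have h2 : ∑ g, ((a (e.symm m) g / (N : ℚ) ^ D.r : ℚ) : ℂ) * cf χ g =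
        c (e.symm m) χ / (N : ℂ) ^ D.r := by
      rw [ha (e.symm m) χ, Finset.sum_div]
      refine Finset.sum_congr rfl fun g _ => ?_
      push_cast
      rw [cf]
      ring
    rw [h2, h1, Matrix.det_smul, Fintype.card_fin]
    field_simp

end

end Pool.Agent.Q20.SI
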