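import Pool.Agent.Q20.SI.Row2a

/-!
# Stark's rational conjecture of order `r`: the characters from Q1
-/

set_option autoImplicit false
set_option linter.unusedSectionVars false

namespace Pool.Agent.Q20.SI

open NumberField IsDedekindDomain Pool.Agent.Q20.RS
open Pool.Agent.Q20.TR (bt)

section
variable {E M : Type} [Field E] [NumberField E] [Field M] [NumberField M] [Algebra E M]
  (D : OrderData E M)

theorem norm_cf (χ : (M ≃ₐ[E] M) →* ℂˣ) (g : M ≃ₐ[E] M) : ‖cf χ g‖ = 1 := by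
  have h1 : cf χ g ^ Fintype.card (M ≃ₐ[E] M) = 1 := by
    unfold cf
    rw [← Units.val_pow_eq_pow_val, ← map_pow, pow_card_eq_one, map_one, Units.val_one]
  exact Complex.norm_eq_one_of_pow_eq_one h1 Fintype.card_ne_zero

theorem tf_ne (χ : (M ≃ₐ[E] M) →* ℂˣ) : tf D χ ≠ 0 := by
  refine Finset.prod_ne_zero_iff.2 fun q _ h => ?_
  have h1 : (1 : ℂ) = cf χ (frb M q) * (Ideal.absNorm q.asIdeal : ℂ) := sub_eq_zero.1 h
  have h2 := congrArg norm h1
  rw [norm_mul, norm_cf, one_mul, norm_one, Complex.norm_natCast] at h2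
  have h3 : (1 : ℝ) < (Ideal.absNorm q.asIdeal : ℝ) := by
    exact_mod_cast NumberField.HeightOneSpectrum.one_lt_absNorm q
  exact h3.ne h2

theorem isU_isUnt {u : M} (h : D.IsU u) : IsUnt (abv M D.S) u :=
  ⟨h.1, fun w hw => h.2.1 w fun h1 => hw (mem_abv.2 h1)⟩

/-- **Stark's equality from Q1** -/
theorem stark_of_q1 (hCMP : S_CMP) (hREG : S_REG) (hORB : S_ORB) (hEXI : S_EXI) (hRAM : S_RAM)
    [IsGalois E M] (hQ : D.Q1) {χ : (M ≃ₐ[E] M) →* ℂˣ} (hex : D.Exact χ) (hχ : ∃ g, χ g ≠ 1)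
    {K : Type} [Field K] [NumberField K] [Algebra K E] [Algebra K M] [IsScalarTower K E M]
    {E' : IntermediateField K (AlgebraicClosure K)} (j : M →ₐ[K] AlgebraicClosure K)
    (hm : ∀ z, z ∈ E' ↔ ∃ x : E, j (algebraMap E M x) = z) (ψ : E'.fixingSubgroup → ℂ)
    (hψ : Infl j ψ (cf χ)) (σ : ℂ ≃+* ℂ) :
    ∃ N₀ : IntermediateField K (AlgebraicClosure K), FiniteDimensional K N₀ ∧
      ∀ ℓ : Level K, N₀ ≤ ℓ.N → σ (ℓ.A (F₀ := E') ψ) = ℓ.A (F₀ := E') fun g => σ (ψ g) := by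
  classical
  have hT := stable_abv hORB (K := M) D.S
  have hR := ram_abv hORB D.ram
  obtain ⟨α, hα, hdet, hst⟩ := stark_crit hCMP hORB hEXI hRAM D.comm j hm (abv M D.S) hT hR χ hχ
    D.w (exact_reps D hex hχ)
  refine (hst σ ψ hψ).2 fun χ' h' => ?_
  obtain ⟨n, a, u, hu, hQ⟩ := hQ
  have hd0 := hdet χ fun _ => Iff.rfl
  choose c hc using fun m i => cmp_span hREG hEXI (abv M D.S) hT χ hχ D.w (exact_reps D hex hχ)
    α hα hd0 (isU_isUnt D (hu m i))
  let C : Fin n → Matrix (Fin D.r) (Fin D.r) ℂ := fun m => Matrix.of fun l i => c m i l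
  have hC : ∀ (σ : ℂ ≃+* ℂ) (χ' : (M ≃ₐ[E] M) →* ℂˣ), (∀ g, cf χ' g = σ (cf χ g)) → ∀ m,
      (ellM χ' (u m) D.w).det = (ellM χ' α D.w).det * σ (C m).det := by
    intro σ χ' h' m
    have h1 : ellM χ' (u m) D.w = ellM χ' α D.w * (C m).map σ := by
      ext i k
      rw [Matrix.mul_apply]
      refine (hc m k σ χ' h' i).trans (Finset.sum_congr rfl fun l _ => ?_)
      change σ (c m k l) * ell χ' (α l) (D.w i) = ell χ' (α l) (D.w i) * σ (c m k l)
      ring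
    have h2 : ((C m).map σ).det = σ (C m).det := ((σ : ℂ →+* ℂ).map_det (C m)).symm
    rw [h1, Matrix.det_mul, h2]
  let B : ℂ := ∑ m, (∑ g, (a m g : ℂ) * cf χ g) * (C m).det
  have hB : ∀ (σ : ℂ ≃+* ℂ) (χ' : (M ≃ₐ[E] M) →* ℂˣ), (∀ g, cf χ' g = σ (cf χ g)) →
      D.theta χ' = (ellM χ' α D.w).det * σ B := by
    intro σ χ' h'
    rw [hQ χ']
    change _ = _ * σ (∑ m, (∑ g, (a m g : ℂ) * cf χ g) * (C m).det)
    rw [map_sum, Finset.mul_sum]
    refine Finset.sum_congr rfl fun m _ => ?_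
    rw [hC σ χ' h' m, map_mul, map_sum]
    have h2 : ∀ g, σ ((a m g : ℂ) * cf χ g) = (a m g : ℂ) * cf χ' g := by
      intro g
      rw [map_mul, map_ratCast, h']
    rw [Finset.sum_congr rfl fun g _ => h2 g]
    ring
  have hex' : D.Exact χ' := (exact_iff D (ker_conj (σ := σ) h')).2 hex
  have h1 := hB (RingEquiv.refl ℂ) χ fun _ => rfl
  have h2 := hB σ χ' h'
  rw [theta_exact D hex] at h1
  rw [theta_exact D hex'] at h2
  change lead D.S χ * tf D χ = (ellM χ α D.w).det * B at h1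
  have h3 : tf D χ' = σ (tf D χ) := by
    have h4 : χ' = cj σ χ := by
      ext g
      exact h' g
    rw [h4, tf_cj]
  rw [h3] at h2
  have n1 := lead_ne D χ
  have n2 := lead_ne D χ'
  have n3 := tf_ne D χ
  have n4 : σ (tf D χ) ≠ 0 := (map_ne_zero σ).2 n3
  have n5 : B ≠ 0 := by
    intro h0
    rw [h0, mul_zero] at h1
    exact mul_ne_zero n1 n3 h1
  have n6 : σ B ≠ 0 := (map_ne_zero σ).2 n5
  have e1 : (ellM χ α D.w).det / lead D.S χ = tf D χ / B := by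
    rw [div_eq_div_iff n1 n5]
    linear_combination -h1
  have e2 : (ellM χ' α D.w).det / lead D.S χ' = σ (tf D χ) / σ B := by
    rw [div_eq_div_iff n2 n6]
    linear_combination -h2
  change σ ((ellM χ α D.w).det / lead D.S χ) = (ellM χ' α D.w).det / lead D.S χ'
  rw [e1, e2, map_div₀]

/-- `Good` from Stark's equality -/
theorem good_of_stark (hCMP : S_CMP) (hORB : S_ORB) (hEXI : S_EXI) (hRAM : S_RAM)
    [IsGalois E M] {χ : (M ≃ₐ[E] M) →* ℂˣ} (hex : D.Exact χ) (hχ : ∃ g, χ g ≠ 1)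
    {K : Type} [Field K] [NumberField K] [Algebra K E] [Algebra K M] [IsScalarTower K E M]
    {E' : IntermediateField K (AlgebraicClosure K)} (j : M →ₐ[K] AlgebraicClosure K)
    (hm : ∀ z, z ∈ E' ↔ ∃ x : E, j (algebraMap E M x) = z) (ψ : E'.fixingSubgroup → ℂ)
    (hψ : Infl j ψ (cf χ))
    (h : ∀ σ : ℂ ≃+* ℂ, ∃ N₀ : IntermediateField K (AlgebraicClosure K),
      FiniteDimensional K N₀ ∧
        ∀ ℓ : Level K, N₀ ≤ ℓ.N → σ (ℓ.A (F₀ := E') ψ) = ℓ.A (F₀ := E') fun g => σ (ψ g)) :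
    Good D χ := by
  have hT := stable_abv hORB (K := M) D.S
  have hR := ram_abv hORB D.ram
  obtain ⟨α, hα, hdet, hst⟩ := stark_crit hCMP hORB hEXI hRAM D.comm j hm (abv M D.S) hT hR χ hχ
    D.w (exact_reps D hex hχ)
  exact ⟨α, hα, fun σ => hdet _ (cj_one σ χ), fun σ => (hst σ ψ hψ).1 (h σ) (cj σ χ) fun _ => rfl⟩

end

end Pool.Agent.Q20.SI
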