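import Pool.Agent.Q20.SI.Stm2

/-!
# Project SI, second part: trivial characters, large levels, auxiliary primes
(statements of the lemma jobs; the docstrings contain the proofs)
-/

set_option autoImplicit false
set_option linter.unusedSectionVars false

namespace Pool.Agent.Q20.SI

open NumberField IsDedekindDomain Pool.Agent.Q20.RS

/-- JOB RAM. All sufficiently large finite extensions of `K` in `K̄` are ramified at the given primes.
PROOF. For `p ∈ S` choose `π_p ∈ 𝓞 K` with `π_p ∈ p`, `π_p ∉ p²` and a square root `y_p ∈ K̄` of `π_p`; `N₀` is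
generated by the `y_p`. Let `N ⊇ N₀`, `P` a prime of `N` above `p` with `p ⊄ P²` (from `Unrm N p`): then
`v_P(π_p) = 1` (ramification index one: `v_P(x) = e v_p(x)`; or directly: `π_p 𝓞 = p 𝔞` with `𝔞` prime to `p`), but
`π_p = y_p²` is a square in `N`: contradiction. A prime `P` above `p` exists (lying over). -/
def S_RAM : Prop :=
  ∀ (K : Type) [Field K] [NumberField K] (S : Finset (HeightOneSpectrum (𝓞 K))),
    ∃ N₀ : IntermediateField K (AlgebraicClosure K), FiniteDimensional K N₀ ∧
      ∀ (N : IntermediateField K (AlgebraicClosure K)) [NumberField N], N₀ ≤ N →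
        ∀ p ∈ S, ¬ Unrm N p

/-- JOB NSP. Primes whose decomposition group contains a given element.
PROOF. Chebotarev's theorem is in the library: `Pool.Agent.Q15.GR.frob_dense` (Frobenius elements in
`Gal(F̄/F)` at the primes outside a finite set are dense; `IsFrob` in `Pool.Agent.W401.Cheb`). Embed `M` in `F̄`,
let `g' ∈ Gal(F̄/F)` extend `g`; the elements with restriction `g` are an open set, so there are `v ∉ S` and
a Frobenius element `σ` at `v` with restriction `g`: a maximal ideal `Q` of the integers of `F̄` above `v`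
with `σ x ≡ x^(N v)` modulo `Q`, so `σ Q = Q`; `P = Q ∩ M`. -/
def S_NSP : Prop :=
  ∀ (F M : Type) [Field F] [NumberField F] [Field M] [NumberField M] [Algebra F M] [IsGalois F M]
    (g : M ≃ₐ[F] M) (S : Finset (HeightOneSpectrum (𝓞 F))),
    ∃ P : HeightOneSpectrum (𝓞 M), P.under (𝓞 F) ∉ S ∧ pra g P = P

/-- JOB AUX. Primes of large residue characteristic. -/
def S_AUX : Prop :=
  ∀ (F : Type) [Field F] [NumberField F] (S : Finset (HeightOneSpectrum (𝓞 F))) (n : ℕ),
    ∃ (q : HeightOneSpectrum (𝓞 F)) (p : ℕ), q ∉ S ∧ p.Prime ∧ n < p ∧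
      ((p : ℕ) : 𝓞 F) ∈ q.asIdeal

/-- JOB CN0. The class number formula at `s = 0` up to a rational number.
PROOF. For `Re s > 1` `artinLS ∅ 1 s = ζ_F(s)` (Euler product, `exp (∑ z^n/n) = (1-z)⁻¹`). The functional equation
is in the library (ideal class characters, the trivial one: `Pool.Agent.Q246.Unr.UC.fe`; or primitive ray
class characters: `Pool.Agent.Q246.HPk.unr_pk`, see the docstring of `S_RAYD` in `Pool/Agent/Q253/NF/Stm2.lean`):
`Λ(s) = |d|^(s/2) Γ_ℝ(s)^r₁ Γ_ℂ(s)^r₂ ζ_F(s) = w Λ(1-s)`, `w = ±1` (real on the real axis). Mathlib has the residue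
of `ζ_F` at `1`: `2^r₁ (2π)^r₂ h R/(#μ √|d|)` (`NumberField.dedekindZeta_residue`). As `Γ_ℝ(1) = 1`,
`Γ_ℂ(1) = 1/π`, the residue of `Λ` at `1` is `2^(r₁+r₂) h R/#μ`, and `Λ(s) ~ (2/s)^(r₁+r₂) ζ_F(s)` at `0`: the leading
coefficient of `ζ_F` at `0` is `± h R/#μ`. `leading` is the trailing coefficient at `0` of any meromorphic
continuation (`mcont`, `Conts`, uniqueness in `RS/Cnt.lean`). -/
def S_CN0 : Prop :=
  ∀ (F : Type) [Field F] [NumberField F], ∃ q : ℚ, q ≠ 0 ∧
    leading (F := F) (M := F) ∅ (fun _ => 1) = (q : ℂ) * ((Units.regulator F : ℝ) : ℂ)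

/-- JOB RGA. The regulator of the trivial character for the extension `F/F`.
PROOF. The Galois group is trivial, so `HomD ρ X ≅ X = XC T` (`n = 1`) and the regulator is the determinant of `θ`
on `XC T`. Fix an archimedean place `v₀`. Rational basis: `[v] - [v₀]`, `v ≠ v₀`. By `θ.rational` the determinant
is a nonzero rational number times the determinant of the matrix of the vectors `(- logv u v)_{v ≠ v₀}` for a
`ℚ`-basis of the rational span of the vectors of `T`-units, e.g. a fundamental system of units and for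
`P ∈ T` generators `π_P` of `P^h` (see the proof of `S_TUN` in `Pool/Agent/Q259/SI`): block triangular, the units
are `0` at the primes, `- logv π_P P = h log N P`, and the archimedean block is `±` the regulator
(`NumberField.Units.regulator_eq_det`). -/
def S_RGA : Prop :=
  ∀ (F : Type) [Field F] [NumberField F] (T : Finset (HeightOneSpectrum (𝓞 F)))
    (hT : Stable F T) (θ : StarkMap hT) (n : ℕ)
    (ρ : Representation ℂ (F ≃ₐ[F] F) (Fin n → ℂ)), (∀ g, ρ.character g = 1) →
    ∃ q : ℚ, q ≠ 0 ∧ regul ρ (XRep hT) θ.map = (q : ℂ) * ((Units.regulator F : ℝ) : ℂ) *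
      ∏ v ∈ T, ((Real.log (Ideal.absNorm v.asIdeal) : ℝ) : ℂ)

/-- JOB RGB. The regulator of the trivial character for `M/F` and for `F/F`.
PROOF. `n = 1` and `HomD ρ X ≅ X^G`, so the regulator is the determinant of `θ` on the `G`-invariants of `XC T`;
these are the functions `x` with `x(g w) = x(w)`. The map `j : XC T₀ → (XC T)^G`, `(j y)(w) = y(w|F) n(w)` with the
local degrees `n(w)` (`logv (algebraMap F M u) w = n(w) logv u (w|F)`, see `S_NRM` and its proof in
`Pool/Agent/Q190/SI/Nrm.lean`; `∑_{w | v} n(w) = [M:F]`) is an isomorphism; it maps `Rational` onto the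
rational invariants and `LogUnit` onto the invariant elements of `LogUnit` (for `x = λ(u)/m` invariant take the
norm of `u`: `[M:F] x = λ(N u)/m`). So `θ` and `j θ₀ j⁻¹` are two isomorphisms of the rational invariants with the
invariant elements of `LogUnit`, and the determinants differ by a nonzero rational number. -/
def S_RGB : Prop :=
  ∀ (F M : Type) [Field F] [NumberField F] [Field M] [NumberField M] [Algebra F M] [IsGalois F M]
    (T : Finset (HeightOneSpectrum (𝓞 M))) (hT : Stable F T) (θ : StarkMap hT)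
    (T₀ : Finset (HeightOneSpectrum (𝓞 F))) (hT₀ : Stable F T₀) (θ₀ : StarkMap hT₀),
    (∀ P : HeightOneSpectrum (𝓞 M), P ∈ T ↔ P.under (𝓞 F) ∈ T₀) →
    ∀ (n : ℕ) (ρ : Representation ℂ (M ≃ₐ[F] M) (Fin n → ℂ)), (∀ g, ρ.character g = 1) →
    ∀ (n₀ : ℕ) (ρ₀ : Representation ℂ (F ≃ₐ[F] F) (Fin n₀ → ℂ)), (∀ g, ρ₀.character g = 1) →
    ∃ q : ℚ, q ≠ 0 ∧ regul ρ (XRep hT) θ.map = (q : ℂ) * regul ρ₀ (XRep hT₀) θ₀.map

end Pool.Agent.Q20.SI
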