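import Pool.Agent.Q20.SI.Red
import Pool.Agent.Q20.SI.Stm3

/-!
# Stark's numbers of linear characters over finite extensions of the base field
-/

set_option autoImplicit false
set_option linter.unusedSectionVars false

namespace Pool.Agent.Q20.SI

open NumberField IsDedekindDomain Pool.Agent.Q20.RS Pool.Agent.Q92.AR
open Pool.Agent.Q20.TR (bt)

theorem indj_comp {H' H Γ : Type} [Group H'] [Fintype H'] [Group H] [Fintype H] [Group Γ]
    [Fintype Γ] (e : H' →* H) (he : Function.Bijective e) (j : H →* Γ) (f : H → ℂ) :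
    indj (j.comp e) (fun x => f (e x)) = indj j f := by
  classical
  funext g
  unfold indj
  rw [Nat.card_eq_of_bijective e he]
  congr 1
  refine Finset.sum_congr rfl fun x _ => ?_
  exact (Equiv.ofBijective e he).sum_comp fun h => if j h = x⁻¹ * g * x then f h else 0

section
variable {K E : Type} [Field K] [NumberField K] [Field E] [NumberField E] [Algebra K E]
  {E' : IntermediateField K (AlgebraicClosure K)}

section base
variable {N : IntermediateField K (AlgebraicClosure K)} [FiniteDimensional K N] [Normal K N]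
  [Algebra E N] [IsScalarTower K E N] {i : E → AlgebraicClosure K}

/-- change of the name of the base field -/
noncomputable def toE (hi : ∀ x : E, ((algebraMap E N x : N) : AlgebraicClosure K) = i x)
    (hm : ∀ z, z ∈ E' ↔ ∃ x, i x = z) : (N ≃ₐ[sb N E'] N) →* (N ≃ₐ[E] N) where
  toFun y := AlgEquiv.ofRingEquiv (f := (y : N ≃+* N)) fun x => by
    have h1 : algebraMap E N x ∈ sb N E' := (hm _).2 ⟨x, (hi x).symm⟩
    exact y.commutes ⟨_, h1⟩
  map_one' := rfl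
  map_mul' _ _ := rfl

theorem toE_apply (hi : ∀ x : E, ((algebraMap E N x : N) : AlgebraicClosure K) = i x)
    (hm : ∀ z, z ∈ E' ↔ ∃ x, i x = z) (y : N ≃ₐ[sb N E'] N) (x : N) : toE hi hm y x = y x := rfl

theorem toE_bij (hi : ∀ x : E, ((algebraMap E N x : N) : AlgebraicClosure K) = i x)
    (hm : ∀ z, z ∈ E' ↔ ∃ x, i x = z) : Function.Bijective (toE (E := E) hi hm) := by
  constructor
  · intro a b h
    ext x
    exact congrArg (fun z : N ≃ₐ[E] N => ((z x : N) : AlgebraicClosure K)) h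
  · intro z
    refine ⟨AlgEquiv.ofRingEquiv (f := (z : N ≃+* N)) fun x => ?_, ?_⟩
    · obtain ⟨x', hx'⟩ := (hm _).1 x.2
      have h1 : algebraMap (sb N E') N x = algebraMap E N x' := by
        apply Subtype.ext
        rw [hi, hx']
        rfl
      rw [h1]
      exact z.commutes x'
    · ext x
      rfl

end base

/-- Stark's numbers over `E` -/
theorem A_sub (ℓ : Level K) [Algebra E ℓ.N] [IsScalarTower K E ℓ.N] [IsGalois E ℓ.N]
    {i : E → AlgebraicClosure K} (hi : ∀ x : E, ((algebraMap E ℓ.N x : ℓ.N) : AlgebraicClosure K) = i x)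
    (hm : ∀ z, z ∈ E' ↔ ∃ x, i x = z) {χ : E'.fixingSubgroup → ℂ} {n : ℕ}
    (ρ : Representation ℂ (ℓ.N ≃ₐ[E] ℓ.N) (Fin n → ℂ))
    (hρ : ∀ (y : ℓ.N ≃ₐ[E] ℓ.N) (g : E'.fixingSubgroup),
      (∀ x : ℓ.N, ((y x : ℓ.N) : AlgebraicClosure K) = (g : Gal(AlgebraicClosure K/K)) x) →
        ρ.character y = χ g) :
    ℓ.A (F₀ := E') χ = starkA (ℓ.θ.res (F := E) ℓ.stable.tower) ρ := by
  classical
  have hle : E' ≤ ℓ.N := by
    intro z hz
    obtain ⟨x, hx⟩ := (hm z).1 hz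
    rw [← hx, ← hi]
    exact (algebraMap E ℓ.N x).2
  let ρ' : Representation ℂ (ℓ.N ≃ₐ[sb ℓ.N E'] ℓ.N) (Fin n → ℂ) := MonoidHom.comp ρ (toE hi hm)
  have hch : ρ'.character = fun y => ρ.character (toE hi hm y) := rfl
  have h1 : HasChar ρ' χ := by
    intro y g hy
    rw [hch]
    exact hρ _ g hy
  obtain ⟨h2, -, h3⟩ := ℓ.A_eq hle h1
  obtain ⟨h4, h5⟩ := starkA_val (K := K) (F := E) ℓ.ram ℓ.θ ℓ.stable.tower ρ
  rw [h3, h5]
  congr 1
  apply Subtype.ext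
  change indj (rsc K (sb ℓ.N E') ℓ.N) ρ'.character = indj (rsc K E ℓ.N) ρ.character
  rw [hch, ← indj_comp (toE hi hm) (toE_bij hi hm) (rsc K E ℓ.N)]
  congr 1

variable {M : Type} [Field M] [NumberField M] [Algebra K M] [Algebra E M] [IsScalarTower K E M]

/-- the function `ψ` on `Gal(K̄/E')` is the inflation of the function `χ` on `Gal(M/E)`, `M` embedded
in `K̄` by `j` -/
def Infl (j : M →ₐ[K] AlgebraicClosure K) (ψ : E'.fixingSubgroup → ℂ) (χ : (M ≃ₐ[E] M) → ℂ) :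
    Prop :=
  ∀ (y : M ≃ₐ[E] M) (g : E'.fixingSubgroup),
    (∀ x : M, j (y x) = (g : Gal(AlgebraicClosure K/K)) (j x)) → χ y = ψ g

theorem A_infl (ℓ : Level K) [Algebra M ℓ.N] [Algebra E ℓ.N] [IsScalarTower K E ℓ.N]
    [IsScalarTower E M ℓ.N] [IsGalois E ℓ.N] [IsGalois E M] (j : M →ₐ[K] AlgebraicClosure K)
    (hj : ∀ x : M, ((algebraMap M ℓ.N x : ℓ.N) : AlgebraicClosure K) = j x)
    (hm : ∀ z, z ∈ E' ↔ ∃ x : E, j (algebraMap E M x) = z) (χ : (M ≃ₐ[E] M) →* ℂˣ)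
    {ψ : E'.fixingSubgroup → ℂ} (h : Infl j ψ (cf χ)) {n : ℕ}
    (ρ : Representation ℂ (ℓ.N ≃ₐ[E] ℓ.N) (Fin n → ℂ))
    (hρ : ∀ g, ρ.character g = cf (up ℓ.N χ) g) :
    ℓ.A (F₀ := E') ψ = starkA (ℓ.θ.res (F := E) ℓ.stable.tower) ρ := by
  refine A_sub ℓ (i := fun x => j (algebraMap E M x)) (fun x => ?_) hm ρ fun y g hy => ?_
  · rw [IsScalarTower.algebraMap_apply E M ℓ.N, hj]
  · rw [hρ]
    refine h (AlgEquiv.restrictNormalHom M y) g fun x => ?_
    have h1 : algebraMap M ℓ.N ((AlgEquiv.restrictNormalHom M y) x) = y (algebraMap M ℓ.N x) :=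
      AlgEquiv.restrictNormal_commutes y M x
    rw [← hj, h1, hy, hj]

/-- large levels contain given primes -/
theorem big_levels (hRAM : S_RAM) (hORB : S_ORB) (S : Finset (HeightOneSpectrum (𝓞 K))) :
    ∃ N₁ : IntermediateField K (AlgebraicClosure K), FiniteDimensional K N₁ ∧
      ∀ ℓ : Level K, N₁ ≤ ℓ.N → ∀ P : HeightOneSpectrum (𝓞 ℓ.N), P.under (𝓞 K) ∈ S → P ∈ ℓ.T := by
  obtain ⟨N₁, h1, h2⟩ := hRAM K S
  refine ⟨N₁, h1, fun ℓ hℓ P hP => ?_⟩
  by_contra hPT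
  exact not_inS hORB ℓ.stable hPT (ℓ.ram _ (h2 ℓ.N hℓ _ hP))

/-- a large level -/
theorem exists_lvl (hORB : S_ORB) (hEXI : S_EXI) (N₀ : IntermediateField K (AlgebraicClosure K))
    [FiniteDimensional K N₀] : ∃ ℓ : Level K, N₀ ≤ ℓ.N := by
  obtain ⟨ℓ, -, -, h, -⟩ := exists_level hORB hEXI N₀ (⊥ : IntermediateField K (AlgebraicClosure K)) ∅
  exact ⟨ℓ, h⟩

/-- the statement of the comparison with the span property -/
theorem cmp_span (hREG : S_REG) (hEXI : S_EXI) [IsGalois E M]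
    (T : Finset (HeightOneSpectrum (𝓞 M))) (hT : Stable E T) (χ : (M ≃ₐ[E] M) →* ℂˣ)
    (hχ : ∃ g, χ g ≠ 1) {ι : Type} [Fintype ι] [DecidableEq ι] (w : ι → Pl M)
    (hw : Reps χ T w) (α : ι → M) (hα : ∀ i, IsUnt T (α i)) (hdet : (ellM χ α w).det ≠ 0)
    {u : M} (hu : IsUnt T u) : ∃ c : ι → ℂ, ∀ (σ : ℂ ≃+* ℂ) (χ' : (M ≃ₐ[E] M) →* ℂˣ),
      (∀ g, cf χ' g = σ (cf χ g)) → ∀ i, ell χ' u (w i) = ∑ j, σ (c j) * ell χ' (α j) (w i) := by
  classical
  obtain ⟨θM⟩ := hEXI E M T hT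
  obtain ⟨qM, α₀, hqM, hα₀, -, hspan⟩ := hREG E M T hT θM χ hχ ι w hw
  choose κ hκ using fun j => hspan (α j) (hα j)
  obtain ⟨k, hk⟩ := hspan u hu
  let A : ((M ≃ₐ[E] M) →* ℂˣ) → Matrix ι ι ℂ := fun χ' =>
    Matrix.of fun l j => ∑ g, (κ j l g : ℂ) * cf χ' g
  let b : ((M ≃ₐ[E] M) →* ℂˣ) → ι → ℂ := fun χ' l => ∑ g, (k l g : ℂ) * cf χ' g
  have hA : ∀ χ' : (M ≃ₐ[E] M) →* ℂˣ, (∀ g, χ' g = 1 ↔ χ g = 1) →
      ellM χ' α w = ellM χ' α₀ w * A χ' := by
    intro χ' h'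
    ext i j
    rw [Matrix.mul_apply]
    refine (hκ j χ' h' i).trans (Finset.sum_congr rfl fun l _ => ?_)
    change _ = ell χ' (α₀ l) (w i) * ∑ g, (κ j l g : ℂ) * cf χ' g
    rw [mul_comm]
  have hdA : IsUnit (A χ).det := by
    rw [isUnit_iff_ne_zero]
    intro h0
    apply hdet
    rw [hA χ fun _ => Iff.rfl, Matrix.det_mul, h0, mul_zero]
  let c : ι → ℂ := (A χ)⁻¹.mulVec (b χ)
  have hc : (A χ).mulVec c = b χ := by
    change (A χ).mulVec ((A χ)⁻¹.mulVec (b χ)) = b χ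
    rw [Matrix.mulVec_mulVec, Matrix.mul_nonsing_inv _ hdA, Matrix.one_mulVec]
  refine ⟨c, fun σ χ' h' i => ?_⟩
  have hkr : ∀ g, χ' g = 1 ↔ χ g = 1 := ker_conj (σ := σ) h'
  have hc' : ∀ l, ∑ j, A χ' l j * σ (c j) = b χ' l := by
    intro l
    have h1 := congrArg σ (congrFun hc l)
    change σ (∑ j, A χ l j * c j) = σ (∑ g, (k l g : ℂ) * cf χ g) at h1
    rw [map_sum, map_sum] at h1
    have h2 : ∀ j, A χ' l j * σ (c j) = σ (A χ l j * c j) := by
      intro j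
      rw [map_mul]
      congr 1
      change ∑ g, (κ j l g : ℂ) * cf χ' g = σ (∑ g, (κ j l g : ℂ) * cf χ g)
      rw [map_sum]
      refine Finset.sum_congr rfl fun g _ => ?_
      rw [map_mul, map_ratCast, h']
    rw [Finset.sum_congr rfl fun j _ => h2 j, h1]
    refine Finset.sum_congr rfl fun g _ => ?_
    rw [map_mul, map_ratCast, h']
  rw [hk χ' hkr i]
  have h3 : ∀ l, (∑ g, (k l g : ℂ) * cf χ' g) * ell χ' (α₀ l) (w i) =
      ∑ j, σ (c j) * (ell χ' (α₀ l) (w i) * A χ' l j) := by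
    intro l
    change b χ' l * _ = _
    rw [← hc' l, Finset.sum_mul]
    refine Finset.sum_congr rfl fun j _ => ?_
    ring
  rw [Finset.sum_congr rfl fun l _ => h3 l, Finset.sum_comm]
  refine Finset.sum_congr rfl fun j _ => ?_
  rw [← Finset.mul_sum]
  congr 1
  have h4 := congrFun (congrFun (hA χ' hkr) i) j
  rw [Matrix.mul_apply] at h4
  exact h4.symm

end

end Pool.Agent.Q20.SI
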