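import Pool.Agent.Q20.SI.Row1
import Pool.Agent.Q20.SI.Sub1

/-!
# Rationality of the `χ`-parts of Rubin–Stark elements in abelian extensions
-/

set_option autoImplicit false
set_option linter.unusedSectionVars false

namespace Pool.Agent.Q20.SI

open NumberField IsDedekindDomain Pool.Agent.Q20.RS
open Pool.Agent.Q20.RS.RL (Twister Dihedral StarkEq)

/-- **The data of the question**: an abelian extension `K` of `F` with group `G` (in the question
`K = L_n`, `F = k`), the set `S` of the finite places in question (it contains the ramified ones; the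
archimedean places are always included), a character `χ` of `G`, a subgroup `N` of `G` on which `χ` is
nontrivial (in the question the subgroup `Δ` of `Δ_n = Δ × Γ_n`), a field `E` of complex numbers which
contains the values of `χ` on `N`, and places `w_1, …, w_r` of `K` above different places in `S` whose
decomposition groups are contained in `N` and in the kernel of `χ`. The characters `χη` of the question
are the characters `ψ` of `G` with `ψ = χ` on `N`. -/
structure PartData (F K : Type) [Field F] [NumberField F] [Field K] [NumberField K]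
    [Algebra F K] : Type where
  comm : ∀ a b : K ≃ₐ[F] K, a * b = b * a
  /-- the finite places in `S` -/
  S : Finset (HeightOneSpectrum (𝓞 F))
  ram : ∀ p : HeightOneSpectrum (𝓞 F), ¬ Unrm K p → p ∈ S
  /-- the character -/
  χ : (K ≃ₐ[F] K) →* ℂˣ
  /-- the subgroup -/
  N : Subgroup (K ≃ₐ[F] K)
  ne : ∃ g ∈ N, χ g ≠ 1
  /-- the field of coefficients -/
  E : Subfield ℂ
  val : ∀ g ∈ N, cf χ g ∈ E
  /-- the number of the places -/
  r : ℕ
  /-- the places -/
  w : Fin r → Pl K
  mem : ∀ i, InPl (abv K S) (w i)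
  dec : ∀ (i : Fin r) (g : K ≃ₐ[F] K), pact g (w i) = w i → g ∈ N ∧ χ g = 1
  dist : ∀ (i j : Fin r) (g : K ≃ₐ[F] K), pact g (w i) = w j → i = j

section
variable {F K : Type} [Field F] [NumberField F] [Field K] [NumberField K] [Algebra F K]
  (D : PartData F K)

/-- `ψ = χη` with `η` trivial on `N`, and the order of vanishing of `L_S(s, ψ)` at `s = 0` is `r`: `ψ` is not
trivial on the decomposition groups of the places in `S` which are not below some `w_i` -/
def PartData.Exact (ψ : (K ≃ₐ[F] K) →* ℂˣ) : Prop :=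
  (∀ g ∈ D.N, ψ g = D.χ g) ∧ ∀ v : Pl K, InPl (abv K D.S) v → Triv ψ v →
    ∃ (i : Fin D.r) (g : K ≃ₐ[F] K), pact g (D.w i) = v

/-- **Q1**: the `χ`-part of the Rubin–Stark element is defined over `E`: there are elements
`u_{m,1}, …, u_{m,r}` of the group `O_{K,S}^×` and `a_m ∈ E[G]` such that
`L_S^*(ψ, 0) = ∑_m ψ(a_m) det(∑_g ψ(g) log |g u_{m,j}|_{w_i})` for all the characters `ψ = χη` with
order of vanishing `r` -/
def PartData.Q1 : Prop :=
  ∃ (n : ℕ) (a : Fin n → (K ≃ₐ[F] K) → ℂ) (u : Fin n → Fin D.r → K),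
    (∀ m g, a m g ∈ D.E) ∧ (∀ m j, IsUnt (abv K D.S) (u m j)) ∧
    ∀ ψ : (K ≃ₐ[F] K) →* ℂˣ, D.Exact ψ →
      lead D.S ψ = ∑ m, (∑ g, a m g * cf ψ g) * (ellM ψ (u m) D.w).det

/-- Stark's equality for `ψ` and the automorphism `σ` -/
def StarkFor (ψ : (K ≃ₐ[F] K) →* ℂˣ) (σ : ℂ ≃+* ℂ) : Prop :=
  ∀ (j : K →ₐ[F] AlgebraicClosure F) (Ψ : RL.Lin (base F)), Infl j Ψ.fn (cf ψ) → StarkEq Ψ.fn σ

end

end Pool.Agent.Q20.SI
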