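import Pool.Agent.Q20.SI.Row3
import Pool.Agent.Q20.SI.Fou

/-!
# The rational form of the rank one abelian Stark conjecture
-/

set_option autoImplicit false
set_option linter.unusedSectionVars false

namespace Pool.Agent.Q20.SI

open NumberField IsDedekindDomain Pool.Agent.Q20.RS

/-- **The data of the question**: an abelian extension `K` of `F` with group `G`, the set `S` of the
finite places in question (it contains the ramified ones; the archimedean places are always included),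
a place `v` of `K` above a place `𝔭` in `S` which splits completely in `K`; there is another place
in `S` -/
structure RankOneData (F K : Type) [Field F] [NumberField F] [Field K] [NumberField K]
    [Algebra F K] : Type where
  comm : ∀ a b : K ≃ₐ[F] K, a * b = b * a
  /-- the finite places in `S` -/
  S : Finset (HeightOneSpectrum (𝓞 F))
  ram : ∀ p : HeightOneSpectrum (𝓞 F), ¬ Unrm K p → p ∈ S
  /-- the place of `K` -/
  v : Pl K
  mem : InPl (abv K S) v
  split : ∀ g : K ≃ₐ[F] K, pact g v = v → g = 1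
  more : ∃ w : Pl K, InPl (abv K S) w ∧ ∀ g : K ≃ₐ[F] K, pact g v ≠ w

section
variable {F K : Type} [Field F] [NumberField F] [Field K] [NumberField K] [Algebra F K]
  (D : RankOneData F K)

/-- the order of vanishing of `L_S(s, χ)` at `s = 0` is one: for `χ ≠ 1`, `χ` is not trivial on the
decomposition groups of the places in `S` other than `𝔭`; for `χ = 1`, there is exactly one place
other than `𝔭` in `S` -/
def RankOneData.Exact (χ : (K ≃ₐ[F] K) →* ℂˣ) : Prop :=
  ((∃ g, χ g ≠ 1) ∧ ∀ w : Pl K, InPl (abv K D.S) w → Triv χ w →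
    ∃ g : K ≃ₐ[F] K, pact g D.v = w) ∨
  ((∀ g, χ g = 1) ∧ ∃ w₀ : Pl K, ∀ w : Pl K, InPl (abv K D.S) w →
    (∃ g : K ≃ₐ[F] K, pact g w₀ = w) ∨ ∃ g : K ≃ₐ[F] K, pact g D.v = w)

open scoped Classical in
/-- `L_S'(0, χ)`: the leading coefficient if the order of vanishing is one, and `0` otherwise -/
noncomputable def RankOneData.deriv (χ : (K ≃ₐ[F] K) →* ℂˣ) : ℂ :=
  if D.Exact χ then lead D.S χ else 0

/-- `ζ_S'(g, 0)`, the derivative of the partial zeta function
`ζ_S(g, s) = |G|⁻¹ ∑_χ χ(g)⁻¹ L_S(s, χ)` -/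
noncomputable def RankOneData.zeta (g : K ≃ₐ[F] K) : ℂ :=
  (Fintype.card (K ≃ₐ[F] K) : ℂ)⁻¹ * ∑ χ : (K ≃ₐ[F] K) →* ℂˣ, (cf χ g)⁻¹ * D.deriv χ

/-- the places above `T = S ∖ {𝔭}` -/
def RankOneData.InT (w : Pl K) : Prop := InPl (abv K D.S) w ∧ ∀ g : K ≃ₐ[F] K, pact g D.v ≠ w

/-- `ε ∈ U^T_{S,K}`: `|ε| = 1` at the places which are not above `S`, and at the places above `T` if `T`
has more than one element; the value at the places above `𝔮` is the same if `T = {𝔮}` -/
def RankOneData.IsU (ε : K) : Prop :=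
  IsUnt (abv K D.S) ε ∧
  ((∃ w₁ w₂ : Pl K, D.InT w₁ ∧ D.InT w₂ ∧ ∀ g : K ≃ₐ[F] K, pact g w₁ ≠ w₂) →
    ∀ w : Pl K, D.InT w → logv ε w = 0) ∧
  ∀ w₁ w₂ : Pl K, D.InT w₁ → D.InT w₂ → logv ε w₁ = logv ε w₂

/-- **Q1 up to powers** (Stark's conjecture over `ℚ`): there are `m > 0` and `ε ∈ U^T_{S,K}` with
`log |g ε|_v = - m ζ_S'(g, 0)` for all `g` -/
def RankOneData.Q1 : Prop :=
  ∃ (m : ℕ) (ε : K), 0 < m ∧ D.IsU ε ∧
    ∀ g : K ≃ₐ[F] K, ((logv (g ε) D.v : ℝ) : ℂ) = - (m : ℂ) * D.zeta g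

end

end Pool.Agent.Q20.SI
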