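import Pool.Agent.Q20.TW.Std
import Pool.Agent.Q20.RS.Lfn

/-!
# Project SI: Stark's conjecture does not depend on the extension and on the set of places
(statements of the lemma jobs; the docstrings contain the proofs)
-/

set_option autoImplicit false
set_option linter.unusedSectionVars false

namespace Pool.Agent.Q20.SI

open NumberField IsDedekindDomain Pool.Agent.Q20.RS

section defs
variable {F M : Type} [Field F] [NumberField F] [Field M] [NumberField M] [Algebra F M]

/-- `u` is a `T`-unit: `u ≠ 0` and `|u|_w = 1` for all primes `w` outside `T` -/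
def IsUnt (T : Finset (HeightOneSpectrum (𝓞 M))) (u : M) : Prop :=
  u ≠ 0 ∧ ∀ w, w ∉ T → NumberField.HeightOneSpectrum.adicAbv M w u = 1

/-- the place is in `T` or archimedean -/
def InPl (T : Finset (HeightOneSpectrum (𝓞 M))) : Pl M → Prop
  | .inl w => w ∈ T
  | .inr _ => True

/-- `χ` is trivial on the decomposition group of `w` -/
def Triv (χ : (M ≃ₐ[F] M) →* ℂˣ) (w : Pl M) : Prop := ∀ g : M ≃ₐ[F] M, pact g w = w → χ g = 1

/-- `∑_g χ(g) log |g u|_w` -/
noncomputable def ell (χ : (M ≃ₐ[F] M) →* ℂˣ) (u : M) (w : Pl M) : ℂ :=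
  ∑ g : M ≃ₐ[F] M, ((χ g : ℂˣ) : ℂ) * ((logv (g u) w : ℝ) : ℂ)

/-- `w_i` are representatives of the orbits of the places in `T` and of the archimedean places on
whose decomposition groups `χ` is trivial -/
structure Reps (χ : (M ≃ₐ[F] M) →* ℂˣ) (T : Finset (HeightOneSpectrum (𝓞 M))) {ι : Type}
    (w : ι → Pl M) : Prop where
  mem : ∀ i, InPl T (w i)
  triv : ∀ i, Triv χ (w i)
  cover : ∀ v, InPl T v → Triv χ v → ∃ i, ∃ g : M ≃ₐ[F] M, pact g (w i) = v
  inj : ∀ (i j : ι) (g : M ≃ₐ[F] M), pact g (w i) = w j → i = j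

/-- the matrix `(∑_g χ(g) log |g α_j|_{w_i})` -/
noncomputable def ellM (χ : (M ≃ₐ[F] M) →* ℂˣ) {ι : Type} (α : ι → M) (w : ι → Pl M) :
    Matrix ι ι ℂ := Matrix.of fun i j => ell χ (α j) (w i)

/-- the linear character as a function -/
def cf (χ : (M ≃ₐ[F] M) →* ℂˣ) (g : M ≃ₐ[F] M) : ℂ := ((χ g : ℂˣ) : ℂ)

end defs

section tower
variable {F M N : Type} [Field F] [NumberField F] [Field M] [NumberField M] [Field N] [NumberField N]
  [Algebra F M] [Algebra F N] [Algebra M N] [IsScalarTower F M N]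

variable (M) in
/-- the place of `M` below a place of `N` -/
noncomputable def dn : Pl N → Pl M
  | .inl P => .inl (P.under (𝓞 M))
  | .inr v => .inr (v.comap (algebraMap M N))

variable (N) in
/-- the inflation of a linear character -/
noncomputable def up [Normal F M] (χ : (M ≃ₐ[F] M) →* ℂˣ) : (N ≃ₐ[F] N) →* ℂˣ :=
  χ.comp (AlgEquiv.restrictNormalHom M)

end tower

/-- JOB REG. `M/F` Galois with group `G`, `T` stable, `θ` a Stark map, `χ ≠ 1` a linear character, `w_i`
representatives. There are a rational number `q ≠ 0` and `T`-units `α_j` such that for all `χ'` with the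
same kernel as `χ`: the regulator is `q det(∑_g χ'(g) log |g α_j|_{w_i})`, and for every `T`-unit `u`
there are rational numbers `κ_j(g)` with
`∑_g χ'(g) log |g u|_{w_i} = ∑_j (∑_g κ_j(g) χ'(g)) ∑_g χ'(g) log |g α_j|_{w_i}`.
PROOF. For `n = 1` (`ρ.character 1 = 1`) `f ↦ f(1)` is an isomorphism of `HomD ρ X` with
`W = {x ∈ XC T | g x = χ'(g)⁻¹ x} = {x | x(g w) = χ'(g) x(w)}`, compatible with `θ`. Let `D_i` be the
stabiliser of `w_i`, `y_j = [w_j] - |G|⁻¹ ∑_g g [w_j]` (rational, sum zero), `x_j = ∑_g χ'(g) g y_j =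
∑_g χ'(g) [g w_j] ∈ W` (as `∑_g χ'(g) = 0`), `x_j(w_i) = δ_ij |D_i|`. An element of `W` vanishes at places
whose stabiliser is not in the kernel, so it is determined by its values at the `w_i`: the `x_j` are a
basis of `W`. `θ y_j` is a `LogUnit`: `m_j (θ y_j)(w) = - logv α_j w`, so `θ x_j (w_i) =
∑_g χ'(g) (θ y_j)(g⁻¹ w_i) = - m_j⁻¹ ell χ' α_j w_i` (use `logv (g α) w = logv α (g⁻¹ w)`), which gives the
matrix of `θ` in the basis `x_j`. For a `T`-unit `u` the vector `(- logv u w)_w` is in `XC T` (product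
formula) and it is a `LogUnit`, so it is `θ x` with `x` rational; `∑_g χ'(g) g x = ∑_j k_j x_j`,
`k_j = |D_j|⁻¹ ∑_g χ'(g) x(g⁻¹ w_j)`; apply `θ` and evaluate at `w_i`; `κ_j(g) = x(g⁻¹ w_j)/(|D_j| m_j)`. -/
def S_REG : Prop :=
  ∀ (F M : Type) [Field F] [NumberField F] [Field M] [NumberField M] [Algebra F M] [IsGalois F M]
    (T : Finset (HeightOneSpectrum (𝓞 M))) (hT : Stable F T) (θ : StarkMap hT)
    (χ : (M ≃ₐ[F] M) →* ℂˣ), (∃ g, χ g ≠ 1) → ∀ (ι : Type) [Fintype ι] [DecidableEq ι] (w : ι → Pl M),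
    Reps χ T w → ∃ (q : ℚ) (α : ι → M), q ≠ 0 ∧ (∀ j, IsUnt T (α j)) ∧
      (∀ χ' : (M ≃ₐ[F] M) →* ℂˣ, (∀ g, χ' g = 1 ↔ χ g = 1) →
        ∀ (n : ℕ) (ρ : Representation ℂ (M ≃ₐ[F] M) (Fin n → ℂ)), (∀ g, ρ.character g = cf χ' g) →
          regul ρ (XRep hT) θ.map = (q : ℂ) * (ellM χ' α w).det) ∧
      ∀ u : M, IsUnt T u → ∃ κ : ι → (M ≃ₐ[F] M) → ℚ,
        ∀ χ' : (M ≃ₐ[F] M) →* ℂˣ, (∀ g, χ' g = 1 ↔ χ g = 1) → ∀ i,
          ell χ' u (w i) = ∑ j, (∑ g, (κ j g : ℂ) * cf χ' g) * ell χ' (α j) (w i)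

/-- JOB LFN. Comparison of the leading coefficients of the Artin L-functions of a linear character for
`M/F` (abelian) and of its inflation for `N/F` with a larger set of primes.
PROOF. For `Re s > 1` `artinLS T_N (up χ) s = artinLS T_M χ s * ∏_{v ∈ E} (1 - χ(Frob_v) q_v^(-s))`: for `v`
not below `T_N` a Frobenius element of `N` at `v` restricts to a Frobenius element of `M` at `v`, which is
unique because `v` is unramified in `M` and `M/F` is abelian (`IsFrb`, `frb`, `RS/Frb.lean`,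
`RS/Lfn.lean`; the primes in `E` are unramified in `M`, `frb M v` is the Frobenius element, and
`exp(∑_n z^n/n) = (1-z)⁻¹`). Both sides have meromorphic continuations (`lin_mem` in `RS/Cnt.lean`);
use `meromorphicTrailingCoeffAt_mul` as in `leading_add`; the trailing coefficient of `1 - z q^(-s)` at
`0` is `log q` if `z = 1` and `1 - z` otherwise. -/
def S_LFN : Prop :=
  ∀ (F M N : Type) [Field F] [NumberField F] [Field M] [NumberField M] [Field N] [NumberField N]
    [Algebra F M] [Algebra F N] [Algebra M N] [IsScalarTower F M N] [IsGalois F M] [IsGalois F N],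
    (∀ a b : M ≃ₐ[F] M, a * b = b * a) →
    ∀ (T : Finset (HeightOneSpectrum (𝓞 M))) (T' : Finset (HeightOneSpectrum (𝓞 N))),
    Stable F T → ContainsRamified F T → Stable F T' → ContainsRamified F T' →
    (∀ v : HeightOneSpectrum (𝓞 F), InS T v → InS T' v) →
    ∀ (χ : (M ≃ₐ[F] M) →* ℂˣ) (E : Finset (HeightOneSpectrum (𝓞 F))),
    (∀ v, v ∈ E ↔ InS T' v ∧ ¬ InS T v) →
    leading T' (cf (up N χ)) = leading T (cf χ) * ∏ v ∈ E,
      (if χ (frb M v) = 1 then ((Real.log (Ideal.absNorm v.asIdeal) : ℝ) : ℂ)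
        else 1 - cf χ (frb M v))

/-- JOB ORB. Places in towers: `dn` is surjective, equivariant, its fibres are orbits of `Gal(N/M)`, and
`up χ` is trivial on the decomposition group of `w` if and only if `χ` is trivial on that of `dn w`.
PROOF. (1) `algebraMap M N` integral: lying over; `InfinitePlace.comap_surjective`. (2) definitions.
(3) transitivity of the Galois group on the primes/places above (Mathlib; `RS/Lfn.lean` has the primes);
`h` may be taken in `Gal(N/M)`, restrict scalars to `F`. (4) `restrictNormalHom` is surjective, use (2)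
and (3). -/
def S_ORB : Prop :=
  ∀ (F M N : Type) [Field F] [NumberField F] [Field M] [NumberField M] [Field N] [NumberField N]
    [Algebra F M] [Algebra F N] [Algebra M N] [IsScalarTower F M N] [IsGalois F M] [IsGalois F N],
    (∀ v : Pl M, ∃ w : Pl N, dn M w = v) ∧
    (∀ (g : N ≃ₐ[F] N) (w : Pl N), dn M (pact g w) = pact (AlgEquiv.restrictNormalHom M g) (dn M w)) ∧
    (∀ w w' : Pl N, dn M w = dn M w' → ∃ h : N ≃ₐ[F] N, AlgEquiv.restrictNormalHom M h = 1 ∧
      pact h w = w') ∧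
    ∀ (χ : (M ≃ₐ[F] M) →* ℂˣ) (w : Pl N), Triv (up N χ) w ↔ Triv χ (dn M w)

/-- JOB RPS. Representatives of the orbits of places of `M` can be lifted and completed to
representatives for `N` and a larger set of primes.
PROOF. With `S_ORB`. Take `w' (inl i)` above `w i`, and `J` = the orbits of the primes in `T'` on whose
decomposition group `up χ` is trivial and which are not above primes of `T`, with representatives. -/
def S_RPS : Prop :=
  ∀ (F M N : Type) [Field F] [NumberField F] [Field M] [NumberField M] [Field N] [NumberField N]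
    [Algebra F M] [Algebra F N] [Algebra M N] [IsScalarTower F M N] [IsGalois F M] [IsGalois F N]
    (T : Finset (HeightOneSpectrum (𝓞 M))) (T' : Finset (HeightOneSpectrum (𝓞 N))),
    Stable F T → Stable F T' →
    (∀ P : HeightOneSpectrum (𝓞 N), P.under (𝓞 M) ∈ T → P ∈ T') →
    ∀ (χ : (M ≃ₐ[F] M) →* ℂˣ) (ι : Type) [Fintype ι] (w : ι → Pl M), Reps χ T w →
    ∃ (J : Type) (_ : Fintype J) (_ : DecidableEq J) (w' : ι ⊕ J → Pl N), Reps (up N χ) T' w' ∧
      (∀ i, dn M (w' (.inl i)) = w i) ∧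
      ∀ j, ∃ P ∈ T', w' (.inr j) = .inl P ∧ P.under (𝓞 M) ∉ T

/-- JOB NRM. Units of `N` and their norms in `M`.
PROOF. There is `n(w) > 0` with `logv (algebraMap M N x) w = n(w) logv x (dn w)` for all `x` (`e f` for primes,
the quotient of the `mult`s for archimedean places). `algebraMap (norm α) = ∏_{h ∈ Gal(N/M)} h α`
(`Algebra.norm_eq_prod_automorphisms`), so for `g ∈ Gal(N/F)` above `y ∈ Gal(M/F)` the sum of
`logv (g' α) w` over all `g'` above `y` is `logv (algebraMap (y (norm α))) w`. Sort the sum `ell` by `y`.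
For the second part: if `P` is not below `T'` then all primes above `P` are outside `T'`, and
`|h α|_Q = |α|_{h⁻¹ Q} = 1`, `h⁻¹ Q` above `P`. -/
def S_NRM : Prop :=
  ∀ (F M N : Type) [Field F] [NumberField F] [Field M] [NumberField M] [Field N] [NumberField N]
    [Algebra F M] [Algebra F N] [Algebra M N] [IsScalarTower F M N] [IsGalois F M] [IsGalois F N],
    (∃ n : Pl N → ℕ, (∀ w, 0 < n w) ∧ ∀ (χ : (M ≃ₐ[F] M) →* ℂˣ) (α : N) (w : Pl N), α ≠ 0 →
      ell (up N χ) α w = (n w : ℂ) * ell χ (Algebra.norm M α) (dn M w)) ∧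
    ∀ (T : Finset (HeightOneSpectrum (𝓞 M))) (T' : Finset (HeightOneSpectrum (𝓞 N))) (α : N),
      (∀ P ∈ T', P.under (𝓞 M) ∈ T) → IsUnt T' α → IsUnt T (Algebra.norm M α)

/-- JOB ABS. Linear relations between valuations with complex coefficients.
PROOF. Let `b_1, …, b_m` be a `ℚ`-basis of the span of the `c_i`, `c_i = ∑_s q_is b_s`. The hypothesis and the
independence of the `b_s` give `∑_i q_is ord_p(a_i) = 0` for all `p, s`. Let `D` be a common denominator of
the `q_is`, `u_s = ∑_i (D q_is) a_i`. Then `ord_p(u_s) = 0` and `∑_s σ(b_s) f(u_s) = D ∑_i σ(c_i) f(a_i)`. -/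
def S_ABS : Prop :=
  ∀ (U P : Type) [AddCommGroup U] (ord : P → U →+ ℤ) (ι : Type) [Fintype ι] (a : ι → U) (c : ι → ℂ),
    (∀ p, ∑ i, c i * ((ord p (a i) : ℤ) : ℂ) = 0) →
    ∃ (m : ℕ) (b : Fin m → ℂ) (u : Fin m → U) (D : ℕ), 0 < D ∧
      (∀ s, b s ∈ Submodule.span ℚ (Set.range c)) ∧ (∀ s p, ord p (u s) = 0) ∧
      ∀ (σ : ℂ ≃+* ℂ) (f : U →+ ℂ), ∑ s, σ (b s) * f (u s) = (D : ℂ) * ∑ i, σ (c i) * f (a i)

/-- JOB MAT. Elimination of rows with coefficients in a subfield `k`.
PROOF. The rows of `O` are linearly independent over `ℂ`, so over `k`, so there is an invertible matrix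
`E' = (E | E₂)` over `k` with `O E' = (0 | 1)` (basis of the kernel and preimages of the unit vectors); put
`c = det E'`. Then `(B; diag(n) σ(O)) σ(E') = (B σ(E), B σ(E₂); 0, diag(n))`. -/
def S_MAT : Prop :=
  ∀ (k : Subfield ℂ) (I J : Type) [Fintype I] [Fintype J] [DecidableEq I] [DecidableEq J]
    (O : Matrix J (I ⊕ J) ℂ), (∀ i j, O i j ∈ k) →
    (∃ (B : Matrix I (I ⊕ J) ℂ) (n : J → ℂ), (Matrix.fromRows B (Matrix.diagonal n * O)).det ≠ 0) →
    ∃ (E : Matrix (I ⊕ J) I ℂ) (c : ℂ), c ≠ 0 ∧ c ∈ k ∧ (∀ i j, E i j ∈ k) ∧ O * E = 0 ∧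
      ∀ (σ : ℂ ≃+* ℂ) (B : Matrix I (I ⊕ J) ℂ) (n : J → ℂ),
        (Matrix.fromRows B (Matrix.diagonal n * O.map σ)).det * σ c =
          (B * E.map σ).det * ∏ j, n j

/-- JOB TUN. Dirichlet's theorem for `T`-units.
PROOF. Mathlib has the case of units (`NumberField.Units.DirichletTheorem`: the logarithms of a
fundamental system are a basis of the sum zero space, `Units.basisModTorsion`,
`NumberField.Units.unitLattice_span_eq_top`, regulators). Let `h` be the class number and for `P ∈ T`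
let `P^h = (π_P)`. The vectors of a fundamental system of units and of the `π_P` are a basis of `XC T` (block
triangular: the value at `P` of the vector of `π_P` is `± h log N P`, the values of the units at primes are
`0`; dimension `|T| + r_1 + r_2 - 1`). If `u` is a `T`-unit then `u^h = ε ∏ π_P^(ord_P u)` with a unit `ε`. The
vectors are in `XC T` by the product formula. -/
def S_TUN : Prop :=
  ∀ (M : Type) [Field M] [NumberField M] (T : Finset (HeightOneSpectrum (𝓞 M))),
    ∃ (n : ℕ) (B : Module.Basis (Fin n) ℂ (XC T)),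
      (∀ i, ∃ u : M, IsUnt T u ∧ ∀ w, (B i).fn w = ((-logv u w : ℝ) : ℂ)) ∧
      ∀ u : M, IsUnt T u → ∃ q : Fin n → ℚ, ∀ w, ((-logv u w : ℝ) : ℂ) = ∑ i, (q i : ℂ) * (B i).fn w

/-- `x` is a combination of the vectors of the basis `B` with rational coefficients -/
def RatComb {V : Type} [AddCommGroup V] [Module ℂ V] {n : ℕ} (B : Module.Basis (Fin n) ℂ V) (x : V) :
    Prop := ∃ q : Fin n → ℚ, x = ∑ i, (q i : ℂ) • B i

/-- JOB DNO. (Deuring, Noether.) Two rational structures of a complex representation are isomorphic.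
PROOF. For a matrix `A = (a_ij)` let `φ_A` be the linear map with `φ_A(B_j) = ∑_i a_ij B'_i` and
`ψ_A = |G|⁻¹ ∑_g ρ(g) φ_A ρ(g)⁻¹`, which commutes with `ρ`. `det ψ_A` is a polynomial in the `a_ij` (over `ℂ`);
it is `1` for the matrix of the identity. As `ℚ` is infinite there is a rational matrix `A` with
`det ψ_A ≠ 0` (`MvPolynomial.funext_set` or a similar lemma). Then `θ = ψ_A` maps the rational
combinations of `B` to those of `B'`; its matrix is rational and invertible, so the inverse too. -/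
def S_DNO : Prop :=
  ∀ (G V : Type) [Group G] [Finite G] [AddCommGroup V] [Module ℂ V] (ρ : Representation ℂ G V)
    (n : ℕ) (B B' : Module.Basis (Fin n) ℂ V), (∀ g i, RatComb B (ρ g (B i))) →
    (∀ g i, RatComb B' (ρ g (B' i))) → ∃ θ : V ≃ₗ[ℂ] V, (∀ g x, θ (ρ g x) = ρ g (θ x)) ∧
      ∀ x, RatComb B x ↔ RatComb B' (θ x)

/-- JOB EXI. There is a Stark map (for every stable set of primes).
PROOF. A rational basis `B` of `XC T` (e.g. `[w] - [v]`, `w ∈ T` or `w ≠ v` archimedean, `v` a fixed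
archimedean place): `RatComb B x ↔ Rational x`. `B'` from `S_TUN`: `RatComb B' x ↔ LogUnit x` (clear
denominators). Both are stable under `XRep`. Apply `S_DNO`. -/
def S_EXI : Prop :=
  ∀ (F M : Type) [Field F] [NumberField F] [Field M] [NumberField M] [Algebra F M]
    (T : Finset (HeightOneSpectrum (𝓞 M))) (hT : Stable F T), Nonempty (StarkMap hT)

/-- JOB CMP (helper20). Comparison of Stark's numbers for `N/F` with the numbers of `M/F` (abelian): there
are `T`-units `α_i` of `M`, and a number `e ≠ 0` with, for all `σ`, `A_N(up χ^σ) = σ(e) det(ell χ^σ α w) /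
L_M^*(χ^σ)`. -/
def S_CMP : Prop :=
  ∀ (F M : Type) [Field F] [NumberField F] [Field M] [NumberField M] [Algebra F M] [IsGalois F M],
    (∀ a b : M ≃ₐ[F] M, a * b = b * a) →
    ∀ T : Finset (HeightOneSpectrum (𝓞 M)), Stable F T → ContainsRamified F T →
    ∀ χ : (M ≃ₐ[F] M) →* ℂˣ, (∃ g, χ g ≠ 1) →
    ∀ (ι : Type) [Fintype ι] [DecidableEq ι] (w : ι → Pl M), Reps χ T w →
    ∃ α : ι → M, (∀ i, IsUnt T (α i)) ∧
    (∀ χ' : (M ≃ₐ[F] M) →* ℂˣ, (∀ g, χ' g = 1 ↔ χ g = 1) → (ellM χ' α w).det ≠ 0) ∧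
    ∀ (N : Type) [Field N] [NumberField N] [Algebra F N] [Algebra M N] [IsScalarTower F M N]
      [IsGalois F N] (T' : Finset (HeightOneSpectrum (𝓞 N))) (hT' : Stable F T'),
      ContainsRamified F T' → (∀ P : HeightOneSpectrum (𝓞 N), P.under (𝓞 M) ∈ T → P ∈ T') →
      ∀ θ : StarkMap hT', ∃ e : ℂ, e ≠ 0 ∧ ∀ (σ : ℂ ≃+* ℂ) (χ' : (M ≃ₐ[F] M) →* ℂˣ),
        (∀ g, cf χ' g = σ (cf χ g)) →
        ∀ (n : ℕ) (ρ : Representation ℂ (N ≃ₐ[F] N) (Fin n → ℂ)),
          (∀ g, ρ.character g = cf (up N χ') g) →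
          starkA θ ρ = σ e * (ellM χ' α w).det / leading T (cf χ')

end Pool.Agent.Q20.SI
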