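import Pool.Agent.Q20.SI.Stm

/-!
# Project SI: a further statement (the docstring contains the proof)
-/

set_option autoImplicit false
set_option linter.unusedSectionVars false

namespace Pool.Agent.Q20.SI

open NumberField IsDedekindDomain Pool.Agent.Q20.RS

/-- JOB FRO. `M/F` abelian, `v` a prime of `F` below the prime `Q` of `M`. (1) If `v` is unramified in
`M` then a linear character `χ` is trivial on the decomposition group of `Q` if and only if
`χ(Frob_v) = 1`. (2) `N Q` is a power of `N v` with positive exponent; `N v > 1`.
PROOF. (1) `frb M v` satisfies `IsFrb v` (existence of Frobenius elements: see `RS/Frb.lean`,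
`RS/Lfn.lean`, `Pool.Agent.Q92.AR`, where also uniqueness for unramified primes up to conjugation is
used); it fixes a prime above `v`, so (abelian) `Q`. It generates the decomposition group of `Q` because
`v` is unramified (the inertia group is trivial and the Galois group of the residue field extension is
generated by the Frobenius automorphism). (2) `N Q = (N v)^f`, `f > 0` the inertia degree. -/
def S_FRO : Prop :=
  (∀ (F M : Type) [Field F] [NumberField F] [Field M] [NumberField M] [Algebra F M] [IsGalois F M],
    (∀ a b : M ≃ₐ[F] M, a * b = b * a) → ∀ Q : HeightOneSpectrum (𝓞 M), Unrm M (Q.under (𝓞 F)) →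
    ∀ χ : (M ≃ₐ[F] M) →* ℂˣ, (Triv χ (.inl Q) ↔ χ (frb M (Q.under (𝓞 F))) = 1)) ∧
  ∀ (F M : Type) [Field F] [NumberField F] [Field M] [NumberField M] [Algebra F M]
    (Q : HeightOneSpectrum (𝓞 M)), ∃ f : ℕ, 0 < f ∧
    Ideal.absNorm Q.asIdeal = Ideal.absNorm (Q.under (𝓞 F)).asIdeal ^ f ∧
    1 < Ideal.absNorm (Q.under (𝓞 F)).asIdeal

end Pool.Agent.Q20.SI
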