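import Pool.Agent.Q20.SI.Red
import Pool.Agent.TH119.MX.Gal

/-!
# Killing the absolute values at the places where the character is not trivial
-/

set_option autoImplicit false
set_option linter.unusedSectionVars false

namespace Pool.Agent.Q20.SI

open NumberField IsDedekindDomain Pool.Agent.Q20.RS

section
variable {F M : Type} [Field F] [NumberField F] [Field M] [NumberField M] [Algebra F M]

theorem logv_inv (x : M) (w : Pl M) : logv x⁻¹ w = -logv x w := by
  rcases w with P | v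
  · change Real.log (NumberField.HeightOneSpectrum.adicAbv M P x⁻¹) = _
    rw [map_inv₀, Real.log_inv]
    rfl
  · change (v.mult : ℝ) * Real.log (v x⁻¹) = -((v.mult : ℝ) * Real.log (v x))
    rw [map_inv₀, Real.log_inv]
    ring

theorem ell_inv (χ : (M ≃ₐ[F] M) →* ℂˣ) (x : M) (w : Pl M) : ell χ x⁻¹ w = -ell χ x w := by
  unfold ell
  rw [← Finset.sum_neg_distrib]
  refine Finset.sum_congr rfl fun g _ => ?_
  rw [map_inv₀, logv_inv]
  push_cast
  ring

theorem adicAbv_act {T : Finset (HeightOneSpectrum (𝓞 M))} (hT : Stable F T) (g : M ≃ₐ[F] M)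
    {x : M} (hx : IsUnt T x) : IsUnt T (g x) := by
  refine ⟨by simpa using hx.1, fun P hP => ?_⟩
  have h1 : pra g⁻¹ P ∉ T := by
    intro h
    have h2 := hT g _ h
    rw [← pra_mul, mul_inv_cancel, pra_one] at h2
    exact hP h2
  have h3 := hx.2 _ h1
  have h4 := logv_pact g (.inl (pra g⁻¹ P)) x
  have h5 : pact g (.inl (pra g⁻¹ P)) = (.inl P : Pl M) := by
    change Sum.inl (pra g (pra g⁻¹ P)) = _
    rw [← pra_mul, mul_inv_cancel, pra_one]
  rw [h5] at h4
  change Real.log (NumberField.HeightOneSpectrum.adicAbv M P (g x)) =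
    Real.log (NumberField.HeightOneSpectrum.adicAbv M (pra g⁻¹ P) x) at h4
  rw [h3, Real.log_one] at h4
  refine Real.eq_one_of_pos_of_log_eq_zero ?_ h4
  rw [AbsoluteValue.pos_iff]
  simpa using hx.1

theorem IsUnt.div {T : Finset (HeightOneSpectrum (𝓞 M))} {x y : M} (hx : IsUnt T x)
    (hy : IsUnt T y) : IsUnt T (x * y⁻¹) := by
  refine ⟨mul_ne_zero hx.1 (inv_ne_zero hy.1), fun P hP => ?_⟩
  rw [map_mul, map_inv₀, hx.2 P hP, hy.2 P hP, inv_one, mul_one]

/-- modification of a unit -/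
theorem exists_mod (hc : ∀ a b : M ≃ₐ[F] M, a * b = b * a)
    {T : Finset (HeightOneSpectrum (𝓞 M))} (hT : Stable F T) {α : M} (hα : IsUnt T α)
    (δ : Pl M → (M ≃ₐ[F] M)) (W : Finset (Pl M)) (hδ : ∀ w ∈ W, pact (δ w) w = w) :
    ∃ u : M, IsUnt T u ∧ (∀ w ∈ W, ∀ g : M ≃ₐ[F] M, logv u (pact g w) = 0) ∧
      ∀ (χ : (M ≃ₐ[F] M) →* ℂˣ) (w : Pl M),
        ell χ u w = (∏ w ∈ W, (1 - (cf χ (δ w))⁻¹)) * ell χ α w := by
  classical
  induction W using Finset.induction_on with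
  | empty => exact ⟨α, hα, by simp, fun χ w => by rw [Finset.prod_empty, one_mul]⟩
  | insert w₀ W hw₀ ih =>
    obtain ⟨u, h1, h2, h3⟩ := ih fun w hw => hδ w (Finset.mem_insert_of_mem hw)
    have hd : pact (δ w₀) w₀ = w₀ := hδ w₀ (Finset.mem_insert_self _ _)
    have hdi : pact (δ w₀)⁻¹ w₀ = w₀ := by
      have h4 := congrArg (pact (δ w₀)⁻¹) hd
      rw [← pact_mul, inv_mul_cancel, pact_one] at h4
      exact h4.symm
    have hact : ∀ w, logv (δ w₀ u) w = logv u (pact (δ w₀)⁻¹ w) := by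
      intro w
      have h4 := logv_pact (δ w₀) (pact (δ w₀)⁻¹ w) u
      rw [← pact_mul, mul_inv_cancel, pact_one] at h4
      exact h4
    have h1' := adicAbv_act hT (δ w₀) h1
    refine ⟨u * (δ w₀ u)⁻¹, h1.div h1', ?_, ?_⟩
    · intro w hw g
      rw [logv_mul h1.1 (inv_ne_zero h1'.1), logv_inv, hact, ← pact_mul]
      rcases Finset.mem_insert.1 hw with rfl | hw
      · rw [hc (δ w)⁻¹ g, pact_mul, hdi, add_neg_cancel]
      · rw [h2 w hw, h2 w hw, neg_zero, add_zero]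
    · intro χ w
      rw [ell_mul χ h1.1 (inv_ne_zero h1'.1), ell_inv, Finset.prod_insert hw₀]
      have h4 := ell_act χ (δ w₀) u w
      have h5 : cf χ (δ w₀) ≠ 0 := Units.ne_zero _
      have h6 : ell χ (δ w₀ u) w = (cf χ (δ w₀))⁻¹ * ell χ u w := by
        rw [← h4, ← mul_assoc, inv_mul_cancel₀ h5, one_mul]
      rw [h6, h3]
      ring

/-- the value field -/
noncomputable def valF (χ : (M ≃ₐ[F] M) →* ℂˣ) : IntermediateField ℚ ℂ :=
  IntermediateField.adjoin ℚ (Set.range (cf χ))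

theorem cf_mem (χ : (M ≃ₐ[F] M) →* ℂˣ) (g : M ≃ₐ[F] M) : cf χ g ∈ valF χ :=
  IntermediateField.subset_adjoin _ _ ⟨g, rfl⟩

/-- numbers which are fixed by the automorphisms fixing the values of the character -/
theorem mem_valF (χ : (M ≃ₐ[F] M) →* ℂˣ) {z : ℂ}
    (h : ∀ σ : ℂ ≃+* ℂ, (∀ g, cf χ g = σ (cf χ g)) → σ z = z) : z ∈ valF χ := by
  by_contra hz
  obtain ⟨σ, hσ, hne⟩ := Pool.Agent.TH119.MX.exists_move (F := (valF χ).toSubfield) hz
  exact hne (h σ fun g => (hσ _ (cf_mem χ g)).symm)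

end

end Pool.Agent.Q20.SI
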